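import Mathlib

/-!
# Specification A: the algebra behind the connectedness of hyperplane sections

No schemes. `K` is the function field of a projective variety `X` of dimension `≥ 2`, `E ⊆ K` the
space of the linear forms divided by a fixed one, `x₀ ∈ E` the equation of the hyperplane section
`Y`. `chart E z` (`z ∈ E`) is the coordinate ring of the affine open set where `z` does not vanish.
`StAlg`: an idempotent function on `Y` (given by `e z ∈ chart E z`, idempotent modulo `x₀ / z`,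
compatible) cannot be `1` at one point and `0` at another one.
-/

namespace Pool.Agent.Lib.MP_4ca46c_ag.Cn

open Polynomial (C X)

section Defs

variable (k : Type) {K : Type} [Field k] [Field K] [Algebra k K]

/-- The algebra generated by the quotients `w / z`, `w ∈ W`. -/
def chart (W : Submodule k K) (z : K) : Subalgebra k K :=
  Algebra.adjoin k {t | ∃ w ∈ W, t = w / z}

/-- The homogeneous coordinate ring: the algebra generated by the `w T`, `w ∈ W`, in `K[T]`. -/
noncomputable def cone (W : Submodule k K) : Subalgebra k (Polynomial K) :=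
  Algebra.adjoin k {p | ∃ w ∈ W, p = C w * X}

/-- `z` is integral over the homogeneous coordinate ring of `W`. -/
def HInt (W : Submodule k K) (z : K) : Prop := IsIntegral (cone k W) (C z * X : Polynomial K)

/-- The elements `y i` satisfy no homogeneous algebraic relation. -/
def HInd {σ : Type} (y : σ → K) : Prop :=
  ∀ (d : ℕ) (G : MvPolynomial σ k), G.IsHomogeneous d → MvPolynomial.aeval y G = 0 → G = 0

/-- The `N`-th lift of the idempotent `e`. -/
def lift {R : Type} [CommRing R] (e : R) (N : ℕ) : R := 1 - (1 - e ^ N) ^ N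

end Defs

section Statements

/-! ## Noether normalization -/

/-- **A1.** Substitution of linear polynomials in a homogeneous polynomial: the coefficient of
degree `d`.

PROOF. Write `G` as the sum of its monomials (`MvPolynomial.as_sum`); for a monomial `m` of degree
`d` (`IsHomogeneous`) the product of the `(b_i + c_i T) ^ (m_i)` has degree `≤ d` and coefficient
`∏ c_i ^ (m_i)` at `T^d` (`Polynomial.coeff_prod_of_natDegree_le`,
`Polynomial.coeff_pow_of_natDegree_le`). -/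
def StSubst : Prop := ∀ (k R : Type) [Field k] [CommRing R] [Algebra k R] (σ : Type) [Finite σ]
  (b c : σ → R) (d : ℕ) (G : MvPolynomial σ k), G.IsHomogeneous d →
  (MvPolynomial.aeval (fun i => (C (b i) + C (c i) * X : Polynomial R)) G).natDegree ≤ d ∧
  (MvPolynomial.aeval (fun i => (C (b i) + C (c i) * X : Polynomial R)) G).coeff d =
    MvPolynomial.aeval c G

/-- **A2. The reduction step.** (May use `StSubst`.)

PROOF. There is a homogeneous `G ≠ 0` of degree `d` with `G(y) = 0`; choose it with `d` minimal.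
`d ≠ 0` (a nonzero constant does not vanish). `G` is not divisible by `Y₀`: otherwise `G = Y₀ G'` with
`G'` homogeneous of degree `d - 1`, and `y₀ G'(y) = 0`, `y₀ ≠ 0`, contradicting minimality. So
`G(0, Y₁, …, Y_m) ≠ 0` (`MvPolynomial.X_dvd_iff_modMonomial_eq_zero` or: a polynomial all of whose
monomials contain `Y₀` is divisible by `Y₀`), and as `k` is infinite there is `c : Fin (m+1) → k`
with `c 0 = 0` and `G(c) ≠ 0` (`MvPolynomial.funext`). Some `c s ≠ 0`, because `d > 0` and `G` is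
homogeneous; `s ≠ 0`. Let `W'` be the span of `y i - (c i / c s) y s`, `i ≠ s` (it contains
`y 0`, since `c 0 = 0`; it is spanned by `m` elements). Let `T = y s X ∈ K[X]`. Then
`y i X = b i + (c i / c s) T`, `b i = (y i - (c i / c s) y s) X ∈ cone W'` for `i ≠ s`, `b s = 0`. So
`T` is a zero of the polynomial `Q = G(b_i + (c i / c s) T')` in `T'` over `cone W'`
(as `G(y_i X) = G(y) X^d = 0`), whose degree is `≤ d` and whose coefficient of `T'^d` is
`G(c / c s) = G(c) / (c s)^d`, a unit (`StSubst`). So `T` is integral over `cone W'`, and so are all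
`y i X = b i + (c i / c s) T`. -/
def StRed : Prop := ∀ (k K : Type) [Field k] [Infinite k] [Field K] [Algebra k K] (m : ℕ)
  (y : Fin (m + 1) → K), y 0 ≠ 0 → ¬ HInd k y →
  ∃ W' : Submodule k K, W' ≤ Submodule.span k (Set.range y) ∧ y 0 ∈ W' ∧
    Module.finrank k W' < m + 1 ∧ ∀ i, HInt k W' (y i)

/-- **A3.** PROOF. The integral closure `S` of `cone W'` in `K[X]` contains `cone W`
(`Algebra.adjoin_induction`); `C z * X` is integral over `cone W`, so over `S`, so over
`cone W'` (`IsIntegral.tower_top`, `isIntegral_trans`, `IsIntegrallyClosedIn` or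
`integralClosure_idem`; `MonicPolynomial` coefficients can be mapped to `S`). -/
def StTrans : Prop := ∀ (k K : Type) [Field k] [Field K] [Algebra k K] (W' W : Submodule k K),
  (∀ w ∈ W, HInt k W' w) → ∀ z, HInt k W z → HInt k W' z

/-- **A4. Noether normalization** relative to `x₀`. (May use `StRed`, `StTrans`.)

PROOF. Among the `W ≤ E` with `x₀ ∈ W` and `HInt k W z` for all `z ∈ E` (`E` is one of them) choose
one with minimal `finrank`. Let `y` be a basis of `W` with `y 0 = x₀`; `finrank W = r + 1`. If `HInd`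
fails, `StRed` gives `W' ≤ W` with `finrank W' < r + 1`, `x₀ ∈ W'`, and `HInt k W' (y i)` for all `i`,
so `HInt k W' w` for all `w ∈ W` (linear combinations: `IsIntegral.add`, `IsIntegral.smul`), so
`HInt k W' z` for all `z ∈ E` by `StTrans`, contradicting minimality. -/
def StNoeth : Prop := ∀ (k K : Type) [Field k] [Infinite k] [Field K] [Algebra k K]
  (E : Submodule k K), Module.Finite k E → ∀ x₀ ∈ E, x₀ ≠ 0 →
  ∃ W : Submodule k K, W ≤ E ∧ x₀ ∈ W ∧ (∀ z ∈ E, HInt k W z) ∧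
    ∀ (r : ℕ) (y : Fin (r + 1) → K), LinearIndependent k y →
      Submodule.span k (Set.range y) = W → y 0 = x₀ → HInd k y

/-- **A5.** PROOF. `IsIntegral (chart W l) (z / l)`: the evaluation `K[X] → K`, `X ↦ 1 / l`, maps
`cone W` to `chart W l` and `C z * X` to `z / l` (`IsIntegral.map_of_comp_eq`). The `z / l`,
`z` in a basis of `E`, generate `chart E l` as a `k`-algebra, and `chart W l ≤ chart E l`; so
`chart E l` is generated by finitely many integral elements as an algebra over `chart W l`: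
a finite module (`fg_adjoin_of_finite`, for `Algebra.adjoin (chart k W l)`). -/
def StFinGen : Prop := ∀ (k K : Type) [Field k] [Field K] [Algebra k K]
  (W E : Submodule k K), Module.Finite k E → W ≤ E → (∀ z ∈ E, HInt k W z) → ∀ l : K, l ≠ 0 →
  ∃ G : Finset K, (∀ g ∈ G, g ∈ chart k E l) ∧ ∀ b ∈ chart k E l, ∃ t : K → K,
    (∀ g ∈ G, t g ∈ chart k W l) ∧ b = ∑ g ∈ G, t g * g

/-- **A6. `W` has no common zeros.**

PROOF. Suppose that no `w / c`, `w ∈ W`, comes from a unit of `O`; so for every `w ∈ W` we have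
`w / c = φ t` with `t` in the maximal ideal `M`. Claim: for `a ∈ cone k W` the element
`(a.coeff n) / c ^ n` lies in `φ(O)` for all `n`, and in `φ(M)` for `n ≥ 1`
(`Algebra.adjoin_induction`; for a product, `coeff_mul`: if `i + j = n ≥ 1` then `i ≥ 1` or
`j ≥ 1`). `C c * X` is a zero of a monic polynomial `T^d + a_1 T^(d-1) + … + a_d`, `a_i ∈ cone k W`.
Compare the coefficients of `X^d` and divide by `c^d`: `1 + ∑_(i ≥ 1) (a_i).coeff i / c^i = 0`, so
`1 ∈ φ(M)`, `1 ∈ M` (`φ` is injective), a contradiction. (`d ≥ 1`, or `1 = 0` for `d = 0`.) -/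
def StUnit : Prop := ∀ (k K : Type) [Field k] [Field K] [Algebra k K] (W : Submodule k K)
  (O : Type) [CommRing O] [IsLocalRing O] [Algebra k O] (φ : O →ₐ[k] K), Function.Injective φ →
  ∀ c : K, c ≠ 0 → HInt k W c → (∀ w ∈ W, ∃ t, φ t = w / c) →
  ∃ w ∈ W, ∃ t, IsUnit t ∧ φ t = w / c

/-- **A7. Dehomogenization.**

PROOF. `y s ≠ 0` (use `HInd` for `X s`). Let `G ≠ 0` be a polynomial in the variables `i ≠ s` with
`G(y i / y s) = 0` and let `d` be its total degree. Its homogenization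
`H = ∑_m (coeff m G) • Y^m Y_s^(d - |m|)` is homogeneous of degree `d`, and
`H(y) = (y s)^d G(y i / y s) = 0`, so `H = 0` by `HInd`; but the coefficient of `H` at
`Y^m Y_s^(d - |m|)` is `coeff m G`, so `G = 0`. (Equivalently: setting `Y_s = 1` in `H` gives `G`.) -/
def StDehom : Prop := ∀ (k K : Type) [Field k] [Field K] [Algebra k K] (σ : Type) [Finite σ]
  (y : σ → K), HInd k y → ∀ s : σ, y s ≠ 0 ∧
    AlgebraicIndependent k (fun i : {i // i ≠ s} => y i.1 / y s)

/-! ## Idempotents -/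

/-- **A8. Lifting idempotents.**

PROOF. Let `t = e`. `t^N ∣ lift t N = 1 - (1 - t^N)^N` (`sub_dvd_pow_sub_pow`: `1 - (1 - s)^N` is
divisible by `s`) and `(1 - t)^N ∣ 1 - lift t N = (1 - t^N)^N` since `1 - t ∣ 1 - t^N`. So
`(t (1 - t))^N ∣ lift t N * (1 - lift t N)`, and `u ∣ t (1 - t)`. In `R / (u)`: `t^2 = t`, so
`t^N = t` and `(1 - t)^N = 1 - t` for `N ≥ 1`, so `lift t N = 1 - (1 - t) = t`. Second part: let
`x = a - b`; `x^3 - x` is a combination of `a^2 - a` and `b^2 - b`, so divisible by `u^N`; so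
`x = x^3 = x^9 = …` modulo `u^N`, and `u^(3^j) ∣ x^(3^j)`, `3^j ≥ N` for `j = N`. -/
def StIdm : Prop := ∀ (R : Type) [CommRing R] (u : R),
  (∀ e : R, u ∣ e ^ 2 - e → ∀ N : ℕ, 1 ≤ N →
    u ^ N ∣ lift e N ^ 2 - lift e N ∧ u ∣ lift e N - e) ∧
  ∀ (a b : R) (N : ℕ), u ^ N ∣ a ^ 2 - a → u ^ N ∣ b ^ 2 - b → u ∣ a - b → u ^ N ∣ a - b

/-! ## Finite modules over polynomial rings -/

/-- **A9. A finite torsion-free module over a domain is almost free.**

PROOF. Let `f` be a maximal `P`-linearly independent subfamily of `G`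
(`exists_linearIndepOn_extension`, `exists_linearIndependent`, or induction). For every `g ∈ G` the
family `f, g` is dependent, so there is `δ_g ≠ 0` in `P` with `δ_g g ∈ ∑ P f_j`. Let `δ` be the
product of the `δ_g`. -/
def StFree : Prop := ∀ (P K : Type) [CommRing P] [IsDomain P] [Field K] [Algebra P K],
  Function.Injective (algebraMap P K) → ∀ (B : Subring K), (∀ p, algebraMap P K p ∈ B) →
  ∀ G : Finset K, (∀ g ∈ G, g ∈ B) →
  (∀ b ∈ B, ∃ t : K → P, b = ∑ g ∈ G, algebraMap P K (t g) * g) →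
  ∃ (ι : Type) (_ : Fintype ι) (f : ι → K) (δ : P), δ ≠ 0 ∧ (∀ j, f j ∈ B) ∧
    LinearIndependent P f ∧ ∀ b ∈ B, ∃ c : ι → P,
      algebraMap P K δ * b = ∑ j, algebraMap P K (c j) * f j

/-- **A10. Power series of bounded degree are polynomials.**

PROOF. Claim: for `t ∈ (c N).support` with `t u < N` we have `t.degree ≤ D`: let
`X_v^m (c N) - g = X_u^N q`, `totalDegree g ≤ D + m`. The monomial `t + m v` (`single v m`) has
coefficient `coeff t (c N) ≠ 0` in `X_v^m (c N)`, and `0` in `X_u^N q`, because its exponent at `u`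
is `t u < N` (`u ≠ v`); so it occurs in `g`, and `t.degree + m ≤ totalDegree g ≤ D + m`. Let
`β = ∑ coeff t (c (D+1)) X^t`, the sum over the `t` of degree `≤ D` (as a finite sum over
`(c (D+1)).support.filter`). For `N > D` the coefficients of `c N` and of `c (D+1)` agree at the
monomials `t` with `t u ≤ D` (induction: `X_u^N ∣ c (N+1) - c N`), in particular at all monomials of
degree `≤ D`. So for `N > D` the coefficients of `c N` and of `β` agree at all monomials `t` with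
`t u < N`: if `t.degree ≤ D` clear, and if `t.degree > D` both are `0`. So `X_u^N ∣ c N - β`
(`MvPolynomial.X_pow_dvd_iff` or `monomial_dvd`, or divide by hand). -/
def StDeg : Prop := ∀ (k σ : Type) [Field k] (u v : σ), u ≠ v → ∀ (c : ℕ → MvPolynomial σ k)
  (D : ℕ), (∀ N, (MvPolynomial.X u : MvPolynomial σ k) ^ N ∣ c (N + 1) - c N) →
  (∀ N, ∃ (m : ℕ) (g : MvPolynomial σ k), g.totalDegree ≤ D + m ∧
    (MvPolynomial.X u : MvPolynomial σ k) ^ N ∣ MvPolynomial.X v ^ m * c N - g) →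
  ∃ β : MvPolynomial σ k, ∀ N, D < N → (MvPolynomial.X u : MvPolynomial σ k) ^ N ∣ c N - β

/-- **A11. The bound for the degrees.**

PROOF. `G' ⊆ B'`, so for `g ∈ G'` there is `n_g` with `v^(n_g) g ∈ B`, and
`δ v^(n_g) g = ∑_j q_(g,j) f_j`. Let `D` be at least all `totalDegree q_(g,j)`. Let
`b' = ∑ t_g g`, `t_g ∈ T`, `v^(m_g) t_g = p_g`, `totalDegree p_g ≤ m_g`. For `m = M + N'`, `M` at
least all `m_g` and `N'` at least all `n_g`:
`δ v^m b' = ∑_j (∑_g X_v^(M - m_g) p_g X_v^(N' - n_g) q_(g,j)) f_j`, and the total degree of the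
coefficient is `≤ (M - m_g) + m_g + (N' - n_g) + D ≤ D + m`. The same for all larger `m`: multiply
by powers of `X_v`. -/
def StBd : Prop := ∀ (k σ K : Type) [Field k] [Field K] [Algebra (MvPolynomial σ k) K] (v : σ)
  (B B' : Subring K) (T : Set K) (G' : Finset K) (ι : Type) [Fintype ι] (f : ι → K)
  (δ : MvPolynomial σ k),
  (∀ b ∈ B, ∃ c : ι → MvPolynomial σ k, algebraMap _ K δ * b = ∑ j, algebraMap _ K (c j) * f j) →
  (∀ b ∈ B', ∃ n : ℕ, algebraMap (MvPolynomial σ k) K (MvPolynomial.X v) ^ n * b ∈ B) →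
  (∀ g ∈ G', g ∈ B') →
  (∀ t ∈ T, ∃ (m : ℕ) (p : MvPolynomial σ k), p.totalDegree ≤ m ∧
    algebraMap (MvPolynomial σ k) K (MvPolynomial.X v) ^ m * t = algebraMap _ K p) →
  (∀ b ∈ B', ∃ t : K → K, (∀ g ∈ G', t g ∈ T) ∧ b = ∑ g ∈ G', t g * g) →
  ∃ D : ℕ, ∀ b ∈ B', ∃ m₀ : ℕ, ∀ m, m₀ ≤ m → ∃ c : ι → MvPolynomial σ k,
    (∀ j, (c j).totalDegree ≤ D + m) ∧
    algebraMap _ K δ * (algebraMap (MvPolynomial σ k) K (MvPolynomial.X v) ^ m * b) =
      ∑ j, algebraMap _ K (c j) * f j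

/-- **A12. The core.** (May use `StIdm`, `StFree`, `StDeg`, `StBd`.) Here `x i` is the image of the
variable `X i` in `K`, `B` is finite over `P = k[x]`, and `B'` is finite over the algebra of
the `p(x) / v^m`, `deg p ≤ m`.

PROOF. Write `u`, `v` for `x u`, `x v`. Let `C = {x ∈ K | ∃ n, v^n x ∈ B}`, a subring of `K` which
contains `B`, `B'` and `1 / v`. Let `a N = lift e N ∈ B`, `b N = lift e' N ∈ B'`, `N ≥ 1`. By
`StIdm` in `B` and in `B'`: `u^N ∣ a^2 - a` and `u ∣ a - e` in `B`; `(u / v)^N ∣ b^2 - b` and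
`(u / v) ∣ b - e'` in `B'`, so `u^N ∣ b^2 - b`, `u ∣ b - e'` in `C`; and `u ∣ e - e'` in `C`. So
`u^N ∣ a N - b N` in `C` by `StIdm`: for all large `m` we have `v^m (a N - b N) ∈ u^N B` (**).
Also `u^N ∣ a (N+1) - a N` in `B` (`StIdm`: both are idempotent modulo `u^N` and congruent to `e`
modulo `u`). Let `f`, `δ` be as in `StFree`, and `D` as in `StBd`. Let `δ (a N) = ∑ c_j(N) f_j`.
`δ (a (N+1) - a N) = u^N δ b₁ = ∑ u^N d_j f_j`, so `X_u^N ∣ c_j(N+1) - c_j(N)` (linear independence).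
By (**) and `StBd`, for a large `m`: `X_v^m c_j(N) - g_j` is divisible by `X_u^N` with
`totalDegree g_j ≤ D + m`. (For `N = 0` both conditions are trivial, `X_u^0 = 1`.) By `StDeg` there are `β_j` with `X_u^N ∣ c_j(N) - β_j` for `N > D`. Let
`β = ∑ β_j f_j ∈ B`. So `δ (a N) - β ∈ u^N B` for `N > D`. Then `β^2 - δ β ∈ u^N B` for all `N > D`,
because `δ^2 ((a N)^2 - a N) ∈ u^N B`. If `x ∈ u^N B` for all large `N`, then
`δ x = ∑ q_j f_j` with all `q_j` divisible by all large powers of `X_u`, so `q_j = 0`, and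
`x = 0`. So `β^2 = δ β`, and `ε = β / δ` is `0` or `1`. -/
def StCore : Prop := ∀ (k σ K : Type) [Field k] [Field K] [Algebra (MvPolynomial σ k) K],
  Function.Injective (algebraMap (MvPolynomial σ k) K) → ∀ (u v : σ), u ≠ v →
  ∀ (B B' : Subring K) (T : Set K) (G G' : Finset K) (e e' : K),
  (∀ p, algebraMap (MvPolynomial σ k) K p ∈ B) → (∀ g ∈ G, g ∈ B) →
  (∀ b ∈ B, ∃ t : K → MvPolynomial σ k, b = ∑ g ∈ G, algebraMap _ K (t g) * g) →
  (∀ b ∈ B', ∃ n : ℕ, algebraMap (MvPolynomial σ k) K (MvPolynomial.X v) ^ n * b ∈ B) →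
  (∀ g ∈ G', g ∈ B') →
  (∀ t ∈ T, ∃ (m : ℕ) (p : MvPolynomial σ k), p.totalDegree ≤ m ∧
    algebraMap (MvPolynomial σ k) K (MvPolynomial.X v) ^ m * t = algebraMap _ K p) →
  (∀ b ∈ B', ∃ t : K → K, (∀ g ∈ G', t g ∈ T) ∧ b = ∑ g ∈ G', t g * g) →
  algebraMap (MvPolynomial σ k) K (MvPolynomial.X u) /
    algebraMap (MvPolynomial σ k) K (MvPolynomial.X v) ∈ B' →
  e ∈ B → (∃ b ∈ B, e ^ 2 - e = algebraMap (MvPolynomial σ k) K (MvPolynomial.X u) * b) →
  e' ∈ B' → (∃ b ∈ B', e' ^ 2 - e' = algebraMap (MvPolynomial σ k) K (MvPolynomial.X u) /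
    algebraMap (MvPolynomial σ k) K (MvPolynomial.X v) * b) →
  (∃ s : ℕ, ∃ b ∈ B, algebraMap (MvPolynomial σ k) K (MvPolynomial.X v) ^ s * (e - e') =
    algebraMap (MvPolynomial σ k) K (MvPolynomial.X u) * b) →
  ∃ δ ∈ B, δ ≠ 0 ∧ ∃ ε : K, (ε = 0 ∨ ε = 1) ∧ ∃ N₀ : ℕ, ∀ N, N₀ ≤ N → ∃ b ∈ B,
    δ * (lift e N - ε) = algebraMap (MvPolynomial σ k) K (MvPolynomial.X u) ^ N * b

/-! ## The conclusion -/

/-- The data given by a disconnected hyperplane section. `O₁`, `O₂` are the local rings of `X` at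
points of `Y`, `c₁` and `c₂` linear forms which do not vanish there. -/
structure Data (k K : Type) [Field k] [Field K] [Algebra k K] (E : Submodule k K) (x₀ : K)
    (O₁ O₂ : Type) [CommRing O₁] [CommRing O₂] [Algebra k O₁] [Algebra k O₂]
    (φ₁ : O₁ →ₐ[k] K) (φ₂ : O₂ →ₐ[k] K) (c₁ c₂ : K) (e : K → K) : Prop where
  fin : Module.Finite k E
  x_mem : x₀ ∈ E
  x_ne : x₀ ≠ 0
  inj₁ : Function.Injective φ₁
  inj₂ : Function.Injective φ₂
  c₁_mem : c₁ ∈ E
  c₂_mem : c₂ ∈ E
  c₁_ne : c₁ ≠ 0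
  c₂_ne : c₂ ≠ 0
  mem₁ : ∀ z ∈ E, ∃ t, φ₁ t = z / c₁
  mem₂ : ∀ z ∈ E, ∃ t, φ₂ t = z / c₂
  x₁ : ∀ t, φ₁ t = x₀ / c₁ → ¬ IsUnit t
  x₂ : ∀ t, φ₂ t = x₀ / c₂ → ¬ IsUnit t
  e_mem : ∀ z ∈ E, z ≠ 0 → e z ∈ chart k E z
  e_idem : ∀ z ∈ E, z ≠ 0 → ∃ b ∈ chart k E z, e z ^ 2 - e z = x₀ / z * b
  e_comp : ∀ z ∈ E, z ≠ 0 → ∀ w ∈ E, w ≠ 0 → ∃ s : ℕ, ∃ b ∈ chart k E z,
    (w / z) ^ s * (e z - e w) = x₀ / z * b
  e₁ : ∀ z ∈ E, z ≠ 0 → ∀ t, IsUnit t → φ₁ t = z / c₁ → ∃ t', IsUnit t' ∧ φ₁ t' = e z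
  e₂ : ∀ z ∈ E, z ≠ 0 → ∀ t, IsUnit t → φ₂ t = z / c₂ → ∃ t', IsUnit t' ∧ φ₂ t' = 1 - e z
  inf : ∀ z ∈ E, z ≠ 0 → ∀ t, IsUnit t → φ₁ t = z / c₁ → ¬ ∃ G : Finset K,
    (∀ g ∈ G, g ∈ chart k E z) ∧ ∀ b ∈ chart k E z, ∃ (c : K → k), ∃ b' ∈ chart k E z,
      b = (∑ g ∈ G, c g • g) + x₀ / z * b'

/-- **A13. The coordinates.** (May use `StNoeth`, `StFinGen`, `StUnit`.)

PROOF. Let `W` be from `StNoeth`. By `StUnit` there are `w₁, w₂ ∈ W` such that `w_i / c_i` is (the
image of) a unit of `O_i`; one of `w₁`, `w₂`, `w₁ + w₂` is a `λ ∈ W` such that `λ / c_i` is a unit of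
`O_i` for `i = 1` and `i = 2` (in a local ring a sum of a unit and a nonunit is a unit). `x₀` and
`λ` are linearly independent over `k`, as `x₀ / c₁` is not a unit. Let `y : Fin (r + 1) → K` be a
basis of `W` with `y 0 = x₀`, `y 1 = λ`, `r ≥ 1`. `r ≥ 2`: otherwise `chart W λ` is the algebra
generated by `x₀ / λ` (and `1`), each of its elements is in `k + (x₀ / λ) chart W λ`, and by
`StFinGen` every `b ∈ chart E λ` is in `∑ k g + (x₀ / λ) chart E λ`: a contradiction to `inf`. -/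
def StBasis : Prop := ∀ (k K : Type) [Field k] [Infinite k] [Field K] [Algebra k K]
  (E : Submodule k K) (x₀ : K) (O₁ O₂ : Type) [CommRing O₁] [CommRing O₂] [Algebra k O₁]
  [Algebra k O₂] [IsLocalRing O₁] [IsLocalRing O₂]
  (φ₁ : O₁ →ₐ[k] K) (φ₂ : O₂ →ₐ[k] K) (c₁ c₂ : K) (e : K → K),
  Data k K E x₀ O₁ O₂ φ₁ φ₂ c₁ c₂ e → ∃ (r : ℕ) (y : Fin (r + 3) → K), HInd k y ∧
    (∀ i, y i ∈ E) ∧ (∀ z ∈ E, HInt k (Submodule.span k (Set.range y)) z) ∧ y 0 = x₀ ∧
    (∃ t, IsUnit t ∧ φ₁ t = y 1 / c₁) ∧ ∃ t, IsUnit t ∧ φ₂ t = y 1 / c₂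

/-- **A14. A hyperplane section is connected.** (May use `StBasis`, `StFinGen`, `StDehom`,
`StIdm`, `StCore`.)

PROOF. Let `y` be from `StBasis`, `W` its span, `λ = y 1`, `z = y 2`, both nonzero (`StDehom`).
Let `P = MvPolynomial {i // i ≠ 1} k`, which maps to `K` by `X i ↦ y i / λ` (`aeval`, as a local
instance `Algebra P K`), injective by `StDehom` (`s = 1`). Let `u = 0`, `v = 2` (indices), so
`x u = x₀ / λ`, `x v = z / λ`, `x u / x v = x₀ / z`. Let `B = chart E λ`, `B' = chart E z`,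
`T = chart W z`, `e = e λ`, `e' = e z`. The image of `P` is `chart W λ` (`λ / λ = 1`), `G`, `G'` are
from `StFinGen`. For a generator `w / z` of `B'` `(x v) (w / z) = w / λ ∈ B`; so `v^n b ∈ B` for
every `b ∈ B'` and some `n` (`Algebra.adjoin_induction`). For a generator `w / z` of `T`,
`w = ∑ α_i y_i`: `(x v) (w / z) = ∑_(i ≠ 1) α_i X_i + α_1`, of total degree `≤ 1`; so the condition
on `T` holds (`adjoin_induction`; for sums multiply by powers of `X_v`). Apply `StCore`: there are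
`δ ∈ B`, `δ ≠ 0`, and `ε ∈ {0, 1}` with `δ (lift e N - ε) ∈ u^N B` for large `N`.
`B ⊆ φ₁(O₁)`: `w / λ = (w / c₁) / (λ / c₁)`; the same for `O₂`. `u = x₀ / λ` is in the image of the
maximal ideal of `O_i`. If `ε = 0`: `lift e N` is a unit of `O₁` (it is congruent to `e` modulo `u`,
`StIdm` in `B`, and `Data.e₁`), so `δ ∈ u^N O₁` for all large `N`, and `δ = 0` by Krull's
intersection theorem (`Ideal.iInf_pow_eq_bot_of_isLocalRing`, `O₁` is Noetherian), a
contradiction. If `ε = 1`: `1 - lift e N` is a unit of `O₂`, the same contradiction. -/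
def StAlg : Prop := ∀ (k K : Type) [Field k] [Infinite k] [Field K] [Algebra k K]
  (E : Submodule k K) (x₀ : K) (O₁ O₂ : Type) [CommRing O₁] [CommRing O₂] [Algebra k O₁]
  [Algebra k O₂] [IsLocalRing O₁] [IsLocalRing O₂] [IsNoetherianRing O₁] [IsNoetherianRing O₂]
  (φ₁ : O₁ →ₐ[k] K) (φ₂ : O₂ →ₐ[k] K) (c₁ c₂ : K) (e : K → K),
  ¬ Data k K E x₀ O₁ O₂ φ₁ φ₂ c₁ c₂ e

end Statements

end Pool.Agent.Lib.MP_4ca46c_ag.Cn
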