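import Mathlib
import Pool.Agent.Lib.MP_4ca46c_ag.Cn.SpecA

/-!
# A hyperplane section is connected: the algebra
-/

namespace Pool.Agent.Lib.MP_4ca46c_ag.Cn

open MvPolynomial

namespace AlgAux

theorem unit_add {O : Type} [CommRing O] [IsLocalRing O] {a b : O} (ha : IsUnit a)
    (hb : ¬ IsUnit b) : IsUnit (a + b) := by
  by_contra h
  have h1 : a + b ∈ nonunits O := h
  have h2 : -b ∈ nonunits O := fun h3 => hb (by simpa using h3.neg)
  have h3 := IsLocalRing.nonunits_add h1 h2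
  rw [add_neg_cancel_right] at h3
  exact h3 ha

theorem krull {O : Type} [CommRing O] [IsLocalRing O] [IsNoetherianRing O] {m d : O}
    (hm : ¬ IsUnit m) (N₀ : ℕ) (h : ∀ N, N₀ ≤ N → ∃ w s : O, IsUnit w ∧ d * w = m ^ N * s) :
    d = 0 := by
  have hI : Ideal.span {m} ≠ ⊤ := fun h1 => hm (Ideal.span_singleton_eq_top.1 h1)
  have h1 := Ideal.iInf_pow_eq_bot_of_isLocalRing (Ideal.span {m}) hI
  have h2 : d ∈ (⨅ i : ℕ, Ideal.span {m} ^ i : Ideal O) := by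
    rw [Ideal.mem_iInf]
    intro i
    obtain ⟨w, s, hw, hs⟩ := h (max i N₀) (le_max_right _ _)
    obtain ⟨w', rfl⟩ := hw
    have h3 : d = m ^ (max i N₀) * (s * (w'⁻¹ : Oˣ)) := by
      rw [← mul_assoc, ← hs, mul_assoc, Units.mul_inv, mul_one]
    have h4 : d ∈ Ideal.span {m} ^ (max i N₀) := by
      rw [Ideal.span_singleton_pow, Ideal.mem_span_singleton]
      exact ⟨_, h3⟩
    exact Ideal.pow_le_pow_right (le_max_left _ _) h4
  rw [h1] at h2
  exact h2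

section Field

variable {k K : Type} [Field k] [Field K] [Algebra k K]

theorem mem_chart {E : Submodule k K} {w : K} (hw : w ∈ E) (z : K) : w / z ∈ chart k E z :=
  Algebra.subset_adjoin ⟨w, hw, rfl⟩

theorem map_lift {O : Type} [CommRing O] [Algebra k O] (φ : O →ₐ[k] K) (t : O) (N : ℕ) :
    φ (lift t N) = lift (φ t) N := by
  simp only [lift, map_sub, map_pow, map_one]

/-- The chart is contained in the local ring. -/
theorem chart_local {O : Type} [CommRing O] [Algebra k O] (φ : O →ₐ[k] K) {E : Submodule k K}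
    {c l : K} (hc : c ≠ 0) (hE : ∀ z ∈ E, ∃ t, φ t = z / c) {t : O} (ht : IsUnit t)
    (h : φ t = l / c) {b : K} (hb : b ∈ chart k E l) : ∃ s, φ s = b := by
  obtain ⟨t', rfl⟩ := ht
  have hl : l / c ≠ 0 := by
    rw [← h]
    exact ((Units.isUnit t').map φ).ne_zero
  refine Algebra.adjoin_induction (p := fun b _ => ∃ s, φ s = b) ?_ ?_ ?_ ?_ hb
  · rintro _ ⟨w, hw, rfl⟩
    obtain ⟨s, hs⟩ := hE w hw
    refine ⟨s * (t'⁻¹ : Oˣ), ?_⟩
    have h1 : φ (t'⁻¹ : Oˣ) * φ (t' : O) = 1 := by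
      rw [← map_mul, Units.inv_mul, map_one]
    have h2 : φ (t'⁻¹ : Oˣ) = (l / c)⁻¹ := by
      rw [h] at h1
      exact eq_inv_of_mul_eq_one_left h1
    rw [map_mul, hs, h2]
    have hl' : l ≠ 0 := fun h3 => hl (by rw [h3, zero_div])
    field_simp
  · intro r
    exact ⟨algebraMap k O r, φ.commutes r⟩
  · rintro _ _ _ _ ⟨s, rfl⟩ ⟨s', rfl⟩
    exact ⟨s + s', map_add _ _ _⟩
  · rintro _ _ _ _ ⟨s, rfl⟩ ⟨s', rfl⟩
    exact ⟨s * s', map_mul _ _ _⟩

theorem nonunit {O : Type} [CommRing O] [Algebra k O] {φ : O →ₐ[k] K} {x l c : K} (hc : c ≠ 0) {t : O} (ht : IsUnit t)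
    (h : φ t = l / c) (hl : l ≠ 0) (hx : ∀ t, φ t = x / c → ¬ IsUnit t) {m : O}
    (hm : φ m = x / l) : ¬ IsUnit m := by
  intro hu
  refine hx (m * t) ?_ (hu.mul ht)
  rw [map_mul, hm, h]
  field_simp

/-- The argument at one of the two points. -/
theorem point {O : Type} [CommRing O] [Algebra k O] [IsLocalRing O] [IsNoetherianRing O]
    {φ : O →ₐ[k] K} (hi : Function.Injective φ) {B : Set K} (hB : ∀ b ∈ B, ∃ s, φ s = b)
    (hIdm : StIdm) {x e δ : K} {m f : O} (hm : ¬ IsUnit m) (hmx : φ m = x) (hf : φ f = e)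
    (hidem : ∃ b ∈ B, e ^ 2 - e = x * b) (hδ : δ ∈ B) (ε : O) (hε : IsUnit (f - ε)) (N₀ : ℕ)
    (H : ∀ N, N₀ ≤ N → ∃ b ∈ B, δ * (lift e N - φ ε) = x ^ N * b) : δ = 0 := by
  obtain ⟨d, hd⟩ := hB δ hδ
  have h1 : m ∣ f ^ 2 - f := by
    obtain ⟨b, hb, hb'⟩ := hidem
    obtain ⟨s, hs⟩ := hB b hb
    refine ⟨s, hi ?_⟩
    rw [map_sub, map_pow, map_mul, hf, hmx, hs, hb']
  have h2 : d = 0 := by
    refine krull hm (max N₀ 1) fun N hN => ?_
    obtain ⟨b, hb, hb'⟩ := H N ((le_max_left _ _).trans hN)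
    obtain ⟨s, hs⟩ := hB b hb
    refine ⟨lift f N - ε, s, ?_, hi ?_⟩
    · obtain ⟨q, hq⟩ := ((hIdm O m).1 f h1 N ((le_max_right _ _).trans hN)).2
      have h3 : lift f N - ε = (f - ε) + m * q := by
        rw [← hq]
        ring
      rw [h3]
      exact unit_add hε fun h4 => hm (isUnit_of_mul_isUnit_left h4)
    · rw [map_mul, map_mul, map_pow, map_sub, map_lift, hd, hf, hmx, hs, hb']
  rw [← hd, h2, map_zero]

/-- From the chart of `z` to the chart of `l`. -/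
theorem chart_down {E : Submodule k K} {z l : K} (hz : z ∈ E) (hz0 : z ≠ 0)
    {b : K} (hb : b ∈ chart k E z) : ∃ n : ℕ, (z / l) ^ n * b ∈ chart k E l := by
  have hm : z / l ∈ chart k E l := mem_chart hz l
  refine Algebra.adjoin_induction (p := fun b _ => ∃ n : ℕ, (z / l) ^ n * b ∈ chart k E l)
    ?_ ?_ ?_ ?_ hb
  · rintro _ ⟨w, hw, rfl⟩
    refine ⟨1, ?_⟩
    have h1 : (z / l) ^ 1 * (w / z) = w / l := by
      rw [pow_one]
      field_simp
    rw [h1]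
    exact mem_chart hw l
  · intro r
    exact ⟨0, by rw [pow_zero, one_mul]; exact Subalgebra.algebraMap_mem _ r⟩
  · rintro x y _ _ ⟨n, hn⟩ ⟨m, hm'⟩
    refine ⟨n + m, ?_⟩
    have h1 : (z / l) ^ (n + m) * (x + y) =
        (z / l) ^ m * ((z / l) ^ n * x) + (z / l) ^ n * ((z / l) ^ m * y) := by ring
    rw [h1]
    exact Subalgebra.add_mem _ (Subalgebra.mul_mem _ (Subalgebra.pow_mem _ hm _) hn)
      (Subalgebra.mul_mem _ (Subalgebra.pow_mem _ hm _) hm')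
  · rintro x y _ _ ⟨n, hn⟩ ⟨m, hm'⟩
    refine ⟨n + m, ?_⟩
    have h1 : (z / l) ^ (n + m) * (x * y) = ((z / l) ^ n * x) * ((z / l) ^ m * y) := by ring
    rw [h1]
    exact Subalgebra.mul_mem _ hn hm'

section Poly

variable {r : ℕ} (y : Fin (r + 3) → K)

/-- The polynomial functions on the chart. -/
noncomputable def ev : MvPolynomial {i : Fin (r + 3) // i ≠ 1} k →ₐ[k] K :=
  aeval (fun i => y i.1 / y 1)

theorem ev_X (i : {i : Fin (r + 3) // i ≠ 1}) : ev (k := k) y (X i) = y i.1 / y 1 :=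
  aeval_X _ _

theorem linform (h1 : y 1 ≠ 0) {w : K} (hw : w ∈ Submodule.span k (Set.range y)) :
    ∃ p, ev (k := k) y p = w / y 1 ∧ p.totalDegree ≤ 1 := by
  refine Submodule.span_induction (p := fun w _ => ∃ p, ev (k := k) y p = w / y 1 ∧
    p.totalDegree ≤ 1) ?_ ?_ ?_ ?_ hw
  · rintro _ ⟨i, rfl⟩
    by_cases hi : i = 1
    · subst hi
      refine ⟨1, ?_, ?_⟩
      · rw [map_one, div_self h1]
      · rw [totalDegree_one]
        exact Nat.zero_le _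
    · exact ⟨X ⟨i, hi⟩, ev_X y ⟨i, hi⟩, le_of_eq (totalDegree_X _)⟩
  · exact ⟨0, by rw [map_zero, zero_div], by rw [totalDegree_zero]; exact Nat.zero_le _⟩
  · rintro a b _ _ ⟨p, hp, hp'⟩ ⟨q, hq, hq'⟩
    exact ⟨p + q, by rw [map_add, hp, hq, add_div],
      (totalDegree_add _ _).trans (max_le hp' hq')⟩
  · rintro c a _ ⟨p, hp, hp'⟩
    exact ⟨c • p, by rw [map_smul, hp, smul_div_assoc], (totalDegree_smul_le _ _).trans hp'⟩

theorem ev_surj (h1 : y 1 ≠ 0) {a : K} (ha : a ∈ chart k (Submodule.span k (Set.range y)) (y 1)) :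
    ∃ p, ev (k := k) y p = a := by
  refine Algebra.adjoin_induction (p := fun a _ => ∃ p, ev (k := k) y p = a) ?_ ?_ ?_ ?_ ha
  · rintro _ ⟨w, hw, rfl⟩
    obtain ⟨p, hp, -⟩ := linform y h1 hw
    exact ⟨p, hp⟩
  · intro c
    exact ⟨algebraMap k _ c, (ev (k := k) y).commutes c⟩
  · rintro _ _ _ _ ⟨p, rfl⟩ ⟨q, rfl⟩
    exact ⟨p + q, map_add _ _ _⟩
  · rintro _ _ _ _ ⟨p, rfl⟩ ⟨q, rfl⟩
    exact ⟨p * q, map_mul _ _ _⟩

theorem ev_mem {E : Submodule k K} (hy : ∀ i, y i ∈ E)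
    (p : MvPolynomial {i : Fin (r + 3) // i ≠ 1} k) : ev y p ∈ chart k E (y 1) := by
  induction p using MvPolynomial.induction_on with
  | C c => exact (ev (k := k) y).commutes c ▸ Subalgebra.algebraMap_mem _ c
  | add p q hp hq =>
    rw [map_add]
    exact Subalgebra.add_mem _ hp hq
  | mul_X p i hp =>
    rw [map_mul, ev_X]
    exact Subalgebra.mul_mem _ hp (mem_chart (hy _) _)

theorem ev_T (h1 : y 1 ≠ 0) (v : {i : Fin (r + 3) // i ≠ 1}) (hv : y v.1 ≠ 0) {t : K}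
    (ht : t ∈ chart k (Submodule.span k (Set.range y)) (y v.1)) :
    ∃ (m : ℕ) (p : MvPolynomial {i : Fin (r + 3) // i ≠ 1} k), p.totalDegree ≤ m ∧
      ev (k := k) y (X v) ^ m * t = ev y p := by
  refine Algebra.adjoin_induction (p := fun t _ => ∃ (m : ℕ)
    (p : MvPolynomial {i : Fin (r + 3) // i ≠ 1} k), p.totalDegree ≤ m ∧
      ev (k := k) y (X v) ^ m * t = ev y p) ?_ ?_ ?_ ?_ ht
  · rintro _ ⟨w, hw, rfl⟩
    obtain ⟨p, hp, hp'⟩ := linform y h1 hw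
    refine ⟨1, p, hp', ?_⟩
    rw [hp, ev_X, pow_one]
    field_simp
  · intro c
    refine ⟨0, C c, by rw [totalDegree_C], ?_⟩
    rw [pow_zero, one_mul]
    exact ((ev (k := k) y).commutes c).symm
  · rintro a b _ _ ⟨m, p, hp, hp'⟩ ⟨n, q, hq, hq'⟩
    refine ⟨m + n, X v ^ n * p + X v ^ m * q, ?_, ?_⟩
    · refine (totalDegree_add _ _).trans (max_le ?_ ?_)
      · refine (totalDegree_mul _ _).trans ?_
        have h2 := totalDegree_pow (X v : MvPolynomial {i : Fin (r + 3) // i ≠ 1} k) n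
        rw [totalDegree_X] at h2
        omega
      · refine (totalDegree_mul _ _).trans ?_
        have h2 := totalDegree_pow (X v : MvPolynomial {i : Fin (r + 3) // i ≠ 1} k) m
        rw [totalDegree_X] at h2
        omega
    · rw [map_add, map_mul, map_mul, map_pow, map_pow, ← hp', ← hq']
      ring
  · rintro a b _ _ ⟨m, p, hp, hp'⟩ ⟨n, q, hq, hq'⟩
    refine ⟨m + n, p * q, (totalDegree_mul _ _).trans (by omega), ?_⟩
    rw [map_mul, ← hp', ← hq']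
    ring

end Poly

end Field

end AlgAux

open AlgAux in
theorem tAlg (hBasis : StBasis) (hFinGen : StFinGen) (hDehom : StDehom) (hIdm : StIdm)
    (hCore : StCore) : StAlg := by
  intro k K _ _ _ _ E x₀ O₁ O₂ _ _ _ _ _ _ _ _ φ₁ φ₂ c₁ c₂ e D
  obtain ⟨r, y, hy, hyE, hint, hy0, ⟨t₁, u₁, e₁⟩, t₂, u₂, e₂⟩ :=
    hBasis k K E x₀ O₁ O₂ φ₁ φ₂ c₁ c₂ e D
  obtain ⟨hl0, hai⟩ := hDehom k K (Fin (r + 3)) y hy 1
  obtain ⟨hz0, -⟩ := hDehom k K (Fin (r + 3)) y hy 2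
  have h01 : (0 : Fin (r + 3)) ≠ 1 := by simp [Fin.ext_iff]
  have h21 : (2 : Fin (r + 3)) ≠ 1 := by
    simp [Fin.ext_iff, Nat.mod_eq_of_lt (show 2 < r + 3 by omega)]
  have h02 : (0 : Fin (r + 3)) ≠ 2 := by
    simp [Fin.ext_iff, Nat.mod_eq_of_lt (show 2 < r + 3 by omega)]
  let σ := {i : Fin (r + 3) // i ≠ 1}
  let u : σ := ⟨0, h01⟩
  let v : σ := ⟨2, h21⟩
  have huv : u ≠ v := fun h => h02 (congrArg Subtype.val h)
  let _ : Algebra (MvPolynomial σ k) K := (ev (k := k) y).toRingHom.toAlgebra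
  have hal : ∀ p : MvPolynomial σ k, algebraMap (MvPolynomial σ k) K p = ev y p := fun p => rfl
  have hinj : Function.Injective (algebraMap (MvPolynomial σ k) K) := hai
  have hXu : algebraMap (MvPolynomial σ k) K (X u) = x₀ / y 1 := by
    rw [hal, ev_X]
    exact congrArg (fun t => t / y 1) hy0
  have hXv : algebraMap (MvPolynomial σ k) K (X v) = y 2 / y 1 := ev_X y v
  have hWE : Submodule.span k (Set.range y) ≤ E := by
    rw [Submodule.span_le]
    rintro _ ⟨i, rfl⟩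
    exact hyE i
  obtain ⟨G, hG, hGb⟩ := hFinGen k K (Submodule.span k (Set.range y)) E D.fin hWE hint (y 1) hl0
  obtain ⟨G', hG', hGb'⟩ := hFinGen k K (Submodule.span k (Set.range y)) E D.fin hWE hint
    (y 2) hz0
  have hdiv : x₀ / y 1 / (y 2 / y 1) = x₀ / y 2 := by field_simp
  obtain ⟨δ, hδ, hδ0, ε, hε, N₀, H⟩ := hCore k σ K hinj u v huv
    (chart k E (y 1)).toSubring (chart k E (y 2)).toSubring
    (chart k (Submodule.span k (Set.range y)) (y 2) : Set K) G G' (e (y 1)) (e (y 2))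
    (fun p => ev_mem y hyE p) hG (fun b hb => by
      obtain ⟨t, ht, rfl⟩ := hGb b hb
      have key : ∀ g, ∃ p : MvPolynomial σ k, g ∈ G → ev y p = t g := fun g => by
        by_cases hg : g ∈ G
        · obtain ⟨p, hp⟩ := ev_surj y hl0 (ht g hg)
          exact ⟨p, fun _ => hp⟩
        · exact ⟨0, fun h => absurd h hg⟩
      choose p hp using key
      refine ⟨p, Finset.sum_congr rfl fun g hg => ?_⟩
      rw [hal, hp g hg])
    (fun b hb => by
      obtain ⟨n, hn⟩ := chart_down (l := y 1) (hyE 2) hz0 hb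
      refine ⟨n, ?_⟩
      rw [hXv]
      exact hn)
    hG' (fun t ht => ev_T y hl0 v hz0 ht) hGb'
    (by
      rw [hXu, hXv, hdiv]
      exact mem_chart D.x_mem _)
    (D.e_mem _ (hyE 1) hl0)
    (by
      obtain ⟨b, hb, h⟩ := D.e_idem _ (hyE 1) hl0
      refine ⟨b, hb, ?_⟩
      rw [hXu]
      exact h)
    (D.e_mem _ (hyE 2) hz0)
    (by
      obtain ⟨b, hb, h⟩ := D.e_idem _ (hyE 2) hz0
      refine ⟨b, hb, ?_⟩
      rw [hXu, hXv, hdiv]
      exact h)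
    (by
      obtain ⟨s, b, hb, h⟩ := D.e_comp _ (hyE 1) hl0 _ (hyE 2) hz0
      refine ⟨s, b, hb, ?_⟩
      rw [hXu, hXv]
      exact h)
  rw [hXu] at H
  have hidem : ∃ b ∈ (chart k E (y 1) : Set K), e (y 1) ^ 2 - e (y 1) = x₀ / y 1 * b :=
    D.e_idem _ (hyE 1) hl0
  have hx1 : x₀ / y 1 ∈ chart k E (y 1) := mem_chart D.x_mem _
  rcases hε with rfl | rfl
  · have hB : ∀ b ∈ (chart k E (y 1) : Set K), ∃ s, φ₁ s = b := fun b hb =>
      chart_local φ₁ D.c₁_ne D.mem₁ u₁ e₁ hb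
    obtain ⟨m, hm⟩ := hB _ hx1
    obtain ⟨f, hf1, hf2⟩ := D.e₁ _ (hyE 1) hl0 t₁ u₁ e₁
    refine hδ0 (point D.inj₁ hB hIdm (nonunit D.c₁_ne u₁ e₁ hl0 D.x₁ hm) hm hf2 hidem hδ 0
      (by rw [sub_zero]; exact hf1) N₀ fun N hN => ?_)
    rw [map_zero]
    exact H N hN
  · have hB : ∀ b ∈ (chart k E (y 1) : Set K), ∃ s, φ₂ s = b := fun b hb =>
      chart_local φ₂ D.c₂_ne D.mem₂ u₂ e₂ hb
    obtain ⟨m, hm⟩ := hB _ hx1
    obtain ⟨f, hf1, hf2⟩ := D.e₂ _ (hyE 1) hl0 t₂ u₂ e₂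
    refine hδ0 (point (f := 1 - f) D.inj₂ hB hIdm (nonunit D.c₂_ne u₂ e₂ hl0 D.x₂ hm) hm
      (by rw [map_sub, map_one, hf2, sub_sub_cancel]) hidem hδ 1
      (by
        have h1 : 1 - f - 1 = -f := by ring
        rw [h1]
        exact hf1.neg) N₀ fun N hN => ?_)
    rw [map_one]
    exact H N hN

end Pool.Agent.Lib.MP_4ca46c_ag.Cn
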