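import Mathlib
import Pool.Agent.Lib.MP_4ca46c_ag.Cn.SpecA

/-!
# The coordinates
-/

namespace Pool.Agent.Lib.MP_4ca46c_ag.Cn

open Polynomial (C X)

namespace BasisAux

theorem unit_add {O : Type} [CommRing O] [IsLocalRing O] {a b : O} (ha : IsUnit a)
    (hb : ¬ IsUnit b) : IsUnit (a + b) := by
  by_contra h
  have h1 : a + b ∈ nonunits O := h
  have h2 : -b ∈ nonunits O := fun h3 => hb (by simpa using h3.neg)
  have h3 := IsLocalRing.nonunits_add h1 h2
  rw [add_neg_cancel_right] at h3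
  exact h3 ha

variable {k K : Type} [Field k] [Field K] [Algebra k K]

theorem exists_unit {O₁ O₂ : Type} [CommRing O₁] [CommRing O₂] [Algebra k O₁] [Algebra k O₂]
    [IsLocalRing O₁] [IsLocalRing O₂] (φ₁ : O₁ →ₐ[k] K) (φ₂ : O₂ →ₐ[k] K) {c₁ c₂ : K}
    (W : Submodule k K) (m₁ : ∀ z ∈ W, ∃ t, φ₁ t = z / c₁) (m₂ : ∀ z ∈ W, ∃ t, φ₂ t = z / c₂)
    (h₁ : ∃ w ∈ W, ∃ t, IsUnit t ∧ φ₁ t = w / c₁) (h₂ : ∃ w ∈ W, ∃ t, IsUnit t ∧ φ₂ t = w / c₂) :
    ∃ l ∈ W, (∃ t, IsUnit t ∧ φ₁ t = l / c₁) ∧ ∃ t, IsUnit t ∧ φ₂ t = l / c₂ := by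
  obtain ⟨w₁, hw₁, t₁, u₁, e₁⟩ := h₁
  obtain ⟨w₂, hw₂, t₂, u₂, e₂⟩ := h₂
  obtain ⟨s₁, f₁⟩ := m₁ w₂ hw₂
  obtain ⟨s₂, f₂⟩ := m₂ w₁ hw₁
  by_cases h1 : IsUnit s₁
  · exact ⟨w₂, hw₂, ⟨s₁, h1, f₁⟩, t₂, u₂, e₂⟩
  by_cases h2 : IsUnit s₂
  · exact ⟨w₁, hw₁, ⟨t₁, u₁, e₁⟩, s₂, h2, f₂⟩
  refine ⟨w₁ + w₂, W.add_mem hw₁ hw₂, ⟨t₁ + s₁, unit_add u₁ h1, ?_⟩, t₂ + s₂,
    unit_add u₂ h2, ?_⟩
  · rw [map_add, e₁, f₁, add_div]
  · rw [map_add, e₂, f₂, add_comm w₁ w₂, add_div]

/-- A basis which starts with two given elements. -/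
theorem exists_basis (W : Submodule k K) [Module.Finite k W] {x l : K} (hx : x ∈ W) (hl : l ∈ W)
    (h : LinearIndependent k ![x, l]) : ∃ (n : ℕ) (f : Fin n → K),
      LinearIndependent k (Fin.cons x (Fin.cons l f : Fin (n + 1) → K) : Fin (n + 2) → K) ∧
      Submodule.span k (Set.range
        (Fin.cons x (Fin.cons l f : Fin (n + 1) → K) : Fin (n + 2) → K)) = W := by
  have hxl : x ≠ l := by
    intro hxl
    have h3 := h.injective (show (![x, l] : Fin 2 → K) 0 = ![x, l] 1 from hxl)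
    exact absurd h3 (by decide)
  have h1 : LinearIndepOn k id (Set.range ![x, l]) :=
    (linearIndepOn_id_range_iff h.injective).2 h
  have h2 : Set.range ![x, l] = {x, l} := by
    rw [Matrix.range_cons, Matrix.range_cons, Matrix.range_empty, Set.union_empty]
    rfl
  rw [h2] at h1
  have h0 : ({x, l} : Set K) ⊆ (W : Set K) := by
    rintro z (rfl | rfl)
    · exact hx
    · exact hl
  obtain ⟨b, hbW, hsb, hWb, hb⟩ := exists_linearIndepOn_id_extension h1 h0
  have hfin : b.Finite := by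
    have h5 : LinearIndependent k (fun i : b => (⟨i.1, hbW i.2⟩ : W)) := by
      refine LinearIndependent.of_comp W.subtype ?_
      exact hb
    have h6 := h5.finite
    exact Set.toFinite b
  let s : Set K := b \ {x, l}
  have hs : s.Finite := hfin.subset Set.sdiff_subset
  have := hs.to_subtype
  let E := Finite.equivFin s
  let f : Fin (Nat.card s) → K := fun i => (E.symm i).1
  have hf : Set.range f = s := by
    ext z
    constructor
    · rintro ⟨i, rfl⟩
      exact (E.symm i).2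
    · intro hz
      refine ⟨E ⟨z, hz⟩, ?_⟩
      change (E.symm (E ⟨z, hz⟩)).1 = z
      rw [Equiv.symm_apply_apply]
  have hfi : Function.Injective f := fun i j hij => E.symm.injective (Subtype.ext hij)
  have hr1 : Set.range (Fin.cons l f : Fin (Nat.card s + 1) → K) = insert l s := by
    rw [Fin.range_cons, hf]
  have hr : Set.range (Fin.cons x (Fin.cons l f : Fin (Nat.card s + 1) → K) :
      Fin (Nat.card s + 2) → K) = b := by
    rw [Fin.range_cons, hr1]
    ext z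
    constructor
    · rintro (rfl | rfl | hz)
      · exact hsb (Or.inl rfl)
      · exact hsb (Or.inr rfl)
      · exact hz.1
    · intro hz
      by_cases h3 : z = x
      · exact Or.inl h3
      by_cases h4 : z = l
      · exact Or.inr (Or.inl h4)
      refine Or.inr (Or.inr ⟨hz, ?_⟩)
      rintro (h5 | h5)
      · exact h3 h5
      · exact h4 h5
  have hi1 : Function.Injective (Fin.cons l f : Fin (Nat.card s + 1) → K) := by
    rw [Fin.cons_injective_iff]
    refine ⟨?_, hfi⟩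
    rw [hf]
    intro h3
    exact h3.2 (Or.inr rfl)
  have hi : Function.Injective (Fin.cons x (Fin.cons l f : Fin (Nat.card s + 1) → K) :
      Fin (Nat.card s + 2) → K) := by
    rw [Fin.cons_injective_iff]
    refine ⟨?_, hi1⟩
    rw [hr1]
    rintro (h3 | h3)
    · exact hxl h3
    · exact h3.2 (Or.inl rfl)
  refine ⟨Nat.card s, f, ?_, ?_⟩
  · rw [← linearIndepOn_id_range_iff hi, hr]
    exact hb
  · rw [hr]
    exact le_antisymm (Submodule.span_le.2 hbW) hWb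

theorem chart_mono {W E : Submodule k K} (h : W ≤ E) (z : K) : chart k W z ≤ chart k E z := by
  refine Algebra.adjoin_mono ?_
  rintro t ⟨w, hw, rfl⟩
  exact ⟨w, h hw, rfl⟩

/-- If `W` is spanned by `x` and `l`, every element of `chart W l` is a constant modulo `x / l`. -/
theorem chart_two {W : Submodule k K} {x l : K} (hl0 : l ≠ 0)
    (hW : ∀ w ∈ W, ∃ a b : k, w = a • x + b • l) {a : K} (ha : a ∈ chart k W l) :
    ∃ c : k, ∃ a' ∈ chart k W l, a = algebraMap k K c + x / l * a' := by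
  refine Algebra.adjoin_induction (p := fun a _ => ∃ c : k, ∃ a' ∈ chart k W l,
    a = algebraMap k K c + x / l * a') ?_ ?_ ?_ ?_ ha
  · rintro t ⟨w, hw, rfl⟩
    obtain ⟨a, b, rfl⟩ := hW w hw
    refine ⟨b, algebraMap k K a, Subalgebra.algebraMap_mem _ _, ?_⟩
    rw [Algebra.smul_def, Algebra.smul_def]
    field_simp
    ring
  · intro r
    exact ⟨r, 0, Subalgebra.zero_mem _, by rw [mul_zero, add_zero]⟩
  · rintro y z hy hz ⟨c, y', hy', e1⟩ ⟨d, z', hz', e2⟩
    refine ⟨c + d, y' + z', Subalgebra.add_mem _ hy' hz', ?_⟩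
    rw [e1, e2, map_add]
    ring
  · rintro y z hy hz ⟨c, y', hy', e1⟩ ⟨d, z', hz', e2⟩
    refine ⟨c * d, algebraMap k K c * z' + y' * z, Subalgebra.add_mem _
      (Subalgebra.mul_mem _ (Subalgebra.algebraMap_mem _ _) hz')
      (Subalgebra.mul_mem _ hy' hz), ?_⟩
    rw [map_mul, e1]
    rw [e2]
    ring

end BasisAux

open BasisAux in
theorem tBasis (hNoeth : StNoeth) (hFinGen : StFinGen) (hUnit : StUnit) : StBasis := by
  intro k K _ _ _ _ E x₀ O₁ O₂ _ _ _ _ _ _ φ₁ φ₂ c₁ c₂ e D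
  have hE := D.fin
  obtain ⟨W, hWE, hxW, hint, hind⟩ := hNoeth k K E D.fin x₀ D.x_mem D.x_ne
  have hWf : Module.Finite k W := Submodule.finiteDimensional_of_le hWE
  obtain ⟨l, hl, ⟨t₁, u₁, e₁⟩, t₂, u₂, e₂⟩ := exists_unit φ₁ φ₂ W
    (fun z hz => D.mem₁ z (hWE hz)) (fun z hz => D.mem₂ z (hWE hz))
    (hUnit k K W O₁ φ₁ D.inj₁ c₁ D.c₁_ne (hint c₁ D.c₁_mem) fun w hw => D.mem₁ w (hWE hw))
    (hUnit k K W O₂ φ₂ D.inj₂ c₂ D.c₂_ne (hint c₂ D.c₂_mem) fun w hw => D.mem₂ w (hWE hw))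
  have hl0 : l ≠ 0 := by
    rintro rfl
    have h1 := u₁.map φ₁
    rw [e₁, zero_div, isUnit_zero_iff] at h1
    exact zero_ne_one h1
  have hLI : LinearIndependent k ![x₀, l] := by
    rw [LinearIndependent.pair_iff]
    intro s t hst
    have ht : t = 0 := by
      by_contra ht
      obtain ⟨t₀, e₀⟩ := D.mem₁ x₀ D.x_mem
      apply D.x₁ t₀ e₀
      have h1 : l = (-(s / t)) • x₀ := by
        have h2 : t • l = -(s • x₀) := (neg_eq_of_add_eq_zero_right hst).symm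
        have h3 : l = t⁻¹ • (t • l) := by rw [smul_smul, inv_mul_cancel₀ ht, one_smul]
        rw [h3, h2, smul_neg, smul_smul, neg_smul, div_eq_inv_mul]
      have h2 : t₁ = algebraMap k O₁ (-(s / t)) * t₀ := by
        apply D.inj₁
        rw [e₁, h1, map_mul, e₀, AlgHom.commutes, Algebra.smul_def, mul_div_assoc]
      rw [h2] at u₁
      exact isUnit_of_mul_isUnit_right u₁
    rw [ht, zero_smul, add_zero] at hst
    exact ⟨(smul_eq_zero.1 hst).resolve_right D.x_ne, ht⟩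
  obtain ⟨n, f, hyi, hyW⟩ := exists_basis W hxW hl hLI
  rcases n with _ | n
  · exfalso
    obtain ⟨G, hG, hb⟩ := hFinGen k K W E D.fin hWE hint l hl0
    refine D.inf l (hWE hl) hl0 t₁ u₁ e₁ ⟨G, hG, fun b hbE => ?_⟩
    obtain ⟨t, ht, rfl⟩ := hb b hbE
    have hW2 : ∀ w ∈ W, ∃ a b : k, w = a • x₀ + b • l := by
      intro w hw
      rw [← hyW] at hw
      have hr : Set.range (Fin.cons x₀ (Fin.cons l f : Fin (0 + 1) → K) : Fin (0 + 2) → K) =
          {x₀, l} := by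
        rw [Fin.range_cons, Fin.range_cons, Set.range_eq_empty, insert_empty_eq]
      rw [hr, Submodule.mem_span_pair] at hw
      obtain ⟨a, b, h⟩ := hw
      exact ⟨a, b, h.symm⟩
    have key : ∀ g, ∃ (c : k) (a' : K), g ∈ G → a' ∈ chart k W l ∧
        t g = algebraMap k K c + x₀ / l * a' := by
      intro g
      by_cases hg : g ∈ G
      · obtain ⟨c, a', h1, h2⟩ := chart_two hl0 hW2 (ht g hg)
        exact ⟨c, a', fun _ => ⟨h1, h2⟩⟩
      · exact ⟨0, 0, fun h => absurd h hg⟩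
    choose c a' hca using key
    refine ⟨c, ∑ g ∈ G, a' g * g, Subalgebra.sum_mem _ fun g hg => Subalgebra.mul_mem _
      (chart_mono hWE l (hca g hg).1) (hG g hg), ?_⟩
    rw [Finset.mul_sum, ← Finset.sum_add_distrib]
    refine Finset.sum_congr rfl fun g hg => ?_
    rw [(hca g hg).2, Algebra.smul_def]
    ring
  · refine ⟨n, (Fin.cons x₀ (Fin.cons l f : Fin (n + 1 + 1) → K) : Fin (n + 1 + 2) → K),
      hind (n + 2) _ hyi hyW rfl, fun i => ?_, fun z hz => ?_, rfl, ⟨t₁, u₁, e₁⟩, t₂, u₂, e₂⟩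
    · apply hWE
      rw [← hyW]
      exact Submodule.subset_span ⟨i, rfl⟩
    · have h1 := hint z hz
      rw [← hyW] at h1
      exact h1

end Pool.Agent.Lib.MP_4ca46c_ag.Cn
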