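import Mathlib
import Pool.Agent.Lib.MP_4ca46c_ag.Cn.SpecA

/-!
# The bound for the degrees (A11)
-/

namespace Pool.Agent.Lib.MP_4ca46c_ag.Cn

namespace BdAux

theorem degBound {k σ : Type} [Field k] (v : σ) (r m D : ℕ) (p q : MvPolynomial σ k)
    (hp : p.totalDegree ≤ m) (hq : q.totalDegree ≤ D) :
    ((MvPolynomial.X v : MvPolynomial σ k) ^ r * p * q).totalDegree ≤ r + m + D := by
  have h1 := MvPolynomial.totalDegree_mul ((MvPolynomial.X v : MvPolynomial σ k) ^ r * p) q
  have h2 := MvPolynomial.totalDegree_mul ((MvPolynomial.X v : MvPolynomial σ k) ^ r) p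
  have h3 : ((MvPolynomial.X v : MvPolynomial σ k) ^ r).totalDegree = r :=
    MvPolynomial.totalDegree_X_pow v r
  omega

end BdAux

open BdAux in
theorem tBd : StBd := by
  classical
  intro k σ K _ _ _ v B B' T G' ι _ f δ h1 h2 h3 h4 h5
  have h2' : ∀ g ∈ G', ∃ n : ℕ, ∃ q : ι → MvPolynomial σ k,
      algebraMap _ K δ * (algebraMap (MvPolynomial σ k) K (MvPolynomial.X v) ^ n * g) =
        ∑ j, algebraMap _ K (q j) * f j := by
    intro g hg
    obtain ⟨n, hn⟩ := h2 g (h3 g hg)
    obtain ⟨c, hc⟩ := h1 _ hn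
    exact ⟨n, c, hc⟩
  choose! n q hq using h2'
  refine ⟨∑ g ∈ G', ∑ j, (q g j).totalDegree, fun b hb => ?_⟩
  obtain ⟨t, htT, hbt⟩ := h5 b hb
  have h4' : ∀ g ∈ G', ∃ m : ℕ, ∃ p : MvPolynomial σ k, p.totalDegree ≤ m ∧
      algebraMap (MvPolynomial σ k) K (MvPolynomial.X v) ^ m * t g = algebraMap _ K p :=
    fun g hg => h4 (t g) (htT g hg)
  choose! M p hpM hp using h4'
  refine ⟨∑ g ∈ G', M g + ∑ g ∈ G', n g, fun m hm => ?_⟩
  have hmg : ∀ g ∈ G', M g + n g ≤ m := by
    intro g hg
    have e1 := Finset.single_le_sum (f := M) (fun _ _ => Nat.zero_le _) hg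
    have e2 := Finset.single_le_sum (f := n) (fun _ _ => Nat.zero_le _) hg
    omega
  refine ⟨fun j => ∑ g ∈ G', (MvPolynomial.X v : MvPolynomial σ k) ^ (m - M g - n g) * p g * q g j,
    fun j => ?_, ?_⟩
  · refine (MvPolynomial.totalDegree_finsetSum _ _).trans (Finset.sup_le fun g hg => ?_)
    have e1 : (q g j).totalDegree ≤ ∑ g ∈ G', ∑ j, (q g j).totalDegree := by
      have e2 := Finset.single_le_sum (f := fun j => (q g j).totalDegree)
        (fun _ _ => Nat.zero_le _) (Finset.mem_univ j)
      have e3 := Finset.single_le_sum (f := fun g => ∑ j, (q g j).totalDegree)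
        (fun _ _ => Nat.zero_le _) hg
      exact e2.trans e3
    have e4 := degBound v (m - M g - n g) (M g) _ (p g) (q g j) (hpM g hg) e1
    have e5 := hmg g hg
    omega
  · have e1 : ∀ g ∈ G', algebraMap _ K δ *
        (algebraMap (MvPolynomial σ k) K (MvPolynomial.X v) ^ m * (t g * g)) =
        ∑ j, algebraMap _ K ((MvPolynomial.X v : MvPolynomial σ k) ^ (m - M g - n g) * p g * q g j) *
          f j := by
      intro g hg
      have e2 := hmg g hg
      have e3 : m = (m - M g - n g) + M g + n g := by omega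
      calc algebraMap _ K δ *
            (algebraMap (MvPolynomial σ k) K (MvPolynomial.X v) ^ m * (t g * g))
          = algebraMap (MvPolynomial σ k) K (MvPolynomial.X v) ^ (m - M g - n g) *
            (algebraMap (MvPolynomial σ k) K (MvPolynomial.X v) ^ (M g) * t g) *
            (algebraMap _ K δ * (algebraMap (MvPolynomial σ k) K (MvPolynomial.X v) ^ (n g) * g)) := by
            conv_lhs => rw [e3, pow_add, pow_add]
            ring
        _ = _ := by
            rw [hp g hg, hq g hg, Finset.mul_sum]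
            refine Finset.sum_congr rfl fun j _ => ?_
            simp only [map_mul, map_pow]
            ring
    rw [hbt, Finset.mul_sum, Finset.mul_sum, Finset.sum_congr rfl e1, Finset.sum_comm]
    refine Finset.sum_congr rfl fun j _ => ?_
    rw [map_sum, Finset.sum_mul]

end Pool.Agent.Lib.MP_4ca46c_ag.Cn
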