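import Mathlib
import Pool.Agent.Lib.MP_4ca46c_ag.Cn.SpecA
import Pool.Agent.Lib.MP_4ca46c_ag.Hyp.HypMap
import Pool.Agent.Lib.MP_4ca46c_ag.T2.SpecG
import Pool.Agent.Lib.MP_4ca46c_ag.Std.ConnSpec

/-!
# Specification B: connectedness of hyperplane sections

The dictionary between schemes and the algebra of `SpecA`.
-/

namespace Pool.Agent.Lib.MP_4ca46c_ag.Cn

open CategoryTheory Limits AlgebraicGeometry Opposite
open Pool.Agent.Lib.MP_4ca46c_ag.Sign Pool.Agent.Lib.MP_4ca46c_ag.Hyp
open Pool.Agent.Lib.MP_4ca46c_ag.Std Pool.Agent.Lib.MP_4ca46c_ag.T2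

attribute [local instance] MvPolynomial.gradedAlgebra

section Defs

variable {k : Type} [Field k]

/-- The constants in the functions on `U`. -/
noncomputable def con {X : Scheme.{0}} (s : X ⟶ Spec (CommRingCat.of k)) (U : X.Opens) :
    k →+* Γ(X, U) :=
  ((Scheme.ΓSpecIso (CommRingCat.of k)).inv ≫ s.appLE ⊤ U le_top).hom

variable {κ : Type} [Fintype κ]

/-- The linear form with the coefficients `c j`. -/
noncomputable def lin (c : κ → k) : MvPolynomial κ k :=
  ∑ j, MvPolynomial.C (c j) * MvPolynomial.X j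

theorem lin_mem (c : κ → k) : lin c ∈ MvPolynomial.homogeneousSubmodule κ k 1 := by
  refine Submodule.sum_mem _ fun j _ => ?_
  rw [← MvPolynomial.smul_eq_C_mul]
  exact Submodule.smul_mem _ _ (hX j)

/-- The open set `D_+(c)` where the linear form `c` does not vanish. -/
noncomputable abbrev linD (c : κ → k) : (PS k κ).Opens :=
  Proj.basicOpen (MvPolynomial.homogeneousSubmodule κ k) (lin c)

/-- The function `d / c` on `D_+(c)`. -/
noncomputable def linF (c d : κ → k) : Γ(PS k κ, linD c) :=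
  gsec (lin c) (lin d) (lin_mem c) (lin_mem d)

/-- The value at `p`, in the stalk, of a function on `U`. -/
noncomputable abbrev gm {X : Scheme.{0}} {U : X.Opens} (p : X) (hp : p ∈ U) (s : Γ(X, U)) :
    X.presheaf.stalk p := X.presheaf.germ U p hp s

/-- The open set of `X` where the linear form `c` does not vanish. -/
noncomputable abbrev Xc {X : Scheme.{0}} (E : X ⟶ PS k κ) (c : κ → k) : X.Opens := E ⁻¹ᵁ linD c

/-- The function `d / c` on `X`. -/
noncomputable abbrev Xf {X : Scheme.{0}} (E : X ⟶ PS k κ) (c d : κ → k) : Γ(X, Xc E c) :=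
  E.app (linD c) (linF c d)

/-- The function field `K` of the integral scheme `X`, with the quotients `h c` of the linear
forms by a fixed linear form. -/
structure FF {X : Scheme.{0}} (E : X ⟶ PS k κ) where
  K : Type
  [field : Field K]
  [algebra : Algebra k K]
  ψ : ∀ p : X, X.presheaf.stalk p →+* K
  ψ_inj : ∀ p, Function.Injective (ψ p)
  gm_eq : ∀ (U : X.Opens) (p q : X) (hp : p ∈ U) (hq : q ∈ U) (s : Γ(X, U)),
    ψ p (gm p hp s) = ψ q (gm q hq s)
  gm_inj : ∀ (U : X.Opens) (p : X) (hp : p ∈ U) (s s' : Γ(X, U)),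
    ψ p (gm p hp s) = ψ p (gm p hp s') → s = s'
  const : ∀ (U : X.Opens) (p : X) (hp : p ∈ U) (r : k),
    ψ p (gm p hp (con (E ≫ psStr k κ) U r)) = algebraMap k K r
  h : (κ → k) →ₗ[k] K
  h_ne : ∀ c, h c ≠ 0 ↔ ∃ p, p ∈ Xc E c
  quot : ∀ (c d : κ → k) (p : X) (hp : p ∈ Xc E c), ψ p (gm p hp (Xf E c d)) = h d / h c

attribute [instance] FF.field FF.algebra

/-- The subscheme `i : D ⟶ X` is given by the linear equation `a`. -/
def HZ {X D : Scheme.{0}} (E : X ⟶ PS k κ) (a : κ → k) (i : D ⟶ X) : Prop :=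
  ∀ (T : Scheme.{0}) (t : T ⟶ X), (∃ v, v ≫ i = t) ↔
    (PreCoord.ps k κ).Van (t ≫ E) (fun j => con (t ≫ E ≫ psStr k κ) ⊤ (a j))

end Defs

section Statements

/-- **B1. Linear forms on projective space.** The conjunction of `StLinA`, `StLinB`, `StLinC`. -/
structure LinFacts (k κ : Type) [Field k] [Fintype κ] [DecidableEq κ] : Prop where
  affine : ∀ c : κ → k, IsAffineOpen (linD c)
  bas : ∀ c d : κ → k, (PS k κ).basicOpen (linF c d) = linD c ⊓ linD d
  mul : ∀ c d d' : κ → k, (PS k κ).presheaf.map (homOfLE inf_le_left).op (linF c d') =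
    ((PS k κ).presheaf.map (homOfLE inf_le_left).op (linF c d) *
      (PS k κ).presheaf.map (homOfLE inf_le_right).op (linF d d') : Γ(PS k κ, linD c ⊓ linD d))
  self : ∀ c : κ → k, linF c c = 1
  add : ∀ c d d' : κ → k, linF c (d + d') = linF c d + linF c d'
  smul : ∀ (c : κ → k) (r : k) (d : κ → k), linF c (r • d) = con (psStr k κ) _ r * linF c d
  gen : ∀ (c : κ → k) (S : Subring Γ(PS k κ, linD c)), (∀ r, con (psStr k κ) _ r ∈ S) →
    (∀ d, linF c d ∈ S) → ∀ s, s ∈ S
  singleD : ∀ i : κ, linD (Pi.single i (1 : k)) = psD i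
  single : ∀ (i : κ) (d : κ → k) (T : Scheme.{0}) (t : T ⟶ PS k κ) (W : T.Opens)
    (h : W ≤ t ⁻¹ᵁ linD (Pi.single i (1 : k))) (h' : W ≤ t ⁻¹ᵁ psD i),
    t.appLE _ W h (linF (Pi.single i 1) d) =
      (PreCoord.ps k κ).eqn t (fun j => con (t ≫ psStr k κ) ⊤ (d j)) i W h'

/-- **B1a.**

PROOF. For coordinates (`c`, `d` unit vectors) this is in `Hyp/Proj.lean`: `psf_self`, `psf_mul`,
`psι_pre`, `psBasicOpen_le`; the same proofs work for linear forms. Affine:
`Proj.isAffineOpen_basicOpen`. The basic open set: as `psι_pre`, `psBasicOpen_le`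
(`Proj.awayι_preimage_basicOpen`, `Proj.opensRange_awayι`). The product: as `psf_mul`. -/
def StLinA : Prop := ∀ (k κ : Type) [Field k] [Fintype κ],
  (∀ c : κ → k, IsAffineOpen (linD c)) ∧
  (∀ c d : κ → k, (PS k κ).basicOpen (linF c d) = linD c ⊓ linD d) ∧
  (∀ c d d' : κ → k, (PS k κ).presheaf.map (homOfLE inf_le_left).op (linF c d') =
    ((PS k κ).presheaf.map (homOfLE inf_le_left).op (linF c d) *
      (PS k κ).presheaf.map (homOfLE inf_le_right).op (linF d d') : Γ(PS k κ, linD c ⊓ linD d))) ∧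
  ∀ c : κ → k, linF c c = 1

/-- **B1b.**

PROOF. Sum, multiples: `Away.mk` of sums and multiples (`HomogeneousLocalization.val_injective`,
`Away.val_mk`), `lin (d + d') = lin d + lin d'`; the constants `con (psStr k κ) _ r` are
`Proj.awayToSection _ (lin c) (fromZeroRingHom _ _ (algebraMap _ _ r))` (compare `chart_str`,
`away_str` in `Std/Hyper.lean`, `Proj.awayι_toSpecZero`, `psι_app`, `psι_str` in `Hyp/ProjCoord.lean`; the same for
`lin c` in place of `X i`). Generation: a section of `D_+(c)` is `awayToSection` of a fraction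
`a / (lin c)^n`, `a` homogeneous of degree `n` (`Proj.awayToSection` is an isomorphism for a form of
positive degree, `Away.mk_surjective`); the ring homomorphism
`MvPolynomial κ k → Away (lin c)`, `X j ↦ X j / lin c` maps `a` to `a / (lin c)^n` (as `dehom_eq` in
`Hyp/Proj.lean`), and its values are in every subring which contains the constants and the
`X j / lin c` (`MvPolynomial.induction_on`), `X j = lin (Pi.single j 1)`. -/
def StLinB : Prop := ∀ (k κ : Type) [Field k] [Fintype κ],
  (∀ c d d' : κ → k, linF c (d + d') = linF c d + linF c d') ∧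
  (∀ (c : κ → k) (r : k) (d : κ → k), linF c (r • d) = con (psStr k κ) _ r * linF c d) ∧
  ∀ (c : κ → k) (S : Subring Γ(PS k κ, linD c)), (∀ r, con (psStr k κ) _ r ∈ S) →
    (∀ d, linF c d ∈ S) → ∀ s, s ∈ S

/-- **B1c.** (May use `StLinB`.)

PROOF. `lin (Pi.single i 1) = X i`, and `linF (Pi.single i 1) d = ∑ con (d j) psf i j` by
`StLinB` (`d = ∑ d j • Pi.single j 1`) and `gsec_X`; then apply `t.appLE` (`map_sum`, `map_mul`);
`t.appLE` of a constant is a constant (`Scheme.Hom.appLE_comp_appLE`). Use `sec_eq` (`Hyp/HypMap.lean`) to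
replace `lin (Pi.single i 1)` by `X i`. -/
def StLinC : Prop := ∀ (k κ : Type) [Field k] [Fintype κ] [DecidableEq κ],
  (∀ i : κ, linD (Pi.single i (1 : k)) = psD i) ∧
  ∀ (i : κ) (d : κ → k) (T : Scheme.{0}) (t : T ⟶ PS k κ) (W : T.Opens)
    (h : W ≤ t ⁻¹ᵁ linD (Pi.single i (1 : k))) (h' : W ≤ t ⁻¹ᵁ psD i),
    t.appLE _ W h (linF (Pi.single i 1) d) =
      (PreCoord.ps k κ).eqn t (fun j => con (t ≫ psStr k κ) ⊤ (d j)) i W h'

/-- **B1.** See `LinFacts`. -/
def StLin : Prop := ∀ (k κ : Type) [Field k] [Fintype κ] [DecidableEq κ], LinFacts k κ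

/-- **B2. The function field.** (May use `StLin`.)

PROOF. `K = X.functionField`, the stalk at the generic point; `ψ p` is the specialization map
`X.presheaf.stalkSpecializes` (`Scheme.functionField`, `germToFunctionField`,
`germToFunctionField_injective`; `K` is a fraction field of the stalk, an instance in Mathlib).
`algebra`: the constants `con _ ⊤` followed by the germ (`RingHom.toAlgebra`). `gm_eq`: both are the
germ at the generic point (`germ_stalkSpecializes`). There is `j₀` such that the generic point is in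
`Xc E (Pi.single j₀ 1)` (`singleD`, `iSup_psD`); let `h d` be the image of
`Xf E (Pi.single j₀ 1) d` in `K`, linear in `d` by `add`, `smul`. `h_ne`: by `bas` (`E.app`,
`Scheme.preimage_basicOpen`) `h c ≠ 0` iff `Xf E (Pi.single j₀ 1) c ≠ 0` iff its basic open set
`Xc E (Pi.single j₀ 1) ⊓ Xc E c` is not empty (`X` is reduced: `basicOpen_eq_bot_iff`), iff `Xc E c`
is not empty (`X` is irreducible). `quot`: if `p ∈ Xc E c` then the generic point is in `Xc E c`, and by
`mul` for `c`, `d = Pi.single j₀ 1` we have `d' / c = (e / c) (d' / e)` at the generic point,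
`e = Pi.single j₀ 1`; for `d' = c`: `1 = (e / c) h c` (`self`). -/
def StFF : Prop := ∀ (k κ : Type) [Field k] [Fintype κ] (X : Scheme.{0}) [IsIntegral X]
  (E : X ⟶ PS k κ), Nonempty (FF E)

/-- **B3. The coordinate ring of the chart.** (May use `StLin`.)

PROOF. `⊆`: `Algebra.adjoin_induction`, the generator `h d / h c` is the image of `Xf E c d`
(`quot`), constants by `const`. `⊇`: `E.app (linD c)` is surjective (`Scheme.Hom.app_surjective`,
`LinFacts.affine`), so `s = E.app _ s'`; the `s'` for which the image of `E.app _ s'` lies in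
`chart` form a subring (as `s ↦ ψ p (gm p hp s)` is a ring homomorphism) which contains the constants and
the `linF c d`; so it is everything (`LinFacts.gen`). -/
def StChartEq : Prop := ∀ (k κ : Type) [Field k] [Fintype κ] (X : Scheme.{0})
  (E : X ⟶ PS k κ), IsClosedImmersion E → ∀ (F : FF E) (c : κ → k) (p : X) (hp : p ∈ Xc E c)
  (x : F.K), x ∈ chart k (LinearMap.range F.h) (F.h c) ↔
    ∃ s : Γ(X, Xc E c), F.ψ p (gm p hp s) = x

/-- **B4. The ideal of `D`.** (May use `StLin`.)

PROOF. `Xc E c` is affine (`E` is affine, `LinFacts.affine`), `A = Γ(X, Xc E c)`, `g = Xf E c a`.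
(1) `i.app _ g = 0`: `HZ` for `T = D`, `t = i` gives `Van (i ≫ E) a`: for every `j` the `eqn` is zero
on the preimage of `psD j`; this is the pull-back of `linF (Pi.single j 1) a` (`single`); by
`mul` the restriction of `i.app _ g` to the intersection with the preimage of `psD j` is
`(x_j / c) * 0`, where `x_j / c = linF c (Pi.single j 1)`. These opens cover (`iSup_psD`), so
`i.app _ g = 0` (sheaf). (2) Let `i.app _ s = 0`, `T = Spec (A / (g))` and `t : T ⟶ Spec A ⟶ X`
(`IsAffineOpen.fromSpec`); then `Van (t ≫ E) a`: on the preimage of `psD j`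
`a / x_j = (c / x_j) (a / c)` (`mul` for `Pi.single j 1`, `c`), and `a / c = g` is `0` on `T`. So
`t = v ≫ i` (`HZ`), and `t.appLE (Xc E c) ⊤ _ s = 0` (`Scheme.Hom.appLE_comp_appLE`); but this is the
class of `s` in `A / (g)` (`IsAffineOpen.fromSpec_app_self` or similar; compare `psι_app`). -/
def StKer : Prop := ∀ (k κ : Type) [Field k] [Fintype κ] (X D : Scheme.{0})
  (E : X ⟶ PS k κ), IsClosedImmersion E → ∀ (a : κ → k) (i : D ⟶ X), HZ E a i →
  ∀ (c : κ → k) (s : Γ(X, Xc E c)), i.app (Xc E c) s = 0 ↔ ∃ s', s = Xf E c a * s'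

/-- **B5. The function which is `1` on `U` and `0` on `V`.**

PROOF. Glue `1` on `U` and `0` on `V` (`TopCat.Sheaf.existsUnique_gluing'`, or
`isProductOfDisjoint`, or take a morphism to `Spec (ℤ × ℤ)`, or the coproduct decomposition). -/
def StClop : Prop := ∀ (D : Scheme.{0}) (U V : D.Opens), U ⊓ V = ⊥ → U ⊔ V = ⊤ →
  ∃ ε : Γ(D, ⊤), (∀ (p : D) (_ : p ∈ U), gm (U := ⊤) p trivial ε = 1) ∧
    ∀ (p : D) (_ : p ∈ V), gm (U := ⊤) p trivial ε = 0

/-- **B6. The idempotents.** (May use `StLin`, `StChartEq`, `StKer`, `StClop`.)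

PROOF. Let `ε` be from `StClop`. For `c` with `h c ≠ 0` let `p_c ∈ Xc E c` (`h_ne`). `i` is a closed
immersion and `Xc E c` is affine, so `i.app (Xc E c)` is surjective; let `s_c ∈ Γ(X, Xc E c)` map to
the restriction of `ε`, and `e c = ψ (gm p_c s_c)` (`0` if `h c = 0`). (1) `e c ∈ chart` by
`StChartEq`. (2) `ε^2 = ε` (germs; `Scheme` sections are equal if all germs are), so
`i.app _ (s_c^2 - s_c) = 0`, `StKer`, `quot`. (3) Let `t = Xf E c c'` (with image `h c' / h c`);
`Xc E c ⊓ Xc E c'` is its basic open set (`LinFacts.bas`). The restriction of `s_(c')` to it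
is `t^(-n) b` with `b ∈ Γ(X, Xc E c)` (`IsAffineOpen.isLocalization_basicOpen`), so
`(h c' / h c)^n e c' = ψ (b)` (germs at the generic point or at a point of the intersection: `X` has
a point in both `Xc E c` and `Xc E c'`, since `h c' / h c ≠ 0` means `t ≠ 0`). Let
`y = i.app (b - t^n s_c) ∈ Γ(D, i⁻¹ Xc E c)`. Its restriction to `i⁻¹ (Xc E c ⊓ Xc E c')`, the basic
open set of `i.app t`, is `0`, since `i.app` of `b` is `t^n ε`, and of `s_c` it is `ε`. As
`i⁻¹ Xc E c` is affine, `(i.app t)^m y = 0` for some `m`. So `t^m (b - t^n s_c)` is in the kernel: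
`t^m b - t^(n+m) s_c = Xf E c a * s'` (`StKer`). Take `s = n + m`, in `K`. (4) Let `P ∈ D`,
`i P ∈ Xc E c`. The stalk map of `i` at `P` is local (`Scheme.Hom.germ_stalkMap_apply`) and maps
`gm (i P) s_c` to the germ of `ε`: to `1` if `P ∈ U`, to `0` if `P ∈ V`. So `s_c` (or `1 - s_c`)
is a unit at `i P`, and `ψ (i P)` maps its germ to `e c` (`gm_eq`). (5) the stalk map sends
`Xf E c a` to `0` (`StKer`), so `Xf E c a` is not a unit at `i P`; `ψ` is injective. -/
def StIdD : Prop := ∀ (k κ : Type) [Field k] [Fintype κ] (X D : Scheme.{0}) [IsIntegral X]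
  (E : X ⟶ PS k κ), IsClosedImmersion E → ∀ (F : FF E) (a : κ → k) (i : D ⟶ X),
  IsClosedImmersion i → HZ E a i → ∀ (U V : D.Opens), U ⊓ V = ⊥ → U ⊔ V = ⊤ →
  ∃ e : (κ → k) → F.K,
    (∀ c, F.h c ≠ 0 → e c ∈ chart k (LinearMap.range F.h) (F.h c)) ∧
    (∀ c, F.h c ≠ 0 → ∃ b ∈ chart k (LinearMap.range F.h) (F.h c),
      e c ^ 2 - e c = F.h a / F.h c * b) ∧
    (∀ c, F.h c ≠ 0 → ∀ c', F.h c' ≠ 0 → ∃ s : ℕ, ∃ b ∈ chart k (LinearMap.range F.h) (F.h c),
      (F.h c' / F.h c) ^ s * (e c - e c') = F.h a / F.h c * b) ∧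
    (∀ (c : κ → k) (P : D), i P ∈ Xc E c →
      (P ∈ U → ∃ t, IsUnit t ∧ F.ψ (i P) t = e c) ∧
      (P ∈ V → ∃ t, IsUnit t ∧ F.ψ (i P) t = 1 - e c) ∧
      ∀ t, F.ψ (i P) t = F.h a / F.h c → ¬ IsUnit t)

/-- **B7. `D` is not finite.** (May use `StLin`, `StChartEq`, `StKer`; `tIso` in `Std/IsoPt.lean`.)

PROOF. Suppose that there is such a `G`. Let `A = Γ(X, Xc E c)`, `B = Γ(D, i⁻¹ Xc E c)`;
`i.app : A → B` is surjective (`IsClosedImmersion`, `Xc E c` affine) and kills `Xf E c a`. `A` is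
isomorphic to `chart` by `s ↦ ψ (gm s)` (`StChartEq`, `gm_inj`); for `g ∈ G` let `s_g ∈ A` be
its preimage. Then every element of `A` is `∑ con (c_g) s_g + Xf E c a * s'`, so `B` is generated by
the images of the `s_g` as a module over `k`. So `B` is a finite-dimensional `k`-algebra, an
Artinian ring, and the affine scheme `i⁻¹ Xc E c = Spec B` has the discrete topology
(`IsArtinianRing`, `PrimeSpectrum.discreteTopology` or `isArtinianRing_iff_...`). So `{P}` is open in
`i⁻¹ Xc E c`, and open in `D`: a contradiction to `tIso`. -/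
def StInf : Prop := ∀ (k κ : Type) [Field k] [Fintype κ] (X D : Scheme.{0}) [IsIntegral X]
  (E : X ⟶ PS k κ), IsClosedImmersion E → ∀ (F : FF E) (a : κ → k) (i : D ⟶ X),
  IsClosedImmersion i → HZ E a i → ∀ m : ℕ, 1 ≤ m →
  SmoothOfRelativeDimension m (i ≫ E ≫ psStr k κ) →
  ∀ (c : κ → k) (P : D), i P ∈ Xc E c → ¬ ∃ G : Finset F.K,
    (∀ g ∈ G, g ∈ chart k (LinearMap.range F.h) (F.h c)) ∧
    ∀ b ∈ chart k (LinearMap.range F.h) (F.h c), ∃ (r : F.K → k),
      ∃ b' ∈ chart k (LinearMap.range F.h) (F.h c), b = (∑ g ∈ G, r g • g) + F.h a / F.h c * b'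

/-- **B8. Connectedness**, for schemes over `k`. (May use `StLin`, `StFF`, `StIdD`, `StInf`,
`StAlg`.)

PROOF. Let `F` be from `StFF`, `x₀ = h a`. If `x₀ = 0`: `Van (𝟙 ≫ E) a` holds: by `single` the
`eqn` on `psD j` is `Xf E (Pi.single j 1) a`, whose image in `K` is `h a / .. = 0` (if this open set
has a point; otherwise the ring is trivial), and `gm_inj`. So `𝟙 X = v ≫ i` (`HZ`), `i` is
surjective (`i v x = x`), and a closed immersion, so it is a homeomorphism (`Topology.IsEmbedding`,
surjective), and `D` is connected because `X` is irreducible. Now let `x₀ ≠ 0`. Suppose that `D` is not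
preconnected: there are disjoint open `U`, `V` with union `⊤` and points `P₁ ∈ U`, `P₂ ∈ V`
(`preconnectedSpace_iff_clopen`, or `isPreconnected_iff...`). Let `e` be from `StIdD`, and let
`p_i = i P_i ∈ Xc E (Pi.single j_i 1)` (`iSup_psD`, `singleD`). We get `Data k K E x₀ ..` with
`E = range h` (finite-dimensional), `O_i = X.presheaf.stalk p_i` with the `k`-algebra structure by
the constants, `φ_i = ψ p_i` (an algebra homomorphism by `const`), `c_i = h (Pi.single j_i 1)`,
nonzero by `h_ne`, and `e z := e (c)` for a chosen `c` with `h c = z` (`e z = 0` if there is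
none). `mem`: `h d / c_i = ψ (gm (Xf _ d))`. `e₁`: let `z = h c`, `t` a unit with
`ψ t = z / c₁`; then `t` is the germ of `Xf E (Pi.single j₁ 1) c` (`ψ_inj`), so `p₁` is in the basic
open set, `p₁ ∈ Xc E c` (`bas`), and `StIdD` applies. In the same way `e₂` and `inf` (`StInf`).
The stalks of the locally Noetherian scheme `X` are Noetherian (instance). This contradicts
`StAlg`. -/
def StConnA : Prop := ∀ (k κ : Type) [Field k] [Infinite k] [Fintype κ] (X D : Scheme.{0})
  [IsIntegral X] [IsLocallyNoetherian X] (E : X ⟶ PS k κ), IsClosedImmersion E →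
  ∀ (a : κ → k) (i : D ⟶ X), IsClosedImmersion i → HZ E a i → ∀ m : ℕ, 1 ≤ m →
  SmoothOfRelativeDimension m (i ≫ E ≫ psStr k κ) → PreconnectedSpace D

/-- **B9. Connectedness of smooth hyperplane sections.** (May use `StConnA`.)

PROOF. `X.left` is integral: irreducible by `isVar_irreducible tStalk' tIrr` (`Std/PreConn.lean`;
`tStalk tSmDomain : StStalk`, `tIrr` in `Std/Stalk.lean`, `Std/SmDomain.lean`), and its stalks are
domains, so it is reduced (`isReduced_of_isReduced_stalk`, `isIntegral_of_irreducibleSpace_of_isReduced`);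
locally Noetherian by `sms_noetherian (sms_isSm hx)`. `i = toX.left` is a closed immersion: it is
`pullback.lift toX d _` followed by the isomorphism `X ×_k Spec k ≅ X` (`IsZero.closed`). `HZ`: for
`t : T ⟶ X.left` make `T` a scheme over `k₀` (`Over.mk (t ≫ X.hom)`) and use `IsZero.iff` for
`T ⟶ pt k₀ k` equal to `t ≫ x` and `t`; `VanO (t ≫ e) (appTop (cf (a j)))` is `Van` with
`con _ ⊤ (a j)` (`Scheme.Hom.appLE_eq_app`). `i ≫ E ≫ psStr = d.left` (`IsZero.comm`), smooth of
relative dimension `m`. -/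
def StConn : Prop := ∀ (k₀ k : Type) [Field k₀] [Field k] [Algebra k₀ k] [IsAlgClosed k]
  (κ : Type) [Fintype κ] (X : Sch k₀) (x : X ⟶ pt k₀ k) (e : X ⟶ PSo k₀ k κ),
  e ≫ PSo.str k₀ k κ = x → IsClosedImmersion e.left → ∀ m : ℕ, 1 ≤ m → IsVar x (m + 1) →
  ∀ (a : κ → k) (D : Sch k₀) (d : D ⟶ pt k₀ k) (toX : D ⟶ X),
  IsZero e (𝟙 (pt k₀ k)) (fun i => cf k₀ (a i)) d toX → SmoothOfRelativeDimension m d.left →
  PreconnectedSpace D.left

end Statements

end Pool.Agent.Lib.MP_4ca46c_ag.Cn
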