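import Mathlib
import Pool.Agent.Lib.MP_4ca46c_ag.Cn.SpecB

/-!
# The coordinate ring of the chart
-/

open CategoryTheory Limits AlgebraicGeometry Opposite
open Pool.Agent.Lib.MP_4ca46c_ag.Sign Pool.Agent.Lib.MP_4ca46c_ag.Hyp
open Pool.Agent.Lib.MP_4ca46c_ag.Std Pool.Agent.Lib.MP_4ca46c_ag.T2

namespace Pool.Agent.Lib.MP_4ca46c_ag.Cn

attribute [local instance] MvPolynomial.gradedAlgebra

namespace ChartEqAux

variable {k κ : Type} [Field k] [Fintype κ]

/-- the pull-back of a constant -/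
theorem con_pull {X : Scheme.{0}} (E : X ⟶ PS k κ) (U : (PS k κ).Opens) (r : k) :
    E.app U (con (psStr k κ) U r) = con (E ≫ psStr k κ) (E ⁻¹ᵁ U) r := by
  have h : (psStr k κ).appLE ⊤ U le_top ≫ E.app U =
      (E ≫ psStr k κ).appLE ⊤ (E ⁻¹ᵁ U) le_top := by
    rw [E.app_eq_appLE, Scheme.Hom.appLE_comp_appLE]
  change (((Scheme.ΓSpecIso (CommRingCat.of k)).inv ≫ (psStr k κ).appLE ⊤ U le_top) ≫
    E.app U).hom r = _
  rw [Category.assoc, h]
  rfl

/-- the value at `p` in the function field -/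
noncomputable def val {X : Scheme.{0}} {E : X ⟶ PS k κ} (F : FF E) {U : X.Opens} (p : X)
    (hp : p ∈ U) : Γ(X, U) →+* F.K :=
  (F.ψ p).comp (X.presheaf.germ U p hp).hom

theorem val_apply {X : Scheme.{0}} {E : X ⟶ PS k κ} (F : FF E) {U : X.Opens} (p : X)
    (hp : p ∈ U) (s : Γ(X, U)) : val F p hp s = F.ψ p (gm p hp s) := rfl

end ChartEqAux

open ChartEqAux in
theorem tChartEq (hLin : StLin) : StChartEq := by
  classical
  intro k κ _ _ X E hE F c p hp x
  have hL := hLin k κ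
  constructor
  · intro hx
    change x ∈ Algebra.adjoin k _ at hx
    induction hx using Algebra.adjoin_induction with
    | mem x hx =>
      obtain ⟨w, ⟨d, rfl⟩, rfl⟩ := hx
      exact ⟨Xf E c d, F.quot c d p hp⟩
    | algebraMap r => exact ⟨con (E ≫ psStr k κ) (Xc E c) r, F.const _ p hp r⟩
    | add x y _ _ hx hy =>
      obtain ⟨s, rfl⟩ := hx
      obtain ⟨t, rfl⟩ := hy
      exact ⟨s + t, map_add (val F p hp) s t⟩
    | mul x y _ _ hx hy =>
      obtain ⟨s, rfl⟩ := hx
      obtain ⟨t, rfl⟩ := hy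
      exact ⟨s * t, map_mul (val F p hp) s t⟩
  · rintro ⟨s, rfl⟩
    obtain ⟨s', rfl⟩ := E.app_surjective (linD c) (hL.affine c) s
    have hmem := hL.gen c
      ((chart k (LinearMap.range F.h) (F.h c)).toSubring.comap
        ((val F p hp).comp (E.app (linD c)).hom)) ?_ ?_ s'
    · exact hmem
    · intro r
      change F.ψ p (gm p hp (E.app (linD c) (con (psStr k κ) _ r))) ∈
        chart k (LinearMap.range F.h) (F.h c)
      rw [con_pull, F.const]
      exact Subalgebra.algebraMap_mem _ _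
    · intro d
      change F.ψ p (gm p hp (Xf E c d)) ∈ chart k (LinearMap.range F.h) (F.h c)
      rw [F.quot]
      exact Algebra.subset_adjoin ⟨F.h d, ⟨d, rfl⟩, rfl⟩

end Pool.Agent.Lib.MP_4ca46c_ag.Cn
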