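import Mathlib
import Pool.Agent.Lib.MP_4ca46c_ag.Cn.SpecB

/-!
# MP_4ca46c_ag, Cn/Clop: a function which is one on `U` and zero on the complement `V`
-/

namespace Pool.Agent.Lib.MP_4ca46c_ag.Cn

open CategoryTheory Limits AlgebraicGeometry Opposite TopologicalSpace

namespace ClopAux

/-- sections over an empty open set -/
theorem sub_of_bot {D : Scheme.{0}} {W : D.Opens} (h : W = ⊥) : Subsingleton Γ(D, W) := by
  subst h
  infer_instance

end ClopAux

theorem tClop : StClop := by
  intro D U V hinf hsup
  let W : Bool → D.Opens := fun b => if b then U else V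
  let sf : ∀ b : Bool, Γ(D, W b) := fun b => if b then 1 else 0
  have hc : TopCat.Presheaf.IsCompatible D.sheaf.1 W sf := by
    intro i j
    by_cases hij : i = j
    · subst hij; rfl
    · have h : W i ⊓ W j = ⊥ := by
        rcases i with _ | _ <;> rcases j with _ | _
        · exact absurd rfl hij
        · change V ⊓ U = ⊥
          rw [inf_comm]; exact hinf
        · exact hinf
        · exact absurd rfl hij
      have : Subsingleton Γ(D, W i ⊓ W j) := ClopAux.sub_of_bot h
      exact Subsingleton.elim (α := Γ(D, W i ⊓ W j)) _ _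
  obtain ⟨ε, hε, -⟩ := D.sheaf.existsUnique_gluing' W ⊤ (fun b => homOfLE le_top) (by
    rw [← hsup]
    exact sup_le (le_iSup W true) (le_iSup W false)) sf hc
  refine ⟨ε, fun p hp => ?_, fun p hp => ?_⟩
  · have h1 := hε true
    change D.presheaf.map (homOfLE le_top : U ⟶ ⊤).op ε = (1 : Γ(D, U)) at h1
    have h2 := congrArg (D.presheaf.germ U p hp) h1
    rw [map_one, TopCat.Presheaf.germ_res_apply] at h2
    exact h2
  · have h1 := hε false
    change D.presheaf.map (homOfLE le_top : V ⟶ ⊤).op ε = (0 : Γ(D, V)) at h1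
    have h2 := congrArg (D.presheaf.germ V p hp) h1
    rw [map_zero, TopCat.Presheaf.germ_res_apply] at h2
    exact h2

end Pool.Agent.Lib.MP_4ca46c_ag.Cn
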