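import Mathlib
import Pool.Agent.Lib.MP_4ca46c_ag.Cn.SpecB

/-!
# Connectedness of smooth hyperplane sections
-/

namespace Pool.Agent.Lib.MP_4ca46c_ag.Cn

open CategoryTheory Limits AlgebraicGeometry Opposite
open Pool.Agent.Lib.MP_4ca46c_ag.Sign Pool.Agent.Lib.MP_4ca46c_ag.Hyp
open Pool.Agent.Lib.MP_4ca46c_ag.Std Pool.Agent.Lib.MP_4ca46c_ag.T2

namespace ConnAux

variable {k₀ : Type} [Field k₀] {k : Type} [Field k] [Algebra k₀ k] {κ : Type} [Fintype κ]

theorem integral {X : Sch k₀} {x : X ⟶ pt k₀ k} {n : ℕ} (hx : IsVar x n) :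
    IsIntegral X.left := by
  have h1 : IrreducibleSpace X.left := isVar_irreducible fStalk tIrr hx
  have h2 : Smooth x.left := hx.smooth.smooth
  have h3 : ∀ p : X.left, IsDomain (X.left.presheaf.stalk p) := fStalk k X.left x.left h2
  have h4 : ∀ p : X.left, _root_.IsReduced (X.left.presheaf.stalk p) := fun p => by
    have := h3 p
    infer_instance
  have h5 : IsReduced X.left := isReduced_of_isReduced_stalk X.left
  exact isIntegral_of_irreducibleSpace_of_isReduced X.left

theorem con_top {T : Scheme.{0}} (f : T ⟶ Spec (CommRingCat.of k)) (r : k) :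
    f.appTop ((Scheme.ΓSpecIso (CommRingCat.of k)).inv r) = con f ⊤ r := by
  unfold con
  have h : f.appLE ⊤ ⊤ le_top = f.appTop := Scheme.Hom.appLE_eq_app f
  rw [h]
  rfl

theorem closed {X : Sch k₀} {e : X ⟶ PSo k₀ k κ} {a : κ → Γ((pt k₀ k).left, ⊤)} {D : Sch k₀}
    {d : D ⟶ pt k₀ k} {toX : D ⟶ X} (h : T2.IsZero e (𝟙 (pt k₀ k)) a d toX) :
    IsClosedImmersion toX.left := by
  have h1 := h.closed
  have h3 : toX.left = (pullback.lift toX d h.comm).left ≫
      (pullback.fst (e ≫ PSo.str k₀ k κ) (𝟙 (pt k₀ k))).left := by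
    rw [← Over.comp_left, pullback.lift_fst]
  rw [h3]
  have h4 : IsIso (pullback.fst (e ≫ PSo.str k₀ k κ) (𝟙 (pt k₀ k))) := inferInstance
  have h5 : IsIso (pullback.fst (e ≫ PSo.str k₀ k κ) (𝟙 (pt k₀ k))).left := by
    change IsIso ((Over.forget _).map (pullback.fst (e ≫ PSo.str k₀ k κ) (𝟙 (pt k₀ k))))
    infer_instance
  infer_instance

end ConnAux

open ConnAux in
/-- **B9. Connectedness of smooth hyperplane sections.** -/
theorem tConn (hConnA : StConnA) : StConn := by
  intro k₀ k _ _ _ _ κ _ X x e he hE m hm hx a D d toX hZ hd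
  have h1 : IsIntegral X.left := integral hx
  have h2 : IsLocallyNoetherian X.left := sms_noetherian (sms_isSm hx)
  have h3 : IsClosedImmersion toX.left := closed hZ
  have h4 : toX.left ≫ e.left ≫ psStr k κ = d.left := by
    have h := congrArg CommaMorphism.left hZ.comm
    rw [Category.comp_id] at h
    exact h
  have h5 : HZ (X := X.left) (D := D.left) e.left a toX.left := by
    intro T t
    let T' : Sch k₀ := Over.mk (t ≫ X.hom)
    let u : T' ⟶ X := Over.homMk t rfl
    let s : T' ⟶ pt k₀ k := u ≫ e ≫ PSo.str k₀ k κ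
    have key := hZ.iff T' s u (by rw [Category.comp_id])
    have e1 : (∃ v : T ⟶ D.left, v ≫ toX.left = t) ↔ ∃ v : T' ⟶ D, v ≫ d = s ∧ v ≫ toX = u := by
      constructor
      · rintro ⟨v, hv⟩
        have hw : v ≫ D.hom = t ≫ X.hom := by
          rw [← hv, Category.assoc, Over.w toX]
        let v' : T' ⟶ D := Over.homMk v hw
        have hv' : v' ≫ toX = u := by
          apply Over.OverMorphism.ext
          exact hv
        refine ⟨v', ?_, hv'⟩
        have hc := hZ.comm
        rw [Category.comp_id] at hc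
        rw [← hc, ← Category.assoc, hv']
      · rintro ⟨v, -, hv⟩
        exact ⟨v.left, congrArg CommaMorphism.left hv⟩
    rw [e1, key]
    have e2 : (fun j => s.left.appTop (cf k₀ (a j))) =
        fun j => con (X := T) (t ≫ e.left ≫ psStr k κ) ⊤ (a j) := by
      funext j
      exact con_top (k := k) (T := T) (t ≫ e.left ≫ psStr k κ) (a j)
    rw [e2]
    rfl
  have h6 : Infinite k := IsAlgClosed.instInfinite
  rw [← h4] at hd
  exact hConnA k κ X.left D.left e.left hE a toX.left h3 h5 m hm hd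

end Pool.Agent.Lib.MP_4ca46c_ag.Cn
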