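import Mathlib
import Pool.Agent.Lib.MP_4ca46c_ag.Cn.SpecB

/-!
# Connectedness of smooth hyperplane sections, for schemes over `k`
-/

namespace Pool.Agent.Lib.MP_4ca46c_ag.Cn

open CategoryTheory Limits AlgebraicGeometry Opposite
open Pool.Agent.Lib.MP_4ca46c_ag.Sign Pool.Agent.Lib.MP_4ca46c_ag.Hyp
open Pool.Agent.Lib.MP_4ca46c_ag.Std Pool.Agent.Lib.MP_4ca46c_ag.T2

attribute [local instance] MvPolynomial.gradedAlgebra

namespace ConnAAux

variable {k κ : Type} [Field k] [Fintype κ] {X : Scheme.{0}} {E : X ⟶ PS k κ}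

theorem mem_of_unit [DecidableEq κ] (L : LinFacts k κ) (F : FF E) (s c : κ → k) (p : X)
    (hp : p ∈ Xc E s) (t : X.presheaf.stalk p) (ht : IsUnit t)
    (h : F.ψ p t = F.h c / F.h s) : p ∈ Xc E c := by
  have e1 : t = gm p hp (Xf E s c) := F.ψ_inj p (by rw [h, F.quot])
  rw [e1] at ht
  have e2 : p ∈ X.basicOpen (Xf E s c) := (X.mem_basicOpen _ p hp).2 ht
  have e3 : X.basicOpen (Xf E s c) = E ⁻¹ᵁ (PS k κ).basicOpen (linF s c) :=
    (Scheme.preimage_basicOpen E (linF s c)).symm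
  rw [e3, L.bas] at e2
  exact e2.2

/-- The case that the equation is zero: the hyperplane section is everything. -/
theorem zero_case [DecidableEq κ] (L : LinFacts k κ) (F : FF E) (a : κ → k) (hx : F.h a = 0)
    {D : Scheme.{0}} (i : D ⟶ X) (hHZ : HZ E a i) : ∃ v : X ⟶ D, v ≫ i = 𝟙 X := by
  refine (hHZ X (𝟙 X)).2 ?_
  simp only [Category.id_comp]
  intro j
  have hD : Xc E (Pi.single j (1 : k)) = E ⁻¹ᵁ psD j := by
    rw [Xc, L.singleD]
  have h0 : Xf E (Pi.single j 1) a = 0 := by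
    have hz : ∀ (p : X) (hp : p ∈ Xc E (Pi.single j (1 : k))),
        gm p hp (Xf E (Pi.single j 1) a) = gm p hp 0 := fun p hp => F.ψ_inj p (by
      rw [F.quot, hx, zero_div]
      exact ((congrArg (F.ψ p) (map_zero _)).trans (map_zero _)).symm)
    exact TopCat.Presheaf.section_ext X.sheaf _ _ _ hz
  refine (L.single j a X E (E ⁻¹ᵁ psD j) hD.ge le_rfl).symm.trans ?_
  have e1 : E.appLE _ (E ⁻¹ᵁ psD j) hD.ge (linF (Pi.single j 1) a) =
      X.presheaf.map (homOfLE hD.ge).op (Xf E (Pi.single j 1) a) := rfl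
  rw [e1, h0, map_zero]
  rfl

theorem precon_of_section [IsIntegral X] {D : Scheme.{0}} (i : D ⟶ X)
    (hi : IsClosedImmersion i) (v : X ⟶ D) (hv : v ≫ i = 𝟙 X) : PreconnectedSpace D := by
  have h1 : Function.Injective i := i.isClosedEmbedding.injective
  have h2 : ∀ x : X, i (v x) = x := fun x => by
    rw [← Scheme.Hom.comp_apply, hv]
    rfl
  have h3 : Function.Surjective v := fun P => ⟨i P, h1 (h2 (i P))⟩
  have h4 : _root_.IsPreconnected (Set.univ : Set X) := isPreconnected_univ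
  refine ⟨?_⟩
  rw [← Set.image_univ_of_surjective h3]
  exact h4.image _ v.continuous.continuousOn

/-- The constants in the stalk. -/
@[instance_reducible]
noncomputable def algS (E : X ⟶ PS k κ) (p : X) : Algebra k (X.presheaf.stalk p) :=
  ((X.presheaf.germ ⊤ p trivial).hom.comp (con (E ≫ psStr k κ) ⊤)).toAlgebra

/-- `ψ p` as a homomorphism of algebras. -/
noncomputable def algH (F : FF E) (p : X) :
    letI := algS E p
    X.presheaf.stalk p →ₐ[k] F.K :=
  letI := algS E p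
  { F.ψ p with commutes' := fun r => F.const ⊤ p trivial r }

theorem algH_apply (F : FF E) (p : X) (t : X.presheaf.stalk p) : algH F p t = F.ψ p t := rfl

end ConnAAux

open ConnAAux

theorem tConnA (hLin : StLin) (hFF : StFF) (hIdD : StIdD) (hInf : StInf) (hAlg : StAlg) :
    StConnA := by
  classical
  intro k κ _ _ _ X D _ _ E hE a i hi hHZ m hm hsm
  have L : LinFacts k κ := hLin k κ
  obtain ⟨F⟩ := hFF k κ X E
  by_cases hx : F.h a = 0
  · obtain ⟨v, hv⟩ := zero_case L F a hx i hHZ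
    exact precon_of_section i hi v hv
  by_contra hD
  rw [preconnectedSpace_iff_clopen] at hD
  push Not at hD
  obtain ⟨s, hs, ⟨P₁, hP₁⟩, hnu⟩ := hD
  obtain ⟨P₂, hP₂⟩ := (Set.ne_univ_iff_exists_notMem s).1 hnu
  obtain ⟨e, he1, he2, he3, he4⟩ := hIdD k κ X D E hE F a i hi hHZ ⟨s, hs.isOpen⟩
    ⟨sᶜ, hs.compl.isOpen⟩ (by ext x; simp) (by ext x; simp)
  have hj : ∀ p : X, ∃ j : κ, p ∈ Xc E (Pi.single j (1 : k)) := by
    intro p
    have h1 : E p ∈ (⨆ j, psD (k := k) (κ := κ) j) := by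
      rw [iSup_psD]
      trivial
    obtain ⟨j, hj⟩ := TopologicalSpace.Opens.mem_iSup.1 h1
    refine ⟨j, ?_⟩
    rw [← L.singleD] at hj
    exact hj
  obtain ⟨j₁, hj₁⟩ := hj (i P₁)
  obtain ⟨j₂, hj₂⟩ := hj (i P₂)
  set g : F.K → (κ → k) := Function.invFun F.h with hg
  have hgz : ∀ z ∈ LinearMap.range F.h, F.h (g z) = z := fun z hz =>
    Function.invFun_eq (LinearMap.mem_range.1 hz)
  let _ : Algebra k (X.presheaf.stalk (i P₁)) := algS E (i P₁)
  let _ : Algebra k (X.presheaf.stalk (i P₂)) := algS E (i P₂)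
  refine hAlg k F.K (LinearMap.range F.h) (F.h a) (X.presheaf.stalk (i P₁))
    (X.presheaf.stalk (i P₂)) (algH F (i P₁)) (algH F (i P₂)) (F.h (Pi.single j₁ 1))
    (F.h (Pi.single j₂ 1)) (fun z => e (g z)) ?_
  refine
    { fin := inferInstance
      x_mem := ⟨a, rfl⟩
      x_ne := hx
      inj₁ := F.ψ_inj _
      inj₂ := F.ψ_inj _
      c₁_mem := ⟨_, rfl⟩
      c₂_mem := ⟨_, rfl⟩
      c₁_ne := (F.h_ne _).2 ⟨_, hj₁⟩
      c₂_ne := (F.h_ne _).2 ⟨_, hj₂⟩
      mem₁ := ?_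
      mem₂ := ?_
      x₁ := (he4 _ P₁ hj₁).2.2
      x₂ := (he4 _ P₂ hj₂).2.2
      e_mem := ?_
      e_idem := ?_
      e_comp := ?_
      e₁ := ?_
      e₂ := ?_
      inf := ?_ }
  · rintro z ⟨d, rfl⟩
    exact ⟨_, F.quot _ d _ hj₁⟩
  · rintro z ⟨d, rfl⟩
    exact ⟨_, F.quot _ d _ hj₂⟩
  · intro z hz hz0
    have h1 := he1 (g z) (by rw [hgz z hz]; exact hz0)
    rw [hgz z hz] at h1
    exact h1
  · intro z hz hz0
    have h1 := he2 (g z) (by rw [hgz z hz]; exact hz0)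
    rw [hgz z hz] at h1
    exact h1
  · intro z hz hz0 w hw hw0
    have h1 := he3 (g z) (by rw [hgz z hz]; exact hz0) (g w) (by rw [hgz w hw]; exact hw0)
    rw [hgz z hz, hgz w hw] at h1
    exact h1
  · intro z hz hz0 t ht hzt
    have h1 : i P₁ ∈ Xc E (g z) := mem_of_unit L F _ (g z) _ hj₁ t ht (by
      rw [hgz z hz]; exact hzt)
    exact (he4 (g z) P₁ h1).1 hP₁
  · intro z hz hz0 t ht hzt
    have h1 : i P₂ ∈ Xc E (g z) := mem_of_unit L F _ (g z) _ hj₂ t ht (by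
      rw [hgz z hz]; exact hzt)
    exact (he4 (g z) P₂ h1).2.1 hP₂
  · intro z hz hz0 t ht hzt
    have h1 : i P₁ ∈ Xc E (g z) := mem_of_unit L F _ (g z) _ hj₁ t ht (by
      rw [hgz z hz]; exact hzt)
    have h2 := hInf k κ X D E hE F a i hi hHZ m hm hsm (g z) P₁ h1
    rw [hgz z hz] at h2
    exact h2

end Pool.Agent.Lib.MP_4ca46c_ag.Cn
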