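import Mathlib
import Pool.Agent.Lib.MP_4ca46c_ag.Cn.SpecA

/-!
# The core of the connectedness of hyperplane sections

`tCore`: an idempotent modulo the powers of `u` which is compatible with the second chart is
congruent to `0` or to `1`, after multiplication with a fixed nonzero element.
-/

set_option autoImplicit false

namespace Pool.Agent.Lib.MP_4ca46c_ag.Cn

namespace CoreAux

/-- `x` is divisible by `w` in the subring `S`. -/
def Dv {K : Type} [Field K] (S : Subring K) (w x : K) : Prop := ∃ b ∈ S, x = w * b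

theorem Dv.sub {K : Type} [Field K] {S : Subring K} {w x y : K} (hx : Dv S w x)
    (hy : Dv S w y) : Dv S w (x - y) := by
  obtain ⟨b, hb, rfl⟩ := hx
  obtain ⟨c, hc, rfl⟩ := hy
  exact ⟨b - c, S.sub_mem hb hc, by ring⟩

theorem Dv.mul {K : Type} [Field K] {S : Subring K} {w x y : K} (hx : Dv S w x)
    (hy : y ∈ S) : Dv S w (y * x) := by
  obtain ⟨b, hb, rfl⟩ := hx
  exact ⟨y * b, S.mul_mem hy hb, by ring⟩

theorem Dv.mono {K : Type} [Field K] {S S' : Subring K} {w x : K} (h : S ≤ S')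
    (hx : Dv S w x) : Dv S' w x := by
  obtain ⟨b, hb, rfl⟩ := hx
  exact ⟨b, h hb, rfl⟩

theorem Dv.pow_le {K : Type} [Field K] {S : Subring K} {w x : K} {m n : ℕ} (hw : w ∈ S)
    (h : m ≤ n) (hx : Dv S (w ^ n) x) : Dv S (w ^ m) x := by
  obtain ⟨b, hb, rfl⟩ := hx
  refine ⟨w ^ (n - m) * b, S.mul_mem (S.pow_mem hw _) hb, ?_⟩
  rw [← mul_assoc, ← pow_add, Nat.add_sub_cancel' h]

theorem coe_lift {K : Type} [Field K] (S : Subring K) (e : S) (N : ℕ) :
    ((lift e N : S) : K) = lift (e : K) N := by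
  simp [lift]

theorem dvd_iff {K : Type} [Field K] (S : Subring K) (w x : S) :
    w ∣ x ↔ Dv S (w : K) (x : K) := by
  constructor
  · rintro ⟨c, hc⟩
    exact ⟨c, c.2, by rw [hc]; simp⟩
  · rintro ⟨b, hb, h⟩
    exact ⟨⟨b, hb⟩, Subtype.ext (by simpa using h)⟩

theorem lift_mem {K : Type} [Field K] (S : Subring K) {e : K} (he : e ∈ S) (N : ℕ) :
    lift e N ∈ S := by
  rw [← coe_lift S ⟨e, he⟩ N]
  exact Subtype.coe_prop _

theorem idm_one (hIdm : StIdm) {K : Type} [Field K] (S : Subring K) {w e : K} (hw : w ∈ S)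
    (he : e ∈ S) (h : Dv S w (e ^ 2 - e)) (N : ℕ) (hN : 1 ≤ N) :
    Dv S (w ^ N) (lift e N ^ 2 - lift e N) ∧ Dv S w (lift e N - e) := by
  have h1 := (hIdm S ⟨w, hw⟩).1 ⟨e, he⟩ ((dvd_iff S _ _).2 (by simpa using h)) N hN
  have h2 := (dvd_iff S _ _).1 h1.1
  have h3 := (dvd_iff S _ _).1 h1.2
  simp only [AddSubgroupClass.coe_sub, Subring.coe_pow, coe_lift] at h2
  simp only [AddSubgroupClass.coe_sub, coe_lift] at h3
  exact ⟨h2, h3⟩

theorem idm_two (hIdm : StIdm) {K : Type} [Field K] (S : Subring K) {w a b : K} (hw : w ∈ S)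
    (ha : a ∈ S) (hb : b ∈ S) (N : ℕ) (h1 : Dv S (w ^ N) (a ^ 2 - a))
    (h2 : Dv S (w ^ N) (b ^ 2 - b)) (h3 : Dv S w (a - b)) : Dv S (w ^ N) (a - b) := by
  have h := (hIdm S ⟨w, hw⟩).2 ⟨a, ha⟩ ⟨b, hb⟩ N ((dvd_iff S _ _).2 (by simpa using h1))
    ((dvd_iff S _ _).2 (by simpa using h2)) ((dvd_iff S _ _).2 (by simpa using h3))
  have h4 := (dvd_iff S _ _).1 h
  simpa using h4

/-- The elements which have a multiple by a power of `v` in `B`. -/
def loc {K : Type} [Field K] (B : Subring K) (v : K) (hv : v ∈ B) : Subring K where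
  carrier := {x | ∃ n : ℕ, v ^ n * x ∈ B}
  mul_mem' := by
    rintro a b ⟨m, hm⟩ ⟨n, hn⟩
    refine ⟨m + n, ?_⟩
    have : v ^ (m + n) * (a * b) = (v ^ m * a) * (v ^ n * b) := by ring
    rw [this]
    exact B.mul_mem hm hn
  one_mem' := ⟨0, by simp⟩
  add_mem' := by
    rintro a b ⟨m, hm⟩ ⟨n, hn⟩
    refine ⟨m + n, ?_⟩
    have : v ^ (m + n) * (a + b) = v ^ n * (v ^ m * a) + v ^ m * (v ^ n * b) := by ring
    rw [this]
    exact B.add_mem (B.mul_mem (B.pow_mem hv _) hm) (B.mul_mem (B.pow_mem hv _) hn)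
  zero_mem' := ⟨0, by simp⟩
  neg_mem' := by
    rintro a ⟨m, hm⟩
    refine ⟨m, ?_⟩
    have : v ^ m * (-a) = -(v ^ m * a) := by ring
    rw [this]
    exact B.neg_mem hm

theorem mem_loc {K : Type} [Field K] {B : Subring K} {v : K} {hv : v ∈ B} {x : K} :
    x ∈ loc B v hv ↔ ∃ n : ℕ, v ^ n * x ∈ B := Iff.rfl

theorem le_loc {K : Type} [Field K] (B : Subring K) (v : K) (hv : v ∈ B) : B ≤ loc B v hv :=
  fun x hx => mem_loc.2 ⟨0, by simpa using hx⟩

/-- The key comparison of the two lifts. -/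
theorem compare (hIdm : StIdm) {K : Type} [Field K] (B B' : Subring K) {u v e e' : K}
    (hu : u ∈ B) (hv : v ∈ B) (hv0 : v ≠ 0) (hB' : ∀ b ∈ B', ∃ n : ℕ, v ^ n * b ∈ B)
    (huv : u / v ∈ B') (he : e ∈ B) (hid : Dv B u (e ^ 2 - e)) (he' : e' ∈ B')
    (hid' : Dv B' (u / v) (e' ^ 2 - e')) (hc : ∃ s : ℕ, Dv B u (v ^ s * (e - e'))) (N : ℕ)
    (hN : 1 ≤ N) : ∃ m₀ : ℕ, ∀ m, m₀ ≤ m → Dv B (u ^ N) (v ^ m * (lift e N - lift e' N)) := by
  have hBC : B ≤ loc B v hv := le_loc B v hv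
  have hB'C : B' ≤ loc B v hv := fun b hb => mem_loc.2 (hB' b hb)
  have hvi : v⁻¹ ∈ loc B v hv := mem_loc.2 ⟨1, by
    rw [pow_one, mul_inv_cancel₀ hv0]; exact B.one_mem⟩
  have conv : ∀ (M : ℕ) (x : K), Dv B' ((u / v) ^ M) x → Dv (loc B v hv) (u ^ M) x := by
    rintro M x ⟨b, hb, rfl⟩
    refine ⟨v⁻¹ ^ M * b, Subring.mul_mem _ (Subring.pow_mem _ hvi _) (hB'C hb), ?_⟩
    rw [div_eq_mul_inv, mul_pow, mul_assoc]
  have ha := idm_one hIdm B hu he hid N hN
  have hb := idm_one hIdm B' huv he' hid' N hN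
  have h1 : Dv (loc B v hv) (u ^ N) (lift e N ^ 2 - lift e N) := ha.1.mono hBC
  have h2 : Dv (loc B v hv) (u ^ N) (lift e' N ^ 2 - lift e' N) := conv N _ hb.1
  have h3 : Dv (loc B v hv) u (lift e N - e) := ha.2.mono hBC
  have h4 : Dv (loc B v hv) u (lift e' N - e') := by
    have := conv 1 (lift e' N - e') (by simpa using hb.2)
    simpa using this
  have h5 : Dv (loc B v hv) u (e - e') := by
    obtain ⟨s, b, hbB, hs⟩ := hc
    refine ⟨v⁻¹ ^ s * b, Subring.mul_mem _ (Subring.pow_mem _ hvi _) (hBC hbB), ?_⟩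
    have hvs : v ^ s ≠ 0 := pow_ne_zero _ hv0
    rw [inv_pow]
    field_simp
    linear_combination hs
  have h6 : Dv (loc B v hv) u (lift e N - lift e' N) := by
    obtain ⟨x, hx, h3⟩ := h3
    obtain ⟨y, hy, h4⟩ := h4
    obtain ⟨z, hz, h5⟩ := h5
    exact ⟨x + z - y, Subring.sub_mem _ (Subring.add_mem _ hx hz) hy, by
      linear_combination h3 + h5 - h4⟩
  obtain ⟨c, hcC, h7⟩ := idm_two hIdm (loc B v hv) (hBC hu) (hBC (lift_mem B he N))
    (hB'C (lift_mem B' he' N)) N h1 h2 h6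
  obtain ⟨n, hn⟩ := mem_loc.1 hcC
  refine ⟨n, fun m hm => ⟨v ^ (m - n) * (v ^ n * c), B.mul_mem (B.pow_mem hv _) hn, ?_⟩⟩
  rw [h7, ← mul_assoc (v ^ (m - n)), ← pow_add, Nat.sub_add_cancel hm]
  ring

/-- Comparison of coefficients. -/
theorem coeffs {P K ι : Type} [CommRing P] [Field K] [Algebra P K] [Fintype ι] {f : ι → K}
    (hf : LinearIndependent P f) {c d : ι → P}
    (h : ∑ j, algebraMap P K (c j) * f j = ∑ j, algebraMap P K (d j) * f j) (j : ι) :
    c j = d j := by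
  have h1 := Fintype.linearIndependent_iff.1 hf (fun j => c j - d j) (by
    simp only [Algebra.smul_def, map_sub, sub_mul, Finset.sum_sub_distrib]
    rw [h, sub_self]) j
  exact sub_eq_zero.1 h1

theorem eq_zero_of_dvd {k σ : Type} [Field k] (u : σ) (q : MvPolynomial σ k) (D : ℕ)
    (h : ∀ N, D < N → (MvPolynomial.X u : MvPolynomial σ k) ^ N ∣ q) : q = 0 := by
  by_contra hq
  obtain ⟨r, hr⟩ := h (D + q.totalDegree + 1) (by omega)
  have hr0 : r ≠ 0 := by
    rintro rfl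
    exact hq (by rw [hr, mul_zero])
  have hX : (MvPolynomial.X u : MvPolynomial σ k) ^ (D + q.totalDegree + 1) ≠ 0 :=
    pow_ne_zero _ (MvPolynomial.X_ne_zero u)
  have h1 := MvPolynomial.totalDegree_mul_of_isDomain hX hr0
  rw [← hr, MvPolynomial.totalDegree_X_pow] at h1
  omega

end CoreAux

open CoreAux in
/-- **A12.** -/
theorem tCore (hIdm : StIdm) (hFree : StFree) (hDeg : StDeg) (hBd : StBd) : StCore := by
  intro k σ K _ _ _ hinj u v huv B B' T G G' e e' hPB hG hGB hB' hG' hT hG'B' huvB' he hid he'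
    hid' hcomp
  obtain ⟨ι, hι, f, δ, hδ, hfB, hfli, hBf⟩ := hFree (MvPolynomial σ k) K hinj B hPB G hG hGB
  obtain ⟨D, hD⟩ := hBd k σ K v B B' T G' ι f δ hBf hB' hG' hT hG'B'
  set U : K := algebraMap (MvPolynomial σ k) K (MvPolynomial.X u) with hU
  set V : K := algebraMap (MvPolynomial σ k) K (MvPolynomial.X v) with hV
  have hV0 : V ≠ 0 := by
    rw [hV, Ne, map_eq_zero_iff _ hinj]
    exact MvPolynomial.X_ne_zero v
  have hδ0 : algebraMap (MvPolynomial σ k) K δ ≠ 0 := by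
    rw [Ne, map_eq_zero_iff _ hinj]
    exact hδ
  have hUB : U ∈ B := hPB _
  have hVB : V ∈ B := hPB _
  have hcmp := compare hIdm B B' hUB hVB hV0 hB' huvB' he hid he' hid' hcomp
  -- divisibility of the coefficients
  have key : ∀ (N : ℕ) (x : K) (c : ι → MvPolynomial σ k), Dv B (U ^ N) x →
      algebraMap _ K δ * x = ∑ j, algebraMap _ K (c j) * f j →
      ∀ j, (MvPolynomial.X u : MvPolynomial σ k) ^ N ∣ c j := by
    rintro N x c ⟨b, hb, rfl⟩ h j
    obtain ⟨d, hd⟩ := hBf b hb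
    refine ⟨d j, coeffs hfli (d := fun j => MvPolynomial.X u ^ N * d j) ?_ j⟩
    rw [← h]
    simp only [map_mul, map_pow, ← hU, mul_assoc]
    rw [← Finset.mul_sum, ← hd]
    ring
  choose c hc using fun N : ℕ => hBf (lift e N) (lift_mem B he N)
  have hstep : ∀ N, Dv B (U ^ N) (lift e (N + 1) - lift e N) := by
    intro N
    rcases Nat.eq_zero_or_pos N with rfl | hN
    · exact ⟨lift e (0 + 1) - lift e 0, B.sub_mem (lift_mem B he _) (lift_mem B he _),
        by rw [pow_zero, one_mul]⟩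
    · have h1 := idm_one hIdm B hUB he hid N hN
      have h2 := idm_one hIdm B hUB he hid (N + 1) (by omega)
      refine idm_two hIdm B hUB (lift_mem B he _) (lift_mem B he _) N
        (h2.1.pow_le hUB (by omega)) h1.1 ?_
      have := h2.2.sub h1.2
      simpa using this
  have hβ : ∀ j, ∃ β : MvPolynomial σ k, ∀ N, D < N →
      (MvPolynomial.X u : MvPolynomial σ k) ^ N ∣ c N j - β := by
    intro j
    refine hDeg k σ u v huv (fun N => c N j) D ?_ ?_
    · intro N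
      refine key N _ (fun j => c (N + 1) j - c N j) (hstep N) ?_ j
      simp only [map_sub, sub_mul, Finset.sum_sub_distrib]
      rw [← hc, ← hc]
      ring
    · intro N
      rcases Nat.eq_zero_or_pos N with rfl | hN
      · exact ⟨0, 0, by simp, by simp⟩
      · obtain ⟨m₁, hm₁⟩ := hcmp N hN
        obtain ⟨m₂, hm₂⟩ := hD (lift e' N) (lift_mem B' he' N)
        obtain ⟨g, hg1, hg2⟩ := hm₂ (max m₁ m₂) (le_max_right _ _)
        refine ⟨max m₁ m₂, g j, hg1 j, ?_⟩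
        refine key N _ (fun j => MvPolynomial.X v ^ (max m₁ m₂) * c N j - g j)
          (hm₁ (max m₁ m₂) (le_max_left _ _)) ?_ j
        simp only [map_sub, map_mul, map_pow, ← hV, sub_mul, Finset.sum_sub_distrib]
        rw [← hg2]
        simp only [mul_assoc]
        rw [← Finset.mul_sum, ← hc]
        ring
  choose β hβ using hβ
  have hβB : ∑ j, algebraMap _ K (β j) * f j ∈ B :=
    B.sum_mem fun j _ => B.mul_mem (hPB _) (hfB j)
  set b₀ : K := ∑ j, algebraMap _ K (β j) * f j with hb₀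
  have hδB : algebraMap (MvPolynomial σ k) K δ ∈ B := hPB _
  set d₀ : K := algebraMap (MvPolynomial σ k) K δ with hd₀
  have happ : ∀ N, D < N → Dv B (U ^ N) (d₀ * lift e N - b₀) := by
    intro N hN
    choose q hq using fun j => hβ j N hN
    refine ⟨∑ j, algebraMap _ K (q j) * f j, B.sum_mem fun j _ => B.mul_mem (hPB _) (hfB j), ?_⟩
    rw [hc, hb₀, ← Finset.sum_sub_distrib, Finset.mul_sum]
    refine Finset.sum_congr rfl fun j _ => ?_
    rw [← sub_mul, ← map_sub, hq j, map_mul, map_pow]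
    ring
  have hquad : ∀ N, D < N → Dv B (U ^ N) (b₀ ^ 2 - d₀ * b₀) := by
    intro N hN
    obtain ⟨x, hxB, hx⟩ := happ N hN
    obtain ⟨y, hyB, hy⟩ := (idm_one hIdm B hUB he hid N (by omega)).1
    refine ⟨d₀ ^ 2 * y - x * (d₀ * lift e N + b₀ - d₀), ?_, ?_⟩
    · exact B.sub_mem (B.mul_mem (B.pow_mem hδB _) hyB) (B.mul_mem hxB
        (B.sub_mem (B.add_mem (B.mul_mem hδB (lift_mem B he N)) hβB) hδB))
    · linear_combination (d₀ ^ 2) * hy - (d₀ * lift e N + b₀ - d₀) * hx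
  have hzero : b₀ ^ 2 - d₀ * b₀ = 0 := by
    obtain ⟨q, hq⟩ := hBf (b₀ ^ 2 - d₀ * b₀) (B.sub_mem (B.pow_mem hβB _) (B.mul_mem hδB hβB))
    have hq0 : ∀ j, q j = 0 := fun j => eq_zero_of_dvd u (q j) D fun N hN =>
      key N _ q (hquad N hN) hq j
    have h0 : d₀ * (b₀ ^ 2 - d₀ * b₀) = 0 := by
      rw [hq]
      exact Finset.sum_eq_zero fun j _ => by rw [hq0 j, map_zero, zero_mul]
    exact (mul_eq_zero.1 h0).resolve_left hδ0
  have hprod : b₀ * (b₀ - d₀) = 0 := by linear_combination hzero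
  rcases mul_eq_zero.1 hprod with h | h
  · refine ⟨d₀, hδB, hδ0, 0, Or.inl rfl, D + 1, fun N hN => ?_⟩
    obtain ⟨x, hxB, hx⟩ := happ N (by omega)
    exact ⟨x, hxB, by rw [← hx, h]; ring⟩
  · refine ⟨d₀, hδB, hδ0, 1, Or.inr rfl, D + 1, fun N hN => ?_⟩
    obtain ⟨x, hxB, hx⟩ := happ N (by omega)
    exact ⟨x, hxB, by rw [← hx, sub_eq_zero.1 h]; ring⟩

end Pool.Agent.Lib.MP_4ca46c_ag.Cn
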