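import Mathlib
import Pool.Agent.Lib.MP_4ca46c_ag.Cn.SpecA

/-!
# Power series of bounded degree are polynomials
-/

set_option autoImplicit false

namespace Pool.Agent.Lib.MP_4ca46c_ag.Cn

namespace DegAux

open MvPolynomial

theorem dvd_iff {k σ : Type} [Field k] (u : σ) (N : ℕ) (p : MvPolynomial σ k) :
    (X u : MvPolynomial σ k) ^ N ∣ p ↔ ∀ t : σ →₀ ℕ, t u < N → coeff t p = 0 := by
  classical
  rw [X_pow_eq_monomial, monomial_one_dvd_iff_modMonomial_eq_zero]
  constructor
  · intro h t ht
    have h1 : ¬ Finsupp.single u N ≤ t := by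
      rw [Finsupp.single_le_iff]
      omega
    rw [← coeff_modMonomial_of_not_le p h1, h, coeff_zero]
  · intro h
    ext t
    rw [coeff_zero]
    by_cases h1 : Finsupp.single u N ≤ t
    · exact coeff_modMonomial_of_le p h1
    · rw [coeff_modMonomial_of_not_le p h1]
      apply h
      rw [Finsupp.single_le_iff] at h1
      omega

theorem deg_add {σ : Type} (t : σ →₀ ℕ) (v : σ) (m : ℕ) :
    ((t + Finsupp.single v m).sum fun _ e => e) = (t.sum fun _ e => e) + m := by
  classical
  rw [Finsupp.sum_add_index' (fun _ => rfl) (fun _ _ _ => rfl), Finsupp.sum_single_index rfl]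

theorem le_deg {σ : Type} (t : σ →₀ ℕ) (u : σ) : t u ≤ t.sum fun _ e => e := by
  classical
  by_cases h : u ∈ t.support
  · exact Finset.single_le_sum (f := fun i => t i) (fun _ _ => Nat.zero_le _) h
  · rw [Finsupp.notMem_support_iff.1 h]
    exact Nat.zero_le _

end DegAux

open MvPolynomial DegAux

theorem tDeg : StDeg := by
  classical
  intro k σ _ u v huv c D h1 h2
  have hdeg : ∀ (N : ℕ) (t : σ →₀ ℕ), t u < N → D < (t.sum fun _ e => e) →
      coeff t (c N) = 0 := by
    intro N t ht hD
    by_contra hne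
    obtain ⟨m, g, hg, hd⟩ := h2 N
    have h3 := (dvd_iff u N _).1 hd (t + Finsupp.single v m) (by
      rw [Finsupp.add_apply, Finsupp.single_eq_of_ne huv, add_zero]
      exact ht)
    rw [coeff_sub, X_pow_eq_monomial, add_comm t, coeff_monomial_mul, one_mul, sub_eq_zero] at h3
    have h4 : (Finsupp.single v m + t) ∈ g.support := by
      rw [mem_support_iff, ← h3]
      exact hne
    have h5 := le_totalDegree h4
    rw [add_comm, deg_add] at h5
    omega
  have hst : ∀ (t : σ →₀ ℕ), t u ≤ D → ∀ n, coeff t (c (D + 1 + n)) = coeff t (c (D + 1)) := by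
    intro t ht n
    induction n with
    | zero => rfl
    | succ n ih =>
      have h3 := (dvd_iff u _ _).1 (h1 (D + 1 + n)) t (by omega)
      rw [coeff_sub, sub_eq_zero] at h3
      rw [← ih, ← h3]
      rfl
  refine ⟨∑ t ∈ (c (D + 1)).support.filter (fun t => (t.sum fun _ e => e) ≤ D),
    monomial t (coeff t (c (D + 1))), ?_⟩
  intro N hN
  rw [dvd_iff]
  intro t ht
  have hβ : coeff t (∑ s ∈ (c (D + 1)).support.filter (fun s => (s.sum fun _ e => e) ≤ D),
      monomial s (coeff s (c (D + 1)))) =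
      if (t.sum fun _ e => e) ≤ D then coeff t (c (D + 1)) else 0 := by
    rw [coeff_sum]
    simp only [coeff_monomial]
    rw [Finset.sum_ite_eq']
    by_cases h3 : (t.sum fun _ e => e) ≤ D
    · rw [if_pos h3]
      by_cases h4 : coeff t (c (D + 1)) = 0
      · rw [h4]
        simp
      · rw [if_pos]
        rw [Finset.mem_filter, mem_support_iff]
        exact ⟨h4, h3⟩
    · rw [if_neg h3, if_neg]
      rw [Finset.mem_filter]
      exact fun h => h3 h.2
  rw [coeff_sub, hβ]
  by_cases h3 : (t.sum fun _ e => e) ≤ D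
  · rw [if_pos h3, sub_eq_zero]
    obtain ⟨n, rfl⟩ := Nat.exists_eq_add_of_le (Nat.succ_le_of_lt hN)
    exact hst t ((le_deg t u).trans h3) n
  · rw [if_neg h3, sub_zero]
    exact hdeg N t ht (not_le.1 h3)

end Pool.Agent.Lib.MP_4ca46c_ag.Cn
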