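import Mathlib
import Pool.Agent.Lib.MP_4ca46c_ag.Cn.SpecA

/-!
# A7: dehomogenization
-/

namespace Pool.Agent.Lib.MP_4ca46c_ag.Cn

namespace DehomAux

open MvPolynomial

variable {k K : Type} [Field k] [Field K] [Algebra k K] {σ : Type}

theorem aeval_term (y : σ → K) (s : σ) (hs : y s ≠ 0) (d : ℕ) (m : {i // i ≠ s} →₀ ℕ) (c : k)
    (hm : m.degree ≤ d) :
    MvPolynomial.aeval y (rename Subtype.val (monomial m c) * X s ^ (d - m.degree)) =
      y s ^ d * MvPolynomial.aeval (fun i : {i // i ≠ s} => y i.1 / y s) (monomial m c) := by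
  rw [map_mul, aeval_rename, aeval_monomial, aeval_monomial, map_pow, aeval_X]
  have h1 : (m.prod fun i e => (y i.1 / y s) ^ e) =
      (m.prod fun i e => (y i.1) ^ e) / y s ^ m.degree := by
    have hdeg : m.degree = ∑ i ∈ m.support, m i := rfl
    rw [Finsupp.prod, Finsupp.prod, hdeg]
    rw [← Finset.prod_pow_eq_pow_sum, ← Finset.prod_div_distrib]
    refine Finset.prod_congr rfl fun i _ => ?_
    rw [div_pow]
  rw [h1]
  have h2 : y s ^ d = y s ^ (d - m.degree) * y s ^ m.degree := by
    rw [← pow_add, Nat.sub_add_cancel hm]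
  rw [h2]
  have h3 : y s ^ m.degree ≠ 0 := pow_ne_zero _ hs
  field_simp
  rfl

end DehomAux

open DehomAux MvPolynomial in
theorem tDehom : StDehom := by
  intro k K _ _ _ σ _ y hy s
  classical
  have hs : y s ≠ 0 := by
    intro h0
    have := hy 1 (X s) (isHomogeneous_X k s) (by rw [aeval_X, h0])
    exact X_ne_zero s this
  refine ⟨hs, ?_⟩
  rw [algebraicIndependent_iff]
  intro G hG
  set d := G.totalDegree with hd
  set H : MvPolynomial σ k :=
    ∑ m ∈ G.support, rename Subtype.val (monomial m (coeff m G)) * X s ^ (d - m.degree) with hH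
  have hle : ∀ m ∈ G.support, m.degree ≤ d := by
    intro m hm
    have := le_totalDegree hm
    rw [hd]
    exact this
  have hhom : H.IsHomogeneous d := by
    rw [hH]
    refine IsHomogeneous.sum _ _ _ fun m hm => ?_
    have h1 : (rename Subtype.val (monomial m (coeff m G)) : MvPolynomial σ k).IsHomogeneous
        m.degree := (isHomogeneous_monomial (coeff m G) rfl).rename_isHomogeneous
    have h2 := h1.mul (isHomogeneous_X_pow (R := k) s (d - m.degree))
    rwa [Nat.add_sub_cancel' (hle m hm)] at h2
  have hev : MvPolynomial.aeval y H = 0 := by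
    rw [hH, map_sum]
    rw [Finset.sum_congr rfl fun m hm => aeval_term y s hs d m (coeff m G) (hle m hm)]
    rw [← Finset.mul_sum, ← map_sum, support_sum_monomial_coeff, hG, mul_zero]
  have hH0 : H = 0 := hy d H hhom hev
  have hφ : MvPolynomial.aeval (fun i : σ => if h : i ≠ s then (X ⟨i, h⟩ :
      MvPolynomial {i // i ≠ s} k) else 1) H = G := by
    rw [hH, map_sum]
    have : ∀ m ∈ G.support, MvPolynomial.aeval (fun i : σ => if h : i ≠ s then (X ⟨i, h⟩ :
        MvPolynomial {i // i ≠ s} k) else 1)
        (rename Subtype.val (monomial m (coeff m G)) * X s ^ (d - m.degree)) =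
        monomial m (coeff m G) := by
      intro m _
      rw [map_mul, aeval_rename, map_pow, aeval_X]
      have h1 : ((fun i : σ => if h : i ≠ s then (X ⟨i, h⟩ :
          MvPolynomial {i // i ≠ s} k) else 1) ∘ Subtype.val) = X := by
        funext i
        simp [i.2]
      rw [h1]
      simp
    rw [Finset.sum_congr rfl this, support_sum_monomial_coeff]
  rw [← hφ, hH0, map_zero]

end Pool.Agent.Lib.MP_4ca46c_ag.Cn
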