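import Mathlib
import Pool.Agent.Lib.MP_4ca46c_ag.Cn.SpecB

/-!
# Cn/FF: the function field of an integral scheme over projective space
-/

open CategoryTheory Limits AlgebraicGeometry Opposite
open Pool.Agent.Lib.MP_4ca46c_ag.Hyp

namespace Pool.Agent.Lib.MP_4ca46c_ag.Cn

attribute [local instance] MvPolynomial.gradedAlgebra

namespace FFAux

variable {k κ : Type} [Field k] [Fintype κ] {X : Scheme.{0}}

theorem gmM {U : X.Opens} (p : X) (hp : p ∈ U) (s t : Γ(X, U)) :
    gm p hp (s * t) = gm p hp s * gm p hp t := map_mul (X.presheaf.germ U p hp).hom s t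

theorem gmA {U : X.Opens} (p : X) (hp : p ∈ U) (s t : Γ(X, U)) :
    gm p hp (s + t) = gm p hp s + gm p hp t := map_add (X.presheaf.germ U p hp).hom s t

theorem gm1 {U : X.Opens} (p : X) (hp : p ∈ U) : gm p hp (1 : Γ(X, U)) = 1 :=
  map_one (X.presheaf.germ U p hp).hom

/-- the constants on an open set are the restrictions of the constants on `X` -/
theorem con_res (s : X ⟶ Spec (CommRingCat.of k)) (U : X.Opens) (r : k) :
    con s U r = X.presheaf.map (homOfLE (le_top : U ≤ ⊤)).op (con s ⊤ r) := by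
  have h := Scheme.Hom.appLE_map s (U := ⊤) (V := ⊤) (V' := U) le_top (homOfLE le_top).op
  unfold con
  rw [← h]
  rfl

theorem gm_con (s : X ⟶ Spec (CommRingCat.of k)) (U : X.Opens) (p : X) (hp : p ∈ U) (r : k) :
    gm p hp (con s U r) = gm (U := ⊤) p trivial (con s ⊤ r) := by
  rw [con_res]
  exact X.presheaf.germ_res_apply _ _ _ _

/-- pull-back of constants -/
theorem app_con {Y : Scheme.{0}} (E : X ⟶ Y) (s : Y ⟶ Spec (CommRingCat.of k)) (U : Y.Opens)
    (r : k) : E.app U (con s U r) = con (E ≫ s) (E ⁻¹ᵁ U) r := by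
  have h := Scheme.Hom.appLE_comp_appLE E s ⊤ U (E ⁻¹ᵁ U) le_top le_rfl
  unfold con
  rw [← h, Scheme.Hom.app_eq_appLE]
  rfl

/-- the image of a germ under a stalk map -/
theorem stalk_gm {Y : Scheme.{0}} (E : X ⟶ Y) (U : Y.Opens) (p : X) (hp : E p ∈ U) (s : Γ(Y, U)) :
    gm (U := E ⁻¹ᵁ U) p hp (E.app U s) = E.stalkMap p (gm (E p) hp s) :=
  (E.germ_stalkMap_apply U p hp s).symm

/-- the relation between quotients of linear forms, for germs on projective space -/
theorem gm_mul [DecidableEq κ] (L : LinFacts k κ) (c d d' : κ → k) (y : PS k κ)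
    (hc : y ∈ linD c) (hd : y ∈ linD d) :
    gm y hc (linF c d') = gm y hc (linF c d) * gm y hd (linF d d') := by
  have h := L.mul c d d'
  have hy : y ∈ linD c ⊓ linD d := ⟨hc, hd⟩
  have h2 := congrArg (gm y hy) h
  rw [gmM] at h2
  simp only [gm] at h2 ⊢
  rw [TopCat.Presheaf.germ_res_apply, TopCat.Presheaf.germ_res_apply,
    TopCat.Presheaf.germ_res_apply] at h2
  exact h2

/-- the same on `X` -/
theorem gmX_mul [DecidableEq κ] (L : LinFacts k κ) (E : X ⟶ PS k κ) (c d d' : κ → k) (p : X)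
    (hc : p ∈ Xc E c) (hd : p ∈ Xc E d) :
    gm p hc (Xf E c d') = gm p hc (Xf E c d) * gm p hd (Xf E d d') := by
  have h := congrArg (E.stalkMap p) (gm_mul L c d d' (E p) hc hd)
  rw [map_mul] at h
  have e : ∀ (a b : κ → k) (ha : p ∈ Xc E a), gm p ha (Xf E a b) =
      E.stalkMap p (gm (E p) ha (linF a b)) := fun a b ha => stalk_gm E _ p ha _
  rw [e c d' hc, e c d hc, e d d' hd]
  exact h

theorem Xf_self [DecidableEq κ] (L : LinFacts k κ) (E : X ⟶ PS k κ) (c : κ → k) :
    Xf E c c = 1 := by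
  unfold Xf
  rw [L.self, map_one]

theorem Xf_add [DecidableEq κ] (L : LinFacts k κ) (E : X ⟶ PS k κ) (c d d' : κ → k) :
    Xf E c (d + d') = Xf E c d + Xf E c d' := by
  unfold Xf
  rw [L.add, map_add]

theorem Xf_smul [DecidableEq κ] (L : LinFacts k κ) (E : X ⟶ PS k κ) (c : κ → k) (r : k)
    (d : κ → k) : Xf E c (r • d) = con (E ≫ psStr k κ) _ r * Xf E c d := by
  unfold Xf
  rw [L.smul, map_mul, app_con]

end FFAux

open FFAux

theorem tFF (hLin : StLin) : StFF := by
  intro k κ _ _ X _ E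
  classical
  have L : LinFacts k κ := hLin k κ
  set g : X := genericPoint X with hg
  have sp : ∀ p : X, g ⤳ p := fun p => genericPoint_specializes p
  have gin : ∀ (U : X.Opens) (p : X), p ∈ U → g ∈ U := fun U p hp => (sp p).mem_open U.isOpen hp
  -- a coordinate which does not vanish at the generic point
  obtain ⟨j₀, hj₀⟩ : ∃ j : κ, g ∈ Xc E (Pi.single j (1 : k)) := by
    have h1 : E g ∈ (⨆ j, psD (k := k) (κ := κ) j) := by
      rw [iSup_psD]
      trivial
    obtain ⟨j, hj⟩ := TopologicalSpace.Opens.mem_iSup.1 h1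
    refine ⟨j, ?_⟩
    show E g ∈ linD (Pi.single j (1 : k))
    rw [L.singleD]
    exact hj
  set e : κ → k := Pi.single j₀ (1 : k) with he
  let alg : Algebra k X.functionField := RingHom.toAlgebra
    (RingHom.comp (X.presheaf.germ ⊤ g trivial).hom (con (E ≫ psStr k κ) ⊤))
  have halg : ∀ r : k, algebraMap k X.functionField r =
      gm (U := ⊤) g trivial (con (E ≫ psStr k κ) ⊤ r) := fun r => rfl
  have hψ : ∀ (U : X.Opens) (p : X) (hp : p ∈ U) (s : Γ(X, U)),
      (X.presheaf.stalkSpecializes (sp p)).hom (gm p hp s) = gm g (gin U p hp) s := by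
    intro U p hp s
    exact TopCat.Presheaf.germ_stalkSpecializes_apply X.presheaf hp (sp p) s
  let h : (κ → k) →ₗ[k] X.functionField :=
    { toFun := fun d => gm g hj₀ (Xf E e d)
      map_add' := fun d d' => by rw [Xf_add L, gmA]
      map_smul' := fun r d => by
        rw [Xf_smul L, gmM, gm_con, RingHom.id_apply, Algebra.smul_def, halg] }
  have hh : ∀ d, h d = gm g hj₀ (Xf E e d) := fun d => rfl
  have key : ∀ (c d : κ → k) (hc : g ∈ Xc E c), h c ≠ 0 ∧ gm g hc (Xf E c d) = h d / h c := by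
    intro c d hc
    have h1 := gmX_mul L E c e c g hc hj₀
    rw [Xf_self L, gm1] at h1
    have h2 := gmX_mul L E c e d g hc hj₀
    rw [← hh] at h1 h2
    have h3 : h c ≠ 0 := by
      intro h0
      rw [h0, mul_zero] at h1
      exact one_ne_zero h1
    refine ⟨h3, ?_⟩
    rw [eq_div_iff h3, h2, mul_assoc, mul_comm (h d), ← mul_assoc, ← h1, one_mul]
  refine ⟨{
    K := X.functionField
    ψ := fun p => (X.presheaf.stalkSpecializes (sp p)).hom
    ψ_inj := fun p => IsFractionRing.injective (X.presheaf.stalk p) X.functionField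
    gm_eq := fun U p q hp hq s => by rw [hψ, hψ]
    gm_inj := fun U p hp s s' hs => by
      rw [hψ, hψ] at hs
      exact germ_injective_of_isIntegral X g (gin U p hp) hs
    const := fun U p hp r => by rw [hψ, gm_con, halg]
    h := h
    h_ne := fun c => ⟨fun hc => ?_, fun ⟨p, hp⟩ => (key c c (gin _ p hp)).1⟩
    quot := fun c d p hp => by rw [hψ]; exact (key c d _).2 }⟩
  -- the generic point is in `Xc E c`
  refine ⟨g, ?_⟩
  have h1 : g ∈ X.basicOpen (Xf E e c) := by
    rw [Scheme.mem_basicOpen _ _ _ hj₀]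
    exact isUnit_iff_ne_zero.2 hc
  have h2 : X.basicOpen (Xf E e c) = E ⁻¹ᵁ (PS k κ).basicOpen (linF e c) :=
    (Scheme.preimage_basicOpen E (linF e c)).symm
  rw [h2, L.bas] at h1
  exact h1.2

end Pool.Agent.Lib.MP_4ca46c_ag.Cn
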