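import Mathlib
import Pool.Agent.Lib.MP_4ca46c_ag.Cn.SpecA

/-!
# The charts are finite over the charts of the normalization (A5)
-/

namespace Pool.Agent.Lib.MP_4ca46c_ag.Cn

open Polynomial (C X)

namespace FinGenAux

variable {k K : Type} [Field k] [Field K] [Algebra k K]

theorem chart_mono {W E : Submodule k K} (h : W ≤ E) (l : K) : chart k W l ≤ chart k E l := by
  apply Algebra.adjoin_mono
  rintro t ⟨w, hw, rfl⟩
  exact ⟨w, h hw, rfl⟩

theorem int (W : Submodule k K) (l : K) (z : K) (h : HInt k W z) :
    IsIntegral (chart k W l) (z / l) := by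
  let ev : Polynomial K →ₐ[k] K := (Polynomial.aeval (R := K) (1 / l)).restrictScalars k
  have hev : ∀ a ∈ cone k W, ev a ∈ chart k W l := by
    intro a ha
    have h1 : (cone k W).map ev ≤ chart k W l := by
      rw [cone, AlgHom.map_adjoin, Algebra.adjoin_le_iff]
      rintro _ ⟨p, ⟨w, hw, rfl⟩, rfl⟩
      refine Algebra.subset_adjoin ⟨w, hw, ?_⟩
      simp [ev, div_eq_mul_inv]
    exact h1 ⟨a, ha, rfl⟩
  let φ : cone k W →ₐ[k] chart k W l :=
    (ev.comp (cone k W).val).codRestrict (chart k W l) (fun a => hev a.1 a.2)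
  have h2 := IsIntegral.map_of_comp_eq (R := cone k W) (T := chart k W l) φ.toRingHom ev.toRingHom
    (by ext a; rfl) h
  have h3 : ev.toRingHom (C z * X) = z / l := by
    simp [ev, div_eq_mul_inv]
  rw [h3] at h2
  exact h2

end FinGenAux

open FinGenAux in
theorem tFinGen : StFinGen := by
  classical
  intro k K _ _ _ W E hE hWE hint l hl
  obtain ⟨S0, hS0⟩ := (Submodule.fg_iff_finiteDimensional E).mpr hE
  let A0 : Subalgebra k K := chart k W l
  let s : Set K := ((fun z => z / l) '' (S0 : Set K))
  have hsE : ∀ z ∈ S0, z ∈ E := by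
    intro z hz
    rw [← hS0]
    exact Submodule.subset_span hz
  have hfg : (Subalgebra.toSubmodule (Algebra.adjoin A0 s)).FG := by
    apply fg_adjoin_of_finite
    · exact (Finset.finite_toSet S0).image _
    · rintro _ ⟨z, hz, rfl⟩
      exact int W l z (hint z (hsE z hz))
  obtain ⟨G, hG⟩ := hfg
  have h1 : ∀ x ∈ Algebra.adjoin A0 s, x ∈ chart k E l := by
    intro x hx
    induction hx using Algebra.adjoin_induction with
    | mem x hx =>
      obtain ⟨z, hz, rfl⟩ := hx
      exact Algebra.subset_adjoin ⟨z, hsE z hz, rfl⟩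
    | algebraMap r => exact chart_mono hWE l r.2
    | add x y _ _ hx hy => exact add_mem hx hy
    | mul x y _ _ hx hy => exact mul_mem hx hy
  have h2 : ∀ b ∈ chart k E l, b ∈ Algebra.adjoin A0 s := by
    intro b hb
    induction hb using Algebra.adjoin_induction with
    | mem x hx =>
      obtain ⟨w, hw, rfl⟩ := hx
      rw [← hS0] at hw
      induction hw using Submodule.span_induction with
      | mem z hz => exact Algebra.subset_adjoin ⟨z, hz, rfl⟩
      | zero => rw [zero_div]; exact zero_mem _
      | add a b _ _ ha hb => rw [add_div]; exact add_mem ha hb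
      | smul c a _ ha =>
        have h3 : (c • a) / l = (algebraMap k A0 c) • (a / l) := by
          rw [Algebra.smul_def, Algebra.smul_def, mul_div_assoc]
          rfl
        rw [h3]
        exact Subalgebra.smul_mem _ ha _
    | algebraMap r => exact (Algebra.adjoin A0 s).algebraMap_mem (algebraMap k A0 r)
    | add x y _ _ hx hy => exact add_mem hx hy
    | mul x y _ _ hx hy => exact mul_mem hx hy
  refine ⟨G, fun g hg => h1 g ?_, fun b hb => ?_⟩
  · have h3 : g ∈ Subalgebra.toSubmodule (Algebra.adjoin A0 s) := by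
      rw [← hG]
      exact Submodule.subset_span hg
    exact h3
  · have h3 : b ∈ Submodule.span A0 (G : Set K) := by
      rw [hG]
      exact h2 b hb
    obtain ⟨f, -, hf⟩ := Submodule.mem_span_finset.mp h3
    exact ⟨fun g => (f g : K), fun g _ => (f g).2, hf.symm⟩

end Pool.Agent.Lib.MP_4ca46c_ag.Cn
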