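import Mathlib
import Pool.Agent.Lib.MP_4ca46c_ag.Cn.SpecA

/-!
# A finite torsion-free module over a domain is almost free (A9)
-/

namespace Pool.Agent.Lib.MP_4ca46c_ag.Cn

namespace FreeAux

variable (P : Type) {K : Type} [CommRing P] [Field K] [Algebra P K]

/-- Linear independence of a finite set, by hand. -/
def LI (s : Finset K) : Prop :=
  ∀ c : K → P, ∑ x ∈ s, algebraMap P K (c x) * x = 0 → ∀ x ∈ s, c x = 0

theorem exMax (G : Finset K) : ∃ s ⊆ G, LI P s ∧ ∀ s' ⊆ G, LI P s' → s'.card ≤ s.card := by
  classical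
  have hne : (G.powerset.filter (fun s => LI P s)).Nonempty :=
    ⟨∅, Finset.mem_filter.mpr ⟨Finset.mem_powerset.mpr (Finset.empty_subset G),
      fun c _ x hx => (Finset.notMem_empty x hx).elim⟩⟩
  obtain ⟨s, hs, hmax⟩ := Finset.exists_max_image _ Finset.card hne
  rw [Finset.mem_filter, Finset.mem_powerset] at hs
  exact ⟨s, hs.1, hs.2, fun s' h1 h2 =>
    hmax s' (Finset.mem_filter.mpr ⟨Finset.mem_powerset.mpr h1, h2⟩)⟩

end FreeAux

open FreeAux in
theorem tFree : StFree := by
  classical
  intro P K _ _ _ _ hinj B hPB G hGB hgen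
  obtain ⟨s, hsG, hs, hmax⟩ := exMax P G
  -- every generator is dependent on the chosen ones
  have key : ∀ g ∈ G, ∃ (δ : P) (d : K → P), δ ≠ 0 ∧
      algebraMap P K δ * g = ∑ x ∈ s, algebraMap P K (d x) * x := by
    intro g hg
    by_cases hgs : g ∈ s
    · refine ⟨1, fun x => if x = g then 1 else 0, one_ne_zero, ?_⟩
      rw [Finset.sum_eq_single g]
      · simp
      · intro b _ hb
        simp [hb]
      · intro h
        exact (h hgs).elim
    · have h1 : ¬ LI P (insert g s) := by
        intro h2
        have h3 := hmax (insert g s) (Finset.insert_subset hg hsG) h2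
        rw [Finset.card_insert_of_notMem hgs] at h3
        omega
      simp only [LI] at h1
      push Not at h1
      obtain ⟨c, hc, x, hx, hcx⟩ := h1
      rw [Finset.sum_insert hgs] at hc
      have hg0 : c g ≠ 0 := by
        intro h0
        rw [h0, map_zero, zero_mul, zero_add] at hc
        rcases Finset.mem_insert.mp hx with h4 | h4
        · exact hcx (by rw [h4]; exact h0)
        · exact hcx (hs c hc x h4)
      refine ⟨c g, fun y => -c y, hg0, ?_⟩
      have h5 : ∑ y ∈ s, algebraMap P K (-c y) * y = -∑ y ∈ s, algebraMap P K (c y) * y := by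
        rw [← Finset.sum_neg_distrib]
        refine Finset.sum_congr rfl fun y _ => ?_
        rw [map_neg, neg_mul]
      rw [h5]
      linear_combination hc
  choose! δ d hδ0 hδ using key
  refine ⟨{x // x ∈ s}, inferInstance, fun x => x.1, ∏ g ∈ G, δ g,
    Finset.prod_ne_zero_iff.mpr fun g hg => hδ0 g hg, fun j => hGB _ (hsG j.2), ?_, ?_⟩
  · rw [Fintype.linearIndependent_iff]
    intro c hc i
    have h1 := hs (fun x => if hx : x ∈ s then c ⟨x, hx⟩ else 0) (by
      rw [← hc, ← Finset.sum_coe_sort s]
      refine Finset.sum_congr rfl fun x _ => ?_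
      rw [dif_pos x.2, Algebra.smul_def]) i.1 i.2
    rw [dif_pos i.2] at h1
    exact h1
  · intro b hb
    obtain ⟨t, ht⟩ := hgen b hb
    refine ⟨fun x => ∑ g ∈ G, t g * (∏ g' ∈ G.erase g, δ g') * d g x.1, ?_⟩
    have h1 : ∀ g ∈ G, algebraMap P K (∏ g' ∈ G, δ g') * g =
        ∑ x ∈ s, algebraMap P K ((∏ g' ∈ G.erase g, δ g') * d g x) * x := by
      intro g hg
      rw [← Finset.mul_prod_erase G δ hg, map_mul]
      have h2 := hδ g hg
      calc algebraMap P K (δ g) * algebraMap P K (∏ g' ∈ G.erase g, δ g') * g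
          = algebraMap P K (∏ g' ∈ G.erase g, δ g') * (algebraMap P K (δ g) * g) := by ring
        _ = _ := by
          rw [h2, Finset.mul_sum]
          refine Finset.sum_congr rfl fun x _ => ?_
          rw [map_mul]
          ring
    calc algebraMap P K (∏ g ∈ G, δ g) * b
        = ∑ g ∈ G, algebraMap P K (t g) * (algebraMap P K (∏ g' ∈ G, δ g') * g) := by
          rw [ht, Finset.mul_sum]
          refine Finset.sum_congr rfl fun g _ => ?_
          ring
      _ = ∑ g ∈ G, ∑ x ∈ s, algebraMap P K (t g * (∏ g' ∈ G.erase g, δ g') * d g x) * x := by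
          refine Finset.sum_congr rfl fun g hg => ?_
          rw [h1 g hg, Finset.mul_sum]
          refine Finset.sum_congr rfl fun x _ => ?_
          simp only [map_mul]
          ring
      _ = ∑ x ∈ s, algebraMap P K (∑ g ∈ G, t g * (∏ g' ∈ G.erase g, δ g') * d g x) * x := by
          rw [Finset.sum_comm]
          refine Finset.sum_congr rfl fun x _ => ?_
          rw [map_sum, Finset.sum_mul]
      _ = _ := by
          rw [← Finset.sum_coe_sort s]

end Pool.Agent.Lib.MP_4ca46c_ag.Cn
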