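import Mathlib
import Pool.Agent.Lib.MP_4ca46c_ag.Cn.SpecB

/-!
# The idempotents on the charts
-/

set_option autoImplicit false

namespace Pool.Agent.Lib.MP_4ca46c_ag.Cn

open CategoryTheory Limits AlgebraicGeometry Opposite
open Pool.Agent.Lib.MP_4ca46c_ag.Sign Pool.Agent.Lib.MP_4ca46c_ag.Hyp
open Pool.Agent.Lib.MP_4ca46c_ag.Std Pool.Agent.Lib.MP_4ca46c_ag.T2

namespace IdDAux

/-- sections are equal if their germs are -/
theorem sec_ext {D : Scheme.{0}} {U : D.Opens} {s t : Γ(D, U)}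
    (h : ∀ (P : D) (hP : P ∈ U), gm P hP s = gm P hP t) : s = t :=
  TopCat.Presheaf.section_ext D.sheaf U s t h

/-- the germ of zero -/
theorem gm_zero {D : Scheme.{0}} {U : D.Opens} (P : D) (hP : P ∈ U) :
    gm P hP (0 : Γ(D, U)) = 0 := by
  rw [gm, map_zero]

/-- the germ of a restriction -/
theorem gm_res {D : Scheme.{0}} {U V : D.Opens} (hVU : V ⟶ U) (P : D) (hP : P ∈ V)
    (s : Γ(D, U)) : gm P hP (D.presheaf.map hVU.op s) = gm P (hVU.le hP) s :=
  D.presheaf.germ_res_apply hVU P hP s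

/-- a function whose germs vanish on a basic open set -/
theorem pow_kill {D : Scheme.{0}} {U : D.Opens} (hU : IsAffineOpen U) (x f : Γ(D, U))
    (H : ∀ (P : D) (hP : P ∈ D.basicOpen f), gm P (D.basicOpen_le f hP) x = 0) :
    ∃ n : ℕ, f ^ n * x = 0 := by
  apply exists_pow_mul_eq_zero_of_res_basicOpen_eq_zero_of_isAffineOpen D hU x f
  refine sec_ext fun P hP => ?_
  rw [gm, gm, map_zero]
  exact (gm_res (homOfLE (D.basicOpen_le f)) P hP x).trans (H P hP)

/-- the stalk map on germs -/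
theorem gm_stalk {D X : Scheme.{0}} (i : D ⟶ X) {U : X.Opens} (P : D) (hP : i P ∈ U)
    (s : Γ(X, U)) : i.stalkMap P (gm (i P) hP s) = gm (U := i ⁻¹ᵁ U) P hP (i.app U s) :=
  Scheme.Hom.germ_stalkMap_apply i U P hP s

end IdDAux

open IdDAux

theorem tIdD (hLin : StLin) (hChartEq : StChartEq) (hKer : StKer) (hClop : StClop) : StIdD := by
  classical
  intro k κ _ _ X D _ E hE F a i hi hHZ U V hUV hUV'
  have LF := hLin k κ
  obtain ⟨ε, hε1, hε0⟩ := hClop D U V hUV hUV'
  have hUVor : ∀ P : D, P ∈ U ∨ P ∈ V := by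
    intro P
    have h1 : P ∈ U ⊔ V := by rw [hUV']; trivial
    exact h1
  have haff : ∀ c, IsAffineOpen (Xc E c) := fun c => (LF.affine c).preimage E
  -- lifts of the idempotent
  have hlift : ∀ c, ∃ s : Γ(X, Xc E c), i.app (Xc E c) s =
      D.presheaf.map (homOfLE (le_top : i ⁻¹ᵁ Xc E c ≤ ⊤)).op ε := fun c =>
    i.app_surjective (Xc E c) (haff c) _
  choose s hs using hlift
  have hgs : ∀ (c : κ → k) (P : D) (hP : i P ∈ Xc E c),
      i.stalkMap P (gm (i P) hP (s c)) = gm (U := ⊤) P trivial ε := by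
    intro c P hP
    rw [gm_stalk, hs]
    exact gm_res _ P hP ε
  -- values
  have hval : ∀ (c d : κ → k) (p : X) (hp : p ∈ Xc E c),
      F.ψ p (gm p hp (Xf E c d)) = F.h d / F.h c := fun c d p hp => F.quot c d p hp
  have hpt : ∀ c, F.h c ≠ 0 → ∃ p, p ∈ Xc E c := fun c => (F.h_ne c).1
  have hpt' : ∀ c p, p ∈ Xc E c → F.h c ≠ 0 := fun c p hp => (F.h_ne c).2 ⟨p, hp⟩
  let e : (κ → k) → F.K := fun c => if hc : F.h c ≠ 0 then
    F.ψ (hpt c hc).choose (gm _ (hpt c hc).choose_spec (s c)) else 0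
  have he : ∀ (c : κ → k) (p : X) (hp : p ∈ Xc E c), e c = F.ψ p (gm p hp (s c)) := by
    intro c p hp
    have hc := hpt' c p hp
    simp only [e, dif_pos hc]
    exact F.gm_eq _ _ _ _ _ _
  have hchart : ∀ (c : κ → k) (p : X) (hp : p ∈ Xc E c) (b : Γ(X, Xc E c)),
      F.ψ p (gm p hp b) ∈ chart k (LinearMap.range F.h) (F.h c) := fun c p hp b =>
    (hChartEq k κ X E hE F c p hp _).2 ⟨b, rfl⟩
  have hK := hKer k κ X D E hE a i hHZ
  refine ⟨e, fun c hc => ?_, fun c hc => ?_, fun c hc c' hc' => ?_, fun c P hP => ⟨fun hPU => ?_,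
    fun hPV => ?_, fun t ht hu => ?_⟩⟩
  · obtain ⟨p, hp⟩ := hpt c hc
    rw [he c p hp]
    exact hchart c p hp _
  · obtain ⟨p, hp⟩ := hpt c hc
    have h0 : i.app (Xc E c) (s c ^ 2 - s c) = 0 := by
      refine sec_ext fun P hP => ?_
      rw [← gm_stalk, gm, map_sub, map_pow, map_sub, map_pow]
      have h1 := hgs c P hP
      change i.stalkMap P (gm (i P) hP (s c)) ^ 2 - i.stalkMap P (gm (i P) hP (s c)) = _
      rw [h1, gm_zero]
      rcases hUVor P with hP' | hP'
      · rw [hε1 P hP']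
        ring
      · rw [hε0 P hP']
        ring
    obtain ⟨s', hs'⟩ := (hK c _).1 h0
    refine ⟨F.ψ p (gm p hp s'), hchart c p hp s', ?_⟩
    have h2 := congrArg (fun z => F.ψ p (gm p hp z)) hs'
    simp only [gm, map_sub, map_pow, map_mul] at h2
    rw [he c p hp, ← hval c a p hp]
    exact h2
  · -- a point in both charts
    have hbas : X.basicOpen (Xf E c c') = Xc E c ⊓ Xc E c' := by
      rw [← Scheme.preimage_basicOpen, LF.bas]
      rfl
    obtain ⟨p, hp, hp'⟩ : ∃ p, p ∈ Xc E c ∧ p ∈ Xc E c' := by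
      obtain ⟨q, hq⟩ := hpt c hc
      obtain ⟨q', hq'⟩ := hpt c' hc'
      exact nonempty_preirreducible_inter (Xc E c).isOpen (Xc E c').isOpen ⟨q, hq⟩ ⟨q', hq'⟩
    have hle' : X.basicOpen (Xf E c c') ≤ Xc E c' := by
      rw [hbas]
      exact inf_le_right
    have := (haff c).isLocalization_basicOpen (Xf E c c')
    obtain ⟨n, b, hb⟩ := IsLocalization.Away.surj (Xf E c c')
      (X.presheaf.map (homOfLE hle').op (s c') : Γ(X, X.basicOpen (Xf E c c')))
    have hgb : ∀ (q : X) (hq : q ∈ Xc E c) (hq' : q ∈ Xc E c'),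
        gm q hq' (s c') * gm q hq (Xf E c c') ^ n = gm q hq b := by
      intro q hq hq'
      have hq2 : q ∈ X.basicOpen (Xf E c c') := by
        rw [hbas]
        exact ⟨hq, hq'⟩
      have h1 := congrArg (fun z => gm q hq2 z) hb
      simp only [gm, map_mul, map_pow] at h1
      have h2 : ∀ z : Γ(X, Xc E c), X.presheaf.germ _ q hq2
          (algebraMap Γ(X, Xc E c) Γ(X, X.basicOpen (Xf E c c')) z) = gm q hq z := fun z =>
        gm_res (homOfLE (X.basicOpen_le (Xf E c c'))) q hq2 z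
      rw [h2, h2] at h1
      rw [← h1]
      congr 1
      exact (gm_res (homOfLE hle') q hq2 (s c')).symm
    have hy : ∃ m : ℕ, (i.app (Xc E c) (Xf E c c')) ^ m *
        i.app (Xc E c) (b - Xf E c c' ^ n * s c) = 0 := by
      refine pow_kill ((haff c).preimage i) _ _ fun P hP => ?_
      rw [← Scheme.preimage_basicOpen] at hP
      have hP2 : i P ∈ X.basicOpen (Xf E c c') := hP
      rw [hbas] at hP2
      obtain ⟨hPc, hPc'⟩ := hP2
      have h1 := gm_stalk i P hPc (b - Xf E c c' ^ n * s c)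
      refine h1.symm.trans ?_
      rw [gm, map_sub, map_mul, map_pow]
      have h2 := hgb (i P) hPc hPc'
      rw [gm, gm, gm] at h2
      rw [← h2, map_sub, map_mul, map_mul, map_pow]
      have h3 := hgs c P hPc
      have h4 := hgs c' P hPc'
      rw [gm, gm] at h3 h4
      rw [h3, h4]
      ring
    obtain ⟨m, hm⟩ := hy
    have h0 : i.app (Xc E c) (Xf E c c' ^ m * (b - Xf E c c' ^ n * s c)) = 0 := by
      rw [map_mul, map_pow]
      exact hm
    obtain ⟨s', hs'⟩ := (hK c _).1 h0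
    refine ⟨m + n, -F.ψ p (gm p hp s'), neg_mem (hchart c p hp s'), ?_⟩
    have h2 := congrArg (fun z => F.ψ p (gm p hp z)) hs'
    have h3 := congrArg (F.ψ p) (hgb p hp hp')
    have h4 := hval c c' p hp
    have h5 := hval c a p hp
    have h6 := he c p hp
    have h7 := he c' p hp'
    simp only [gm, map_sub, map_pow, map_mul] at h2 h3 h4 h5 h6 h7
    rw [h4, h5, ← h6] at h2
    rw [h4, ← h7] at h3
    rw [← h3] at h2
    simp only [gm]
    linear_combination -h2
  · have h1 := hgs c P hP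
    rw [hε1 P hPU] at h1
    refine ⟨gm (i P) hP (s c), ?_, (he c _ hP).symm⟩
    refine isUnit_of_map_unit (i.stalkMap P).hom _ ?_
    change IsUnit (i.stalkMap P (gm (i P) hP (s c)))
    rw [h1]
    exact isUnit_one
  · have h1 := hgs c P hP
    rw [hε0 P hPV] at h1
    refine ⟨1 - gm (i P) hP (s c), ?_, by rw [map_sub, map_one, ← he c _ hP]⟩
    refine isUnit_of_map_unit (i.stalkMap P).hom _ ?_
    rw [map_sub, map_one]
    change IsUnit (1 - i.stalkMap P (gm (i P) hP (s c)))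
    rw [h1, sub_zero]
    exact isUnit_one
  · have h1 : t = gm (i P) hP (Xf E c a) := F.ψ_inj _ (by rw [ht, hval])
    have h2 : i.app (Xc E c) (Xf E c a) = 0 := (hK c _).2 ⟨1, (mul_one _).symm⟩
    have h3 := gm_stalk i P hP (Xf E c a)
    rw [h2, ← h1] at h3
    have h4 : i.stalkMap P t = 0 := h3.trans (by rw [gm, map_zero])
    have h5 : IsUnit (i.stalkMap P t) := hu.map (i.stalkMap P).hom
    rw [h4] at h5
    exact not_isUnit_zero h5

end Pool.Agent.Lib.MP_4ca46c_ag.Cn
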