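import Mathlib
import Pool.Agent.Lib.MP_4ca46c_ag.Cn.SpecA

/-!
# Lifting idempotents (A8)
-/

namespace Pool.Agent.Lib.MP_4ca46c_ag.Cn

namespace IdmAux

theorem pow_near {R : Type} [CommRing R] (u e : R) (h : u ∣ e ^ 2 - e) (N : ℕ) (hN : 1 ≤ N) :
    u ∣ e ^ N - e := by
  obtain ⟨n, rfl⟩ : ∃ n, N = n + 1 := ⟨N - 1, by omega⟩
  have h1 : e - 1 ∣ e ^ n - 1 := by
    have := sub_dvd_pow_sub_pow e 1 n
    rwa [one_pow] at this
  have h2 : e * (e - 1) ∣ e * (e ^ n - 1) := mul_dvd_mul_left e h1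
  have e1 : e * (e - 1) = e ^ 2 - e := by ring
  have e2 : e * (e ^ n - 1) = e ^ (n + 1) - e := by ring
  rw [e1, e2] at h2
  exact h.trans h2

theorem part1 {R : Type} [CommRing R] (u e : R) (h : u ∣ e ^ 2 - e) (N : ℕ) (hN : 1 ≤ N) :
    u ^ N ∣ lift e N ^ 2 - lift e N ∧ u ∣ lift e N - e := by
  have h1 : e ^ N ∣ lift e N := by
    have := sub_dvd_pow_sub_pow 1 (1 - e ^ N) N
    rw [one_pow, sub_sub_cancel] at this
    exact this
  have h2 : 1 - e ∣ 1 - e ^ N := by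
    have := sub_dvd_pow_sub_pow 1 e N
    rwa [one_pow] at this
  have h3 : (1 - e) ^ N ∣ (1 - e ^ N) ^ N := pow_dvd_pow_of_dvd h2 N
  have h4 : e ^ N * (1 - e) ^ N ∣ lift e N * (1 - e ^ N) ^ N := mul_dvd_mul h1 h3
  have h5 : u ∣ e * (1 - e) := by
    have : e * (1 - e) = -(e ^ 2 - e) := by ring
    rw [this]
    exact (dvd_neg).2 h
  have h6 : u ^ N ∣ e ^ N * (1 - e) ^ N := by
    rw [← mul_pow]
    exact pow_dvd_pow_of_dvd h5 N
  have h7 : lift e N ^ 2 - lift e N = -(lift e N * (1 - e ^ N) ^ N) := by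
    unfold lift
    ring
  refine ⟨?_, ?_⟩
  · rw [h7, dvd_neg]
    exact h6.trans h4
  · have k1 : u ∣ e ^ N - e := pow_near u e h N hN
    have k2 : u ∣ (1 - e) ^ 2 - (1 - e) := by
      have : (1 - e) ^ 2 - (1 - e) = e ^ 2 - e := by ring
      rw [this]
      exact h
    have k3 : u ∣ (1 - e) ^ N - (1 - e) := pow_near u (1 - e) k2 N hN
    have k4 : u ∣ (1 - e ^ N) ^ N - (1 - e) ^ N := by
      refine Dvd.dvd.trans ?_ (sub_dvd_pow_sub_pow (1 - e ^ N) (1 - e) N)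
      have : (1 - e ^ N) - (1 - e) = -(e ^ N - e) := by ring
      rw [this, dvd_neg]
      exact k1
    have k5 : lift e N - e = -((1 - e ^ N) ^ N - (1 - e) ^ N) - ((1 - e) ^ N - (1 - e)) := by
      unfold lift
      ring
    rw [k5]
    exact dvd_sub ((dvd_neg).2 k4) k3

theorem part2 {R : Type} [CommRing R] (u a b : R) (N : ℕ) (ha : u ^ N ∣ a ^ 2 - a)
    (hb : u ^ N ∣ b ^ 2 - b) (hab : u ∣ a - b) : u ^ N ∣ a - b := by
  have h1 : u ^ N ∣ (a - b) ^ 3 - (a - b) := by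
    have e : (a - b) ^ 3 - (a - b) =
        (a ^ 2 - a) * (a + 1 - 3 * b) - (b ^ 2 - b) * (b + 1 - 3 * a) := by ring
    rw [e]
    exact dvd_sub (Dvd.dvd.mul_right ha _) (Dvd.dvd.mul_right hb _)
  have h2 : ∀ j : ℕ, u ^ N ∣ (a - b) ^ (3 ^ j) - (a - b) := by
    intro j
    induction j with
    | zero => simp
    | succ j ih =>
      have e : (a - b) ^ (3 ^ (j + 1)) - (a - b) =
          (((a - b) ^ (3 ^ j)) ^ 3 - (a - b) ^ 3) + ((a - b) ^ 3 - (a - b)) := by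
        rw [pow_succ 3 j, pow_mul]
        ring
      rw [e]
      exact dvd_add (ih.trans (sub_dvd_pow_sub_pow _ _ 3)) h1
  have h3 : u ^ N ∣ (a - b) ^ (3 ^ N) := by
    refine (pow_dvd_pow u ?_).trans (pow_dvd_pow_of_dvd hab (3 ^ N))
    exact (Nat.lt_pow_self (by norm_num)).le
  have h4 := dvd_sub h3 (h2 N)
  rwa [sub_sub_cancel] at h4

end IdmAux

theorem tIdm : StIdm := by
  intro R _ u
  exact ⟨fun e h N hN => IdmAux.part1 u e h N hN, fun a b N ha hb hab => IdmAux.part2 u a b N ha hb hab⟩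

end Pool.Agent.Lib.MP_4ca46c_ag.Cn
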