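import Mathlib
import Pool.Agent.Lib.MP_4ca46c_ag.Cn.SpecB
import Pool.Agent.Lib.MP_4ca46c_ag.Std.IsoPt

/-!
# B7: `D` is not finite (helper84)
-/

namespace Pool.Agent.Lib.MP_4ca46c_ag.Cn

open CategoryTheory Limits AlgebraicGeometry Opposite
open Pool.Agent.Lib.MP_4ca46c_ag.Sign Pool.Agent.Lib.MP_4ca46c_ag.Hyp
open Pool.Agent.Lib.MP_4ca46c_ag.Std Pool.Agent.Lib.MP_4ca46c_ag.T2

attribute [local instance] MvPolynomial.gradedAlgebra

namespace InfAux

/-- The spectrum of a finite algebra over a field is discrete. -/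
theorem discrete {k B ι : Type} [Field k] [CommRing B] (φ : k →+* B) (G : Finset ι) (t : ι → B)
    (h : ∀ b : B, ∃ r : ι → k, b = ∑ g ∈ G, φ (r g) * t g) :
    DiscreteTopology (PrimeSpectrum B) := by
  classical
  let _ : Algebra k B := φ.toAlgebra
  have hfin : Module.Finite k B := by
    refine ⟨⟨G.image t, ?_⟩⟩
    rw [eq_top_iff]
    intro b _
    obtain ⟨r, rfl⟩ := h b
    refine Submodule.sum_mem _ fun g hg => ?_
    have h1 : φ (r g) * t g = r g • t g := (Algebra.smul_def (r g) (t g)).symm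
    rw [h1]
    refine Submodule.smul_mem _ _ (Submodule.subset_span ?_)
    exact Finset.mem_coe.2 (Finset.mem_image_of_mem t hg)
  have hart : IsArtinianRing B := IsArtinianRing.of_finite k B
  infer_instance

/-- A point of an affine open set with a discrete spectrum is open. -/
theorem isOpen_point {D : Scheme.{0}} {W : D.Opens} (hW : IsAffineOpen W)
    (h : DiscreteTopology (PrimeSpectrum Γ(D, W))) {P : D} (hP : P ∈ W) :
    IsOpen ({P} : Set D) := by
  obtain ⟨x, rfl⟩ : ∃ x : Spec Γ(D, W), hW.fromSpec x = P := by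
    have h1 : P ∈ Set.range hW.fromSpec := by
      rw [hW.range_fromSpec]
      exact hP
    exact h1
  have h2 : IsOpen ({x} : Set (Spec Γ(D, W))) := @isOpen_discrete (PrimeSpectrum Γ(D, W)) _ h {x}
  have h3 := hW.fromSpec.isOpenEmbedding.isOpenMap _ h2
  rwa [Set.image_singleton] at h3

end InfAux

theorem tInf (hLin : StLin) (hChartEq : StChartEq) (hKer : StKer) : StInf := by
  classical
  intro k κ _ _ X D _ E hE F a i hi hHZ m hm hsm c P hP
  rintro ⟨G, hG, hgen⟩
  have hU : IsAffineOpen (Xc E c) := ((hLin k κ).affine c).preimage E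
  have hch := hChartEq k κ X E hE F c (i P) hP
  have hker := hKer k κ X D E hE a i hHZ c
  have ht : ∀ g : F.K, ∃ s : Γ(X, Xc E c), g ∈ G → F.ψ (i P) (gm (i P) hP s) = g := by
    intro g
    by_cases hg : g ∈ G
    · obtain ⟨s, hs⟩ := (hch g).1 (hG g hg)
      exact ⟨s, fun _ => hs⟩
    · exact ⟨0, fun h => absurd h hg⟩
  choose t ht using ht
  have hdisc : DiscreteTopology (PrimeSpectrum Γ(D, i ⁻¹ᵁ Xc E c)) := by
    refine InfAux.discrete ((i.app (Xc E c)).hom.comp (con (E ≫ psStr k κ) (Xc E c))) G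
      (fun g => i.app (Xc E c) (t g)) fun b => ?_
    obtain ⟨s, rfl⟩ := i.app_surjective (Xc E c) hU b
    obtain ⟨r, b', hb', hs⟩ := hgen _ ((hch _).2 ⟨s, rfl⟩)
    obtain ⟨s', rfl⟩ := (hch b').1 hb'
    refine ⟨r, ?_⟩
    have h1 : s = (∑ g ∈ G, con (E ≫ psStr k κ) (Xc E c) (r g) * t g) + Xf E c a * s' := by
      apply F.gm_inj (Xc E c) (i P) hP
      rw [hs, gm, gm, map_add, map_add, map_mul, map_mul, F.quot, map_sum, map_sum]
      congr 1
      refine Finset.sum_congr rfl fun g hg => ?_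
      rw [map_mul, map_mul, F.const, ht g hg, Algebra.smul_def]
    have h2 : i.app (Xc E c) (Xf E c a * s') = 0 := (hker _).2 ⟨s', rfl⟩
    rw [h1, map_add, h2, add_zero, map_sum]
    refine Finset.sum_congr rfl fun g _ => ?_
    rw [map_mul]
    rfl
  exact tIso k D (i ≫ E ≫ psStr k κ) m hm hsm P
    (InfAux.isOpen_point (hU.preimage i) hdisc hP)

end Pool.Agent.Lib.MP_4ca46c_ag.Cn
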