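import Mathlib
import Pool.Agent.Lib.MP_4ca46c_ag.Cn.SpecB

/-!
# The ideal of a hyperplane section on an affine chart
-/

namespace Pool.Agent.Lib.MP_4ca46c_ag.Cn

open CategoryTheory Limits AlgebraicGeometry Opposite
open Pool.Agent.Lib.MP_4ca46c_ag.Sign Pool.Agent.Lib.MP_4ca46c_ag.Hyp
open Pool.Agent.Lib.MP_4ca46c_ag.Std Pool.Agent.Lib.MP_4ca46c_ag.T2

attribute [local instance] MvPolynomial.gradedAlgebra

namespace KerAux

variable {k κ : Type} [Field k] [Fintype κ] [DecidableEq κ]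

theorem fmul (L : LinFacts k κ) {T : Scheme.{0}} (z : T ⟶ PS k κ) (W : T.Opens)
    (c d d' : κ → k) (hc : W ≤ z ⁻¹ᵁ linD c) (hd : W ≤ z ⁻¹ᵁ linD d) :
    z.appLE (linD c) W hc (linF c d') =
      z.appLE (linD c) W hc (linF c d) * z.appLE (linD d) W hd (linF d d') := by
  have h := congrArg (z.appLE (linD c ⊓ linD d) W (le_inf hc hd)) (L.mul c d d')
  rw [map_mul, ← CommRingCat.comp_apply, ← CommRingCat.comp_apply, ← CommRingCat.comp_apply,
    Scheme.Hom.map_appLE, Scheme.Hom.map_appLE] at h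
  exact h

/-- the constants, associativity -/
theorem con_assoc {T X : Scheme.{0}} (t : T ⟶ X) (E : X ⟶ PS k κ) (a : κ → k) :
    (fun j => con (t ≫ E ≫ psStr k κ) ⊤ (a j)) =
      fun j => con ((t ≫ E) ≫ psStr k κ) ⊤ (a j) := by
  rw [Category.assoc]

/-- a section which vanishes on an open cover -/
theorem zero_of_cover {T : Scheme.{0}} {ι : Type} (U : T.Opens) (W : ι → T.Opens)
    (hW : ∀ j, W j ≤ U) (hcov : U ≤ iSup W) (x : Γ(T, U))
    (hx : ∀ j, T.presheaf.map (homOfLE (hW j)).op x = 0) : x = 0 := by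
  refine T.sheaf.eq_of_locally_eq' W U (fun j => homOfLE (hW j)) hcov x 0 fun j => ?_
  refine (hx j).trans ?_
  exact (map_zero (T.presheaf.map (homOfLE (hW j)).op).hom).symm

/-- the equation vanishes -/
theorem van_zero (L : LinFacts k κ) {T : Scheme.{0}} (z : T ⟶ PS k κ) (a c : κ → k)
    (h : (PreCoord.ps k κ).Van z (fun j => con (z ≫ psStr k κ) ⊤ (a j))) :
    z.app (linD c) (linF c a) = 0 := by
  refine zero_of_cover _ (fun j : κ => z ⁻¹ᵁ linD c ⊓ z ⁻¹ᵁ psD j) (fun j => inf_le_left) ?_ _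
    fun j => ?_
  · have h1 : (⨆ j : κ, z ⁻¹ᵁ psD (k := k) j) = ⊤ := by
      rw [← Scheme.Hom.preimage_iSup, iSup_psD, Scheme.Hom.preimage_top]
    rw [← inf_iSup_eq, h1]
    exact le_inf le_rfl le_top
  · have e1 : T.presheaf.map (homOfLE (inf_le_left (a := z ⁻¹ᵁ linD c)
        (b := z ⁻¹ᵁ psD j))).op (z.app (linD c) (linF c a)) =
        z.appLE (linD c) (z ⁻¹ᵁ linD c ⊓ z ⁻¹ᵁ psD j) inf_le_left (linF c a) := by
      rw [← CommRingCat.comp_apply]
      rfl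
    rw [e1]
    have hj : z ⁻¹ᵁ linD c ⊓ z ⁻¹ᵁ psD j ≤ z ⁻¹ᵁ linD (Pi.single j (1 : k)) := by
      rw [L.singleD j]
      exact inf_le_right
    rw [fmul L z _ c (Pi.single j 1) a inf_le_left hj,
      L.single j a T z (z ⁻¹ᵁ linD c ⊓ z ⁻¹ᵁ psD j) hj inf_le_right]
    have h2 := (PreCoord.ps k κ).eqn_res z (fun j => con (z ≫ psStr k κ) ⊤ (a j)) j
      (W := z ⁻¹ᵁ psD j) (W' := z ⁻¹ᵁ linD c ⊓ z ⁻¹ᵁ psD j) le_rfl inf_le_right
    have h3 : (PreCoord.ps k κ).eqn z (fun j => con (z ≫ psStr k κ) ⊤ (a j)) j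
      (z ⁻¹ᵁ psD j) le_rfl = 0 := h j
    rw [h3, map_zero] at h2
    rw [← h2, mul_zero]

/-- and conversely, for morphisms to `D_+(c)` -/
theorem zero_van (L : LinFacts k κ) {T : Scheme.{0}} (z : T ⟶ PS k κ) (a c : κ → k)
    (hc : ⊤ ≤ z ⁻¹ᵁ linD c) (h0 : z.appLE (linD c) ⊤ hc (linF c a) = 0) :
    (PreCoord.ps k κ).Van z (fun j => con (z ≫ psStr k κ) ⊤ (a j)) := by
  intro j
  have hj : z ⁻¹ᵁ psD (k := k) j ≤ z ⁻¹ᵁ linD (Pi.single j (1 : k)) := by
    rw [L.singleD j]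
  have h1 := L.single j a T z (z ⁻¹ᵁ psD j) hj le_rfl
  refine h1.symm.trans ?_
  rw [fmul L z _ (Pi.single j 1) c a hj (le_top.trans hc)]
  have h2 : z.appLE (linD c) (z ⁻¹ᵁ psD j) (le_top.trans hc) (linF c a) =
      T.presheaf.map (homOfLE le_top).op (z.appLE (linD c) ⊤ hc (linF c a)) := by
    rw [← CommRingCat.comp_apply, Scheme.Hom.appLE_map]
  rw [h2, h0, map_zero, mul_zero]
  rfl

end KerAux

open KerAux in
theorem tKer (hLin : StLin) : StKer := by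
  classical
  intro k κ _ _ X D E hE a i hZ c s
  have L := hLin k κ
  have hU : IsAffineOpen (Xc E c) := (L.affine c).preimage E
  constructor
  · intro hs
    let q : Γ(X, Xc E c) ⟶ CommRingCat.of (Γ(X, Xc E c) ⧸ Ideal.span {Xf E c a}) :=
      CommRingCat.ofHom (Ideal.Quotient.mk _)
    let t : Spec (CommRingCat.of (Γ(X, Xc E c) ⧸ Ideal.span {Xf E c a})) ⟶ X :=
      Spec.map q ≫ hU.fromSpec
    have ht : ⊤ ≤ t ⁻¹ᵁ Xc E c := by
      show ⊤ ≤ Spec.map q ⁻¹ᵁ (hU.fromSpec ⁻¹ᵁ Xc E c)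
      rw [hU.fromSpec_preimage_self, Scheme.Hom.preimage_top]
    have happ : ∀ r : Γ(X, Xc E c), t.appLE (Xc E c) ⊤ ht r = (Scheme.ΓSpecIso
        (CommRingCat.of (Γ(X, Xc E c) ⧸ Ideal.span {Xf E c a}))).inv (q r) := by
      intro r
      have h1 : t.appLE (Xc E c) ⊤ ht = q ≫ (Scheme.ΓSpecIso
          (CommRingCat.of (Γ(X, Xc E c) ⧸ Ideal.span {Xf E c a}))).inv := by
        rw [Scheme.Hom.comp_appLE, hU.fromSpec_app_self, Category.assoc, Scheme.Hom.map_appLE]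
        rw [Scheme.ΓSpecIso_inv_naturality]
        rfl
      exact congrArg (fun φ => φ.hom r) h1
    have hv : (PreCoord.ps k κ).Van (t ≫ E) (fun j => con (t ≫ E ≫ psStr k κ) ⊤ (a j)) := by
      rw [con_assoc]
      refine zero_van L (t ≫ E) a c ht ?_
      have h1 : (t ≫ E).appLE (linD c) ⊤ ht (linF c a) = t.appLE (Xc E c) ⊤ ht (Xf E c a) := by
        rw [Scheme.Hom.comp_appLE]
        rfl
      rw [h1, happ]
      have h2 : q (Xf E c a) = 0 := Ideal.Quotient.eq_zero_iff_mem.2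
        (Ideal.subset_span rfl)
      rw [h2, map_zero]
    obtain ⟨v, hvt⟩ := (hZ _ t).2 hv
    have h3 : t.appLE (Xc E c) ⊤ ht s = 0 := by
      have key : ∀ (t' : Spec (CommRingCat.of (Γ(X, Xc E c) ⧸ Ideal.span {Xf E c a})) ⟶ X)
          (_ : t' = t) (h' : ⊤ ≤ t' ⁻¹ᵁ Xc E c),
          t.appLE (Xc E c) ⊤ ht s = t'.appLE (Xc E c) ⊤ h' s := by
        rintro _ rfl _
        rfl
      rw [key _ hvt (by rw [hvt]; exact ht), Scheme.Hom.comp_appLE, CommRingCat.comp_apply, hs,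
        map_zero]
    rw [happ] at h3
    have h4 : q s = 0 := by
      have h5 := congrArg (Scheme.ΓSpecIso
        (CommRingCat.of (Γ(X, Xc E c) ⧸ Ideal.span {Xf E c a}))).hom h3
      rw [map_zero, ← CommRingCat.comp_apply, Iso.inv_hom_id] at h5
      exact h5
    have h6 : s ∈ Ideal.span {Xf E c a} := Ideal.Quotient.eq_zero_iff_mem.1 h4
    obtain ⟨s', hs'⟩ := Ideal.mem_span_singleton'.1 h6
    exact ⟨s', hs'.symm.trans (mul_comm _ _)⟩
  · rintro ⟨s', rfl⟩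
    have h1 : (PreCoord.ps k κ).Van (i ≫ E) (fun j => con ((i ≫ E) ≫ psStr k κ) ⊤ (a j)) := by
      rw [← con_assoc]
      exact (hZ D i).1 ⟨𝟙 _, Category.id_comp _⟩
    have h2 := van_zero L (i ≫ E) a c h1
    have h3 : i.app (Xc E c) (Xf E c a) = 0 := by
      refine Eq.trans ?_ h2
      rw [Scheme.Hom.comp_app]
      rfl
    rw [map_mul, h3, zero_mul]

end Pool.Agent.Lib.MP_4ca46c_ag.Cn
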