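import Mathlib
import Pool.Agent.Lib.MP_4ca46c_ag.Cn.SpecB

/-!
# Linear forms on projective space, part A
-/

namespace Pool.Agent.Lib.MP_4ca46c_ag.Cn

open CategoryTheory Limits AlgebraicGeometry Opposite HomogeneousLocalization MvPolynomial
open Pool.Agent.Lib.MP_4ca46c_ag.Sign Pool.Agent.Lib.MP_4ca46c_ag.Hyp
open Pool.Agent.Lib.MP_4ca46c_ag.Std Pool.Agent.Lib.MP_4ca46c_ag.T2

attribute [local instance] MvPolynomial.gradedAlgebra

namespace LinAAux

variable {k : Type} [Field k] {κ : Type}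

/-- The fraction `z / y`. -/
noncomputable def fr (y z : MvPolynomial κ k) (hy : y ∈ homogeneousSubmodule κ k 1)
    (hz : z ∈ homogeneousSubmodule κ k 1) : Away (homogeneousSubmodule κ k) y :=
  Away.mk (homogeneousSubmodule κ k) hy 1 z (by simpa using hz)

theorem gsec_eq (y z : MvPolynomial κ k) (hy : y ∈ homogeneousSubmodule κ k 1)
    (hz : z ∈ homogeneousSubmodule κ k 1) :
    gsec y z hy hz = Proj.awayToSection (homogeneousSubmodule κ k) y (fr y z hy hz) := rfl

theorem fr_self (y : MvPolynomial κ k) (hy : y ∈ homogeneousSubmodule κ k 1) :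
    fr y y hy hy = 1 := by
  refine HomogeneousLocalization.val_injective _ ?_
  rw [fr, Away.val_mk, val_one]
  rw [← Localization.mk_one, Localization.mk_eq_mk_iff, Localization.r_iff_exists]
  exact ⟨1, by simp⟩

theorem gsec_self (y : MvPolynomial κ k) (hy : y ∈ homogeneousSubmodule κ k 1) :
    gsec y y hy hy = 1 := by
  rw [gsec_eq, fr_self, map_one]

theorem gsec_mul (y z w : MvPolynomial κ k) (hy : y ∈ homogeneousSubmodule κ k 1)
    (hz : z ∈ homogeneousSubmodule κ k 1) (hw : w ∈ homogeneousSubmodule κ k 1) :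
    (PS k κ).presheaf.map (homOfLE inf_le_left).op (gsec y w hy hw) =
    ((PS k κ).presheaf.map (homOfLE inf_le_left).op (gsec y z hy hz) *
      (PS k κ).presheaf.map (homOfLE inf_le_right).op (gsec z w hz hw) :
      Γ(PS k κ, Proj.basicOpen (homogeneousSubmodule κ k) y ⊓
        Proj.basicOpen (homogeneousSubmodule κ k) z)) := by
  have e : Proj.basicOpen (homogeneousSubmodule κ k) (y * z) =
      Proj.basicOpen (homogeneousSubmodule κ k) y ⊓ Proj.basicOpen (homogeneousSubmodule κ k) z :=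
    Proj.basicOpen_mul _ _ _
  have inj : Function.Injective ((PS k κ).presheaf.map (homOfLE (le_of_eq e)).op) := by
    have : IsIso (homOfLE (le_of_eq e)) := ⟨homOfLE (le_of_eq e.symm), rfl, rfl⟩
    exact (ConcreteCategory.bijective_of_isIso ((PS k κ).presheaf.map (homOfLE (le_of_eq e)).op)).1
  apply inj
  rw [map_mul, ← CommRingCat.comp_apply, ← CommRingCat.comp_apply, ← CommRingCat.comp_apply,
    ← Functor.map_comp, ← Functor.map_comp]
  have h1 := Proj.awayMap_awayToSection (homogeneousSubmodule κ k) (f := y) hz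
    (rfl : (y * z : MvPolynomial κ k) = y * z)
  have h2 := Proj.awayMap_awayToSection (homogeneousSubmodule κ k) (f := z) hy
    (mul_comm y z : (y * z : MvPolynomial κ k) = z * y)
  have e1 : ∀ (l : MvPolynomial κ k) (hl : l ∈ homogeneousSubmodule κ k 1),
      (PS k κ).presheaf.map (homOfLE (Proj.basicOpen_mono _ _ _ ⟨_, rfl⟩)).op
      (gsec y l hy hl) = Proj.awayToSection (homogeneousSubmodule κ k) (y * z)
        (awayMap (homogeneousSubmodule κ k) hz rfl (fr y l hy hl)) := fun l hl =>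
    (congrArg (fun φ => φ.hom (fr y l hy hl)) h1).symm
  have e2 : ∀ (l : MvPolynomial κ k) (hl : l ∈ homogeneousSubmodule κ k 1),
      (PS k κ).presheaf.map (homOfLE (Proj.basicOpen_mono _ _ _
      ⟨_, mul_comm y z⟩)).op (gsec z l hz hl) =
      Proj.awayToSection (homogeneousSubmodule κ k) (y * z)
        (awayMap (homogeneousSubmodule κ k) hy (mul_comm _ _) (fr z l hz hl)) := fun l hl =>
    (congrArg (fun φ => φ.hom (fr z l hz hl)) h2).symm
  refine (e1 w hw).trans (Eq.trans ?_ (congrArg₂ (· * ·) (e1 z hz) (e2 w hw)).symm)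
  rw [← map_mul]
  congr 1
  refine HomogeneousLocalization.val_injective _ ?_
  rw [val_mul, fr, fr, fr, awayMap_mk, awayMap_mk, awayMap_mk, Away.val_mk, Away.val_mk,
    Away.val_mk, Localization.mk_mul, Localization.mk_eq_mk_iff, Localization.r_iff_exists]
  refine ⟨1, ?_⟩
  simp only [OneMemClass.coe_one, one_mul, pow_one, Submonoid.mk_mul_mk]
  ring

theorem awayι_pre (y z : MvPolynomial κ k) (hy : y ∈ homogeneousSubmodule κ k 1)
    (hz : z ∈ homogeneousSubmodule κ k 1) :
    Proj.awayι (homogeneousSubmodule κ k) y hy one_pos ⁻¹ᵁ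
      Proj.basicOpen (homogeneousSubmodule κ k) z = PrimeSpectrum.basicOpen (fr y z hy hz) := by
  have h := Proj.awayι_preimage_basicOpen (homogeneousSubmodule κ k) hy one_pos hz one_pos
  rw [h]
  congr 1
  refine HomogeneousLocalization.val_injective _ ?_
  rw [fr, Away.val_mk, Away.val_mk, pow_one]

theorem basicOpen_gsec (y z : MvPolynomial κ k) (hy : y ∈ homogeneousSubmodule κ k 1)
    (hz : z ∈ homogeneousSubmodule κ k 1) :
    (PS k κ).basicOpen (gsec y z hy hz) = Proj.basicOpen (homogeneousSubmodule κ k) y ⊓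
      Proj.basicOpen (homogeneousSubmodule κ k) z := by
  have key : ∀ (x : PS k κ) (hxi : x ∈ Proj.basicOpen (homogeneousSubmodule κ k) y),
      x ∈ (PS k κ).basicOpen (gsec y z hy hz) ↔
        x ∈ Proj.basicOpen (homogeneousSubmodule κ k) z := by
    intro x hxi
    let U : (PS k κ).Opens := Proj.basicOpen (homogeneousSubmodule κ k) y
    let w : U.toScheme := ⟨x, hxi⟩
    let I := Proj.basicOpenIsoSpec (homogeneousSubmodule κ k) y hy one_pos
    have h3 : Proj.awayι (homogeneousSubmodule κ k) y hy one_pos (I.hom w) = x := by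
      have h4 : I.hom ≫ Proj.awayι (homogeneousSubmodule κ k) y hy one_pos = U.ι := by
        rw [← Proj.basicOpenIsoSpec_inv_ι, Iso.hom_inv_id_assoc]
      have h5 := congrArg (fun φ => φ w) h4
      exact h5
    have h1 : x ∈ (PS k κ).basicOpen (gsec y z hy hz) ↔
        w ∈ U.ι ⁻¹ᵁ (PS k κ).basicOpen (gsec y z hy hz) := Iff.rfl
    have h2 : w ∈ U.ι ⁻¹ᵁ (PS k κ).basicOpen (gsec y z hy hz) ↔
        I.hom w ∈ PrimeSpectrum.basicOpen (fr y z hy hz) := by
      rw [← Scheme.Opens.toSpecΓ_preimage_basicOpen]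
      exact Iff.rfl
    rw [h1, h2, ← awayι_pre]
    conv_rhs => rw [← h3]
    exact Iff.rfl
  ext x
  constructor
  · intro hx
    have hx1 : x ∈ Proj.basicOpen (homogeneousSubmodule κ k) y := (PS k κ).basicOpen_le _ hx
    exact ⟨hx1, (key x hx1).1 hx⟩
  · rintro ⟨hx1, hx2⟩
    exact (key x hx1).2 hx2

end LinAAux

theorem tLinA : StLinA := by
  intro k κ _ _
  refine ⟨fun c => ?_, fun c d => ?_, fun c d d' => ?_, fun c => ?_⟩
  · exact Proj.isAffineOpen_basicOpen (homogeneousSubmodule κ k) (lin c) (lin_mem c) one_pos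
  · exact LinAAux.basicOpen_gsec (lin c) (lin d) (lin_mem c) (lin_mem d)
  · exact LinAAux.gsec_mul (lin c) (lin d) (lin d') (lin_mem c) (lin_mem d) (lin_mem d')
  · exact LinAAux.gsec_self (lin c) (lin_mem c)

end Pool.Agent.Lib.MP_4ca46c_ag.Cn
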