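import Mathlib
import Pool.Agent.Lib.MP_4ca46c_ag.Cn.SpecB

/-!
# Linear forms on projective space: summary
-/

namespace Pool.Agent.Lib.MP_4ca46c_ag.Cn

theorem tLin (hA : StLinA) (hB : StLinB) (hC : StLinC) : StLin := by
  intro k κ _ _ _
  obtain ⟨a1, a2, a3, a4⟩ := hA k κ
  obtain ⟨b1, b2, b3⟩ := hB k κ
  obtain ⟨c1, c2⟩ := hC k κ
  exact ⟨a1, a2, a3, a4, b1, b2, b3, c1, c2⟩

end Pool.Agent.Lib.MP_4ca46c_ag.Cn
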