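import Mathlib
import Pool.Agent.Lib.MP_4ca46c_ag.Cn.SpecB

/-!
# Linear forms on projective space: sums, multiples, generation
-/

open CategoryTheory Limits AlgebraicGeometry Opposite HomogeneousLocalization
open Pool.Agent.Lib.MP_4ca46c_ag.Sign Pool.Agent.Lib.MP_4ca46c_ag.Hyp
open Pool.Agent.Lib.MP_4ca46c_ag.Std Pool.Agent.Lib.MP_4ca46c_ag.T2

namespace Pool.Agent.Lib.MP_4ca46c_ag.Cn

attribute [local instance] MvPolynomial.gradedAlgebra

namespace LinBAux

open MvPolynomial

variable {k : Type} [Field k] {κ : Type}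

/-- The constants in the degree zero fractions. -/
noncomputable abbrev cst (f : MvPolynomial κ k) : k →+* Away (homogeneousSubmodule κ k) f :=
  (fromZeroRingHom (homogeneousSubmodule κ k) _).comp
    (algebraMap k (homogeneousSubmodule κ k 0))

theorem con_eq (f : MvPolynomial κ k) (hf : f ∈ homogeneousSubmodule κ k 1) (r : k) :
    con (psStr k κ) (Proj.basicOpen (homogeneousSubmodule κ k) f) r =
      Proj.awayToSection (homogeneousSubmodule κ k) f (cst f r) := by
  set U : (PS k κ).Opens := Proj.basicOpen (homogeneousSubmodule κ k) f with hU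
  have h1 : U.ι ≫ psStr k κ = U.toSpecΓ ≫ Spec.map (CommRingCat.ofHom (cst f) ≫
      Proj.awayToSection (homogeneousSubmodule κ k) f) := by
    have h2 : (Proj.basicOpenIsoSpec (homogeneousSubmodule κ k) f hf one_pos).hom ≫
        Proj.awayι (homogeneousSubmodule κ k) f hf one_pos = U.ι := by
      rw [← Proj.basicOpenIsoSpec_inv_ι, Iso.hom_inv_id_assoc]
    have h3 := away_str k f hf one_pos
    rw [← h2, Category.assoc, h3, Proj.basicOpenIsoSpec_hom, Proj.basicOpenToSpec,
      Category.assoc, ← Spec.map_comp]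
  have h2 := Scheme.Hom.appLE_comp_appLE U.ι (psStr k κ) ⊤ U ⊤ le_top (by simp)
  have h3 : U.ι.appLE U ⊤ (by simp) = U.topIso.inv := by
    rw [Scheme.Opens.ι_appLE, Scheme.Opens.topIso_inv]
    rfl
  have h4 : (U.ι ≫ psStr k κ).appLE ⊤ ⊤ le_top = (U.ι ≫ psStr k κ).appTop :=
    Scheme.Hom.appLE_eq_app _
  rw [h3, h4, h1] at h2
  have h5 : (Scheme.ΓSpecIso (CommRingCat.of k)).inv ≫ (psStr k κ).appLE ⊤ U le_top =
      CommRingCat.ofHom (cst f) ≫ Proj.awayToSection (homogeneousSubmodule κ k) f := by
    rw [← cancel_mono U.topIso.inv, Category.assoc, h2, Scheme.Hom.comp_appTop,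
      Scheme.Opens.toSpecΓ_appTop]
    rw [← Scheme.ΓSpecIso_inv_naturality_assoc, Iso.inv_hom_id_assoc]
  exact congrArg (fun φ => φ.hom r) h5

theorem gsec_add {f y z w : MvPolynomial κ k} (hf : f ∈ homogeneousSubmodule κ k 1)
    (hy : y ∈ homogeneousSubmodule κ k 1) (hz : z ∈ homogeneousSubmodule κ k 1)
    (hw : w ∈ homogeneousSubmodule κ k 1) (e : w = y + z) :
    gsec f w hf hw = gsec f y hf hy + gsec f z hf hz := by
  subst e
  rw [gsec, gsec, gsec, ← map_add]
  congr 1
  refine HomogeneousLocalization.val_injective _ ?_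
  rw [val_add, Away.val_mk, Away.val_mk, Away.val_mk, Localization.add_mk_self]

theorem gsec_smul {f y w : MvPolynomial κ k} (r : k) (hf : f ∈ homogeneousSubmodule κ k 1)
    (hy : y ∈ homogeneousSubmodule κ k 1) (hw : w ∈ homogeneousSubmodule κ k 1) (e : w = r • y) :
    gsec f w hf hw =
      Proj.awayToSection (homogeneousSubmodule κ k) f (cst f r) * gsec f y hf hy := by
  subst e
  rw [gsec, gsec, ← map_mul]
  congr 1
  refine HomogeneousLocalization.val_injective _ ?_
  have e1 : (cst f r).val = Localization.mk (C r) 1 := rfl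
  rw [val_mul, e1, Away.val_mk, Away.val_mk, Localization.mk_mul, one_mul, smul_eq_C_mul]

/-- Dehomogenization. -/
noncomputable def dh (f : MvPolynomial κ k) (hf : f ∈ homogeneousSubmodule κ k 1) :
    MvPolynomial κ k →+* Away (homogeneousSubmodule κ k) f :=
  eval₂Hom (cst f) (fun j => Away.mk (homogeneousSubmodule κ k) hf 1 (X j) (by simpa using hX j))

theorem dh_eq (f : MvPolynomial κ k) (hf : f ∈ homogeneousSubmodule κ k 1) (n : ℕ)
    (x : MvPolynomial κ k) (hx : x ∈ homogeneousSubmodule κ k (n • 1)) :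
    Away.mk (homogeneousSubmodule κ k) hf n x hx = dh f hf x := by
  refine HomogeneousLocalization.val_injective _ ?_
  rw [Away.val_mk]
  set L := Localization.Away f
  have key : (dh f hf x).val * algebraMap (MvPolynomial κ k) L (f ^ n) =
      algebraMap (MvPolynomial κ k) L x := by
    conv_lhs => rw [x.as_sum]
    conv_rhs => rw [x.as_sum]
    rw [map_sum, map_sum, ← HomogeneousLocalization.algebraMap_apply, map_sum, Finset.sum_mul]
    refine Finset.sum_congr rfl fun v hv => ?_
    have hn : ∑ j ∈ v.support, v j = n := by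
      have h := hx (mem_support_iff.1 hv)
      rw [smul_eq_mul, mul_one] at h
      rw [← h]
      simp [Finsupp.weight_apply, Finsupp.sum]
    have hC : ∀ r, algebraMap (Away (homogeneousSubmodule κ k) f) L
        (dh f hf (C r)) = algebraMap (MvPolynomial κ k) L (C r) := fun r => by
      rw [dh, coe_eval₂Hom, eval₂_C]
      rfl
    have hXj : ∀ j, algebraMap (Away (homogeneousSubmodule κ k) f) L
        (dh f hf (X j)) * algebraMap (MvPolynomial κ k) L f =
          algebraMap (MvPolynomial κ k) L (X j) := fun j => by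
      rw [dh, coe_eval₂Hom, eval₂_X, HomogeneousLocalization.algebraMap_apply,
        Away.val_mk, ← Localization.mk_one_eq_algebraMap, ← Localization.mk_one_eq_algebraMap,
        Localization.mk_mul, Localization.mk_eq_mk_iff, Localization.r_iff_exists]
      refine ⟨1, ?_⟩
      simp only [OneMemClass.coe_one, one_mul, pow_one, mul_one]
      ring
    rw [monomial_eq, map_mul, map_mul, map_mul, hC, mul_assoc]
    congr 1
    rw [Finsupp.prod, map_prod, map_prod, map_prod, map_pow, ← hn,
      ← Finset.prod_pow_eq_pow_sum, ← Finset.prod_mul_distrib]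
    refine Finset.prod_congr rfl fun j _ => ?_
    rw [map_pow, map_pow, map_pow, ← mul_pow, hXj]
  have hu : IsUnit (algebraMap (MvPolynomial κ k) L (f ^ n)) := by
    rw [map_pow]
    exact (IsLocalization.Away.algebraMap_isUnit f).pow n
  refine hu.mul_right_cancel ?_
  rw [key, ← Localization.mk_one_eq_algebraMap, ← Localization.mk_one_eq_algebraMap,
    Localization.mk_mul, Localization.mk_eq_mk_iff, Localization.r_iff_exists]
  refine ⟨1, ?_⟩
  simp only [OneMemClass.coe_one, one_mul, mul_one]
  ring

theorem gen (f : MvPolynomial κ k) (hf : f ∈ homogeneousSubmodule κ k 1)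
    (S : Subring Γ(PS k κ, Proj.basicOpen (homogeneousSubmodule κ k) f))
    (h1 : ∀ r, con (psStr k κ) _ r ∈ S) (h2 : ∀ j, gsec f (X j) hf (hX j) ∈ S)
    (s : Γ(PS k κ, Proj.basicOpen (homogeneousSubmodule κ k) f)) : s ∈ S := by
  have hb : Function.Surjective (Proj.awayToSection (homogeneousSubmodule κ k) f) :=
    (ConcreteCategory.bijective_of_isIso
      (Proj.basicOpenIsoAway (homogeneousSubmodule κ k) f hf one_pos).hom).2
  obtain ⟨x, rfl⟩ := hb s
  obtain ⟨n, a, ha, rfl⟩ := Away.mk_surjective (homogeneousSubmodule κ k) hf x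
  rw [dh_eq]
  have key : ∀ p : MvPolynomial κ k,
      Proj.awayToSection (homogeneousSubmodule κ k) f (dh f hf p) ∈ S := by
    intro p
    induction p using MvPolynomial.induction_on with
    | C r =>
      have h3 := h1 r
      rw [con_eq f hf r] at h3
      rw [dh, coe_eval₂Hom, eval₂_C]
      exact h3
    | add p q hp hq =>
      rw [map_add, map_add]
      exact add_mem hp hq
    | mul_X p j hp =>
      rw [map_mul, map_mul]
      refine mul_mem hp ?_
      have h3 := h2 j
      rw [gsec] at h3
      rw [dh, coe_eval₂Hom, eval₂_X]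
      exact h3
  exact key a

end LinBAux

open LinBAux in
theorem tLinB : StLinB := by
  intro k κ _ _
  refine ⟨fun c d d' => ?_, fun c r d => ?_, fun c S h1 h2 s => ?_⟩
  · refine gsec_add _ _ _ _ ?_
    simp only [lin, Pi.add_apply, map_add, add_mul, Finset.sum_add_distrib]
  · refine (gsec_smul r (lin_mem c) (lin_mem d) (lin_mem (r • d)) ?_).trans ?_
    · simp only [lin, Pi.smul_apply, smul_eq_mul, map_mul, Finset.smul_sum, mul_assoc,
        MvPolynomial.smul_eq_C_mul]
    · rw [← con_eq (lin c) (lin_mem c)]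
      rfl
  · classical
    refine gen (lin c) (lin_mem c) S h1 (fun j => ?_) s
    have h3 := h2 (Pi.single j 1)
    have h4 : lin (Pi.single j (1 : k)) = MvPolynomial.X j := by
      rw [lin, Finset.sum_eq_single j]
      · rw [Pi.single_eq_same, map_one, one_mul]
      · intro i _ hij
        rw [Pi.single_eq_of_ne hij, map_zero, zero_mul]
      · intro h
        exact absurd (Finset.mem_univ j) h
    have h5 : ∀ (w : MvPolynomial κ k) (hw : w ∈ MvPolynomial.homogeneousSubmodule κ k 1),
        w = MvPolynomial.X j → gsec (lin c) w (lin_mem c) hw =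
          gsec (lin c) (MvPolynomial.X j) (lin_mem c) (hX j) := by
      intro w hw e
      subst e
      rfl
    rw [← h5 _ (lin_mem (Pi.single j (1 : k))) h4]
    exact h3

end Pool.Agent.Lib.MP_4ca46c_ag.Cn
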