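import Mathlib
import Pool.Agent.Lib.MP_4ca46c_ag.Cn.SpecB

/-!
# Linear forms on projective space and the coordinates
-/

set_option autoImplicit false

open CategoryTheory Limits AlgebraicGeometry Opposite
open Pool.Agent.Lib.MP_4ca46c_ag.Sign Pool.Agent.Lib.MP_4ca46c_ag.Hyp
open Pool.Agent.Lib.MP_4ca46c_ag.Std Pool.Agent.Lib.MP_4ca46c_ag.T2

namespace Pool.Agent.Lib.MP_4ca46c_ag.Cn

attribute [local instance] MvPolynomial.gradedAlgebra

namespace LinCAux

variable {k κ : Type} [Field k] [Fintype κ]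

/-- The linear form of a unit vector. -/
theorem lin_single [DecidableEq κ] (i : κ) :
    lin (Pi.single i (1 : k)) = (MvPolynomial.X i : MvPolynomial κ k) := by
  rw [lin, Finset.sum_eq_single i]
  · rw [Pi.single_eq_same, MvPolynomial.C_1, one_mul]
  · intro j _ hj
    rw [Pi.single_eq_of_ne hj, MvPolynomial.C_0, zero_mul]
  · intro h
    exact absurd (Finset.mem_univ i) h

/-- Pull-back of constants. -/
theorem app_con {X T : Scheme.{0}} (s : X ⟶ Spec (CommRingCat.of k)) (t : T ⟶ X) (U : X.Opens)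
    (W : T.Opens) (h : W ≤ t ⁻¹ᵁ U) (r : k) :
    t.appLE U W h (con s U r) = T.presheaf.map (homOfLE le_top).op (con (t ≫ s) ⊤ r) := by
  have e1 : s.appLE ⊤ U le_top ≫ t.appLE U W h = (t ≫ s).appLE ⊤ W le_top :=
    Scheme.Hom.appLE_comp_appLE t s ⊤ U W le_top h
  have e2 : (t ≫ s).appLE ⊤ ⊤ le_top ≫ T.presheaf.map (homOfLE (le_top : W ≤ ⊤)).op =
      (t ≫ s).appLE ⊤ W le_top := Scheme.Hom.appLE_map (t ≫ s) le_top (homOfLE le_top).op
  have h1 := congrArg (fun φ => (Scheme.ΓSpecIso (CommRingCat.of k)).inv ≫ φ) (e1.trans e2.symm)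
  exact congrArg (fun φ => φ.hom r) h1

/-- A linear form is the sum of its terms. -/
theorem linF_sum [DecidableEq κ] (hB : StLinB) (c d : κ → k) :
    linF c d = ∑ j, con (psStr k κ) _ (d j) * linF c (Pi.single j 1) := by
  obtain ⟨hadd, hsmul, _⟩ := hB k κ
  let φ : (κ → k) →+ Γ(PS k κ, linD c) := AddMonoidHom.mk' (linF c) (hadd c)
  have h1 : d = ∑ j, d j • (Pi.single j (1 : k) : κ → k) := by
    funext l
    rw [Finset.sum_apply, Finset.sum_eq_single l]
    · rw [Pi.smul_apply, Pi.single_eq_same, smul_eq_mul, mul_one]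
    · intro j _ hj
      rw [Pi.smul_apply, Pi.single_eq_of_ne hj.symm, smul_zero]
    · intro h
      exact absurd (Finset.mem_univ l) h
  have h2 : φ d = ∑ j, φ (d j • (Pi.single j (1 : k) : κ → k)) := by
    rw [← map_sum, ← h1]
  refine h2.trans (Finset.sum_congr rfl fun j _ => ?_)
  exact hsmul c (d j) (Pi.single j 1)

end LinCAux

open LinCAux in
/-- **B1c.** -/
theorem tLinC (hLinB : StLinB) : StLinC := by
  intro k κ _ _ _
  refine ⟨fun i => ?_, fun i d T t W h h' => ?_⟩
  · rw [linD, lin_single]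
  · rw [linF_sum hLinB, map_sum]
    change _ = ∑ j, T.presheaf.map (homOfLE le_top).op (con (t ≫ psStr k κ) ⊤ (d j)) *
      t.appLE (psD i) W h' (psf i j)
    refine Finset.sum_congr rfl fun j _ => ?_
    rw [map_mul, app_con]
    congr 1
    have h1 := sec_eq t W (lin_single (k := k) i) (lin_single (k := k) j) (lin_mem _) (hX i)
      (lin_mem _) (hX j) h h'
    exact h1

end Pool.Agent.Lib.MP_4ca46c_ag.Cn
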