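import Mathlib
import Pool.Agent.Lib.MP_4ca46c_ag.Cn.SpecA

/-!
# A4: Noether normalization relative to a linear form
-/

namespace Pool.Agent.Lib.MP_4ca46c_ag.Cn

open Polynomial (C X)

namespace NoethAux

variable {k K : Type} [Field k] [Field K] [Algebra k K]

theorem hInt_zero (W : Submodule k K) : HInt k W (0 : K) := by
  unfold HInt
  have : (C (0 : K) * X : Polynomial K) = 0 := by simp
  rw [this]
  exact isIntegral_zero

theorem hInt_add (W : Submodule k K) {a b : K} (ha : HInt k W a) (hb : HInt k W b) :
    HInt k W (a + b) := by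
  unfold HInt at *
  have : (C (a + b) * X : Polynomial K) = C a * X + C b * X := by
    rw [Polynomial.C_add, add_mul]
  rw [this]
  exact ha.add hb

theorem hInt_smul (W : Submodule k K) (c : k) {a : K} (ha : HInt k W a) :
    HInt k W (c • a) := by
  unfold HInt at *
  have h1 : (C (c • a) * X : Polynomial K) =
      algebraMap (cone k W) (Polynomial K) (algebraMap k (cone k W) c) * (C a * X) := by
    have h2 : algebraMap (cone k W) (Polynomial K) (algebraMap k (cone k W) c) =
        C (algebraMap k K c) := rfl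
    rw [h2, ← mul_assoc, ← Polynomial.C_mul, Algebra.smul_def]
  rw [h1]
  exact isIntegral_algebraMap.mul ha

theorem hInt_span (W' : Submodule k K) {ι : Type} (y : ι → K) (h : ∀ i, HInt k W' (y i)) :
    ∀ w ∈ Submodule.span k (Set.range y), HInt k W' w := by
  intro w hw
  induction hw using Submodule.span_induction with
  | mem x hx =>
    obtain ⟨i, rfl⟩ := hx
    exact h i
  | zero => exact hInt_zero W'
  | add a b _ _ ha hb => exact hInt_add W' ha hb
  | smul c a _ ha => exact hInt_smul W' c ha

theorem hInt_self (W : Submodule k K) {z : K} (hz : z ∈ W) : HInt k W z := by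
  unfold HInt
  have h : (C z * X : Polynomial K) ∈ cone k W :=
    Algebra.subset_adjoin ⟨z, hz, rfl⟩
  have := isIntegral_algebraMap (R := cone k W) (A := Polynomial K) (x := ⟨C z * X, h⟩)
  exact this

end NoethAux

open NoethAux in
theorem tNoeth (hRed : StRed) (hTrans : StTrans) : StNoeth := by
  intro k K _ _ _ _ E hfin x₀ hx₀ hne
  classical
  have hex : ∃ n : ℕ, ∃ W : Submodule k K, W ≤ E ∧ x₀ ∈ W ∧ (∀ z ∈ E, HInt k W z) ∧
      Module.finrank k W = n :=
    ⟨_, E, le_refl _, hx₀, fun z hz => hInt_self E hz, rfl⟩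
  obtain ⟨W, hWE, hxW, hint, hrk⟩ := Nat.find_spec hex
  refine ⟨W, hWE, hxW, hint, ?_⟩
  intro r y hli hspan hy0
  by_contra hnot
  obtain ⟨W', hW', hy0', hlt, hi⟩ := hRed k K r y (by rw [hy0]; exact hne) hnot
  have hcard : Module.finrank k W = r + 1 := by
    rw [← hspan, finrank_span_eq_card hli]
    simp
  rw [hspan] at hW'
  have hmin := Nat.find_min hex (m := Module.finrank k W') (by
    rw [← hrk, hcard]
    exact hlt)
  apply hmin
  refine ⟨W', hW'.trans hWE, ?_, ?_, rfl⟩
  · rw [← hy0]
    exact hy0'
  · intro z hz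
    refine hTrans k K W' W ?_ z (hint z hz)
    intro w hw
    rw [← hspan] at hw
    exact hInt_span W' y hi w hw

end Pool.Agent.Lib.MP_4ca46c_ag.Cn
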