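import Mathlib
import Pool.Agent.Lib.MP_4ca46c_ag.Cn.SpecA

/-!
# The reduction step of Noether normalization
-/

set_option autoImplicit false

namespace Pool.Agent.Lib.MP_4ca46c_ag.Cn

open Polynomial (C X)

namespace RedAux

/-- Scaling the arguments of a homogeneous polynomial. -/
theorem aeval_scale {k S σ : Type} [Field k] [CommRing S] [Algebra k S] [Fintype σ] (d : ℕ)
    (G : MvPolynomial σ k) (hG : G.IsHomogeneous d) (f : σ → S) (t : S) :
    MvPolynomial.aeval (fun i => f i * t) G = MvPolynomial.aeval f G * t ^ d := by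
  rw [MvPolynomial.aeval_def, MvPolynomial.aeval_def, MvPolynomial.eval₂_eq', MvPolynomial.eval₂_eq',
    Finset.sum_mul]
  refine Finset.sum_congr rfl fun m hm => ?_
  have h1 : ∑ i, m i = d := by
    have h2 := hG (MvPolynomial.mem_support_iff.mp hm)
    have h3 : (Finsupp.weight (1 : σ → ℕ)) m = m.degree := by
      rw [Finsupp.degree_eq_weight_one]
      rfl
    rw [h3, Finsupp.degree_eq_sum] at h2
    exact h2
  have h3 : ∏ i, (f i * t) ^ m i = (∏ i, f i ^ m i) * t ^ d := by
    simp only [mul_pow]
    rw [Finset.prod_mul_distrib, Finset.prod_pow_eq_pow_sum, h1]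
  rw [h3]
  ring

/-- A polynomial minus its value at `X 0 = 0` is divisible by `X 0`. -/
theorem dvd_sub {k σ : Type} [Field k] [DecidableEq σ] (s : σ) (G : MvPolynomial σ k) :
    (MvPolynomial.X s : MvPolynomial σ k) ∣ G - MvPolynomial.aeval
      (fun i => if i = s then (0 : MvPolynomial σ k) else MvPolynomial.X i) G := by
  induction G using MvPolynomial.induction_on with
  | C a => simp
  | add p q hp hq =>
    have h := dvd_add hp hq
    rw [map_add]
    convert h using 1
    ring
  | mul_X p i hp =>
    rw [map_mul, MvPolynomial.aeval_X]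
    by_cases h : i = s
    · rw [if_pos h, mul_zero, sub_zero, h]
      exact dvd_mul_left _ _
    · rw [if_neg h, ← sub_mul]
      exact dvd_mul_of_dvd_left hp _

/-- A homogeneous polynomial not divisible by `X s` has a point with `c s = 0` where it does not
vanish. -/
theorem exists_point {k σ : Type} [Field k] [Infinite k] [DecidableEq σ] (s : σ)
    (G : MvPolynomial σ k) (h : ¬ (MvPolynomial.X s : MvPolynomial σ k) ∣ G) :
    ∃ c : σ → k, c s = 0 ∧ MvPolynomial.eval c G ≠ 0 := by
  by_contra hcon
  push Not at hcon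
  apply h
  have h1 := dvd_sub s G
  have h2 : MvPolynomial.aeval
      (fun i => if i = s then (0 : MvPolynomial σ k) else MvPolynomial.X i) G = 0 := by
    apply MvPolynomial.funext
    intro c
    rw [map_zero]
    have h3 := hcon (fun i => if i = s then 0 else c i) (if_pos rfl)
    rw [← h3, MvPolynomial.aeval_def, MvPolynomial.eval₂_eq, map_sum, MvPolynomial.eval_eq]
    refine Finset.sum_congr rfl fun m _ => ?_
    rw [map_mul, map_prod]
    congr 1
    · simp
    · refine Finset.prod_congr rfl fun i _ => ?_
      rw [map_pow]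
      congr 1
      by_cases hi : i = s
      · simp [hi]
      · simp [hi]
  rw [h2, sub_zero] at h1
  exact h1

/-- A factor of a homogeneous polynomial. -/
theorem homog_factor {k σ : Type} [Field k] (s : σ) (d : ℕ) (G G' : MvPolynomial σ k)
    (hG : G.IsHomogeneous (d + 1)) (h : G = MvPolynomial.X s * G') : G'.IsHomogeneous d := by
  intro m hm
  have h1 : MvPolynomial.coeff (Finsupp.single s 1 + m) G ≠ 0 := by
    rw [h, MvPolynomial.coeff_X_mul]
    exact hm
  have h2 := hG h1
  rw [map_add] at h2
  have h3 : (Finsupp.weight (1 : σ → ℕ)) (Finsupp.single s 1) = 1 := by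
    rw [Finsupp.weight_single]
    simp
  omega

end RedAux

open RedAux in
/-- **A2. The reduction step.** -/
theorem tRed (hSubst : StSubst) : StRed := by
  intro k K _ _ _ _ m y hy0 hInd
  classical
  -- a homogeneous relation of minimal degree
  have hex : ∃ d : ℕ, ∃ G : MvPolynomial (Fin (m + 1)) k, G.IsHomogeneous d ∧
      MvPolynomial.aeval y G = 0 ∧ G ≠ 0 := by
    by_contra hcon
    push Not at hcon
    exact hInd fun d G hG h0 => hcon d G hG h0
  obtain ⟨G, hG, hG0, hGne⟩ := Nat.find_spec hex
  have hmin : ∀ d' < Nat.find hex, ¬ ∃ G : MvPolynomial (Fin (m + 1)) k, G.IsHomogeneous d' ∧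
      MvPolynomial.aeval y G = 0 ∧ G ≠ 0 := fun d' hd' => Nat.find_min hex hd'
  generalize Nat.find hex = d at hG hmin
  -- the degree is positive
  have hd : d ≠ 0 := by
    intro hd
    rw [hd] at hG
    have h1 : G.totalDegree = 0 := hG.totalDegree hGne
    rw [MvPolynomial.totalDegree_eq_zero_iff_eq_C] at h1
    rw [h1, MvPolynomial.aeval_C] at hG0
    have h2 : MvPolynomial.coeff 0 G = 0 := by
      exact (map_eq_zero (algebraMap k K)).mp hG0
    apply hGne
    rw [h1, h2, map_zero]
  obtain ⟨d', rfl⟩ := Nat.exists_eq_succ_of_ne_zero hd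
  -- not divisible by the first variable
  have hndvd : ¬ (MvPolynomial.X 0 : MvPolynomial (Fin (m + 1)) k) ∣ G := by
    rintro ⟨G', hG'⟩
    apply hmin d' (Nat.lt_succ_self d')
    refine ⟨G', homog_factor 0 d' G G' hG hG', ?_, ?_⟩
    · have h1 := hG0
      rw [hG', map_mul, MvPolynomial.aeval_X] at h1
      exact (mul_eq_zero.mp h1).resolve_left hy0
    · intro h
      apply hGne
      rw [hG', h, mul_zero]
  obtain ⟨c, hc0, hc⟩ := exists_point 0 G hndvd
  -- some coordinate is not zero
  have hs : ∃ s, c s ≠ 0 := by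
    by_contra hcon
    push Not at hcon
    apply hc
    have h1 : c = fun i => (0 : k) * 0 := by
      funext i
      rw [hcon i, mul_zero]
    have h2 := aeval_scale (k := k) (S := k) (d' + 1) G hG (fun _ => 0) 0
    have h3 : MvPolynomial.aeval (fun _ : Fin (m + 1) => (0 : k) * 0) G =
        MvPolynomial.eval (fun _ : Fin (m + 1) => (0 : k) * 0) G :=
      DFunLike.congr_fun (MvPolynomial.coe_aeval_eq_eval (fun _ => (0 : k) * 0)) G
    rw [h1, ← h3, h2, pow_succ, mul_zero, mul_zero]
  obtain ⟨s, hs⟩ := hs
  have hs0 : (0 : Fin (m + 1)) ≠ s := by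
    intro h
    rw [← h] at hs
    exact hs hc0
  -- the subspace
  let g : Fin (m + 1) → K := fun i => y i - (c i / c s) • y s
  have hgs : g s = 0 := by
    change y s - (c s / c s) • y s = 0
    rw [div_self hs, one_smul, sub_self]
  let W' : Submodule k K := Submodule.span k (Set.range (fun i : {i // i ≠ s} => g i.1))
  have hgW : ∀ i, g i ∈ W' := by
    intro i
    by_cases h : i = s
    · rw [h, hgs]
      exact W'.zero_mem
    · exact Submodule.subset_span ⟨⟨i, h⟩, rfl⟩
  have hsub : W' ≤ Submodule.span k (Set.range y) := by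
    rw [Submodule.span_le]
    rintro _ ⟨i, rfl⟩
    exact Submodule.sub_mem _ (Submodule.subset_span ⟨i.1, rfl⟩)
      (Submodule.smul_mem _ _ (Submodule.subset_span ⟨s, rfl⟩))
  have hy0W : y 0 ∈ W' := by
    have h1 := hgW 0
    have h2 : g 0 = y 0 := by
      change y 0 - (c 0 / c s) • y s = y 0
      rw [hc0, zero_div, zero_smul, sub_zero]
    rw [h2] at h1
    exact h1
  have hrank : Module.finrank k W' < m + 1 := by
    have h1 : Module.finrank k W' ≤ Fintype.card {i : Fin (m + 1) // i ≠ s} :=
      finrank_range_le_card _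
    have h2 : Fintype.card {i : Fin (m + 1) // i ≠ s} = m := by
      rw [Fintype.card_subtype_compl, Fintype.card_fin, Fintype.card_subtype_eq]
      rfl
    omega
  refine ⟨W', hsub, hy0W, hrank, ?_⟩
  -- the cone
  let A : Subalgebra k (Polynomial K) := cone k W'
  have hβ : ∀ i, (C (g i) * X : Polynomial K) ∈ A := fun i =>
    Algebra.subset_adjoin ⟨g i, hgW i, rfl⟩
  let β : Fin (m + 1) → A := fun i => ⟨C (g i) * X, hβ i⟩
  let γ : Fin (m + 1) → k := fun i => c i / c s
  let T : Polynomial K := C (y s) * X
  have hyi : ∀ i, (C (y i) * X : Polynomial K) =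
      algebraMap A (Polynomial K) (β i) + algebraMap A (Polynomial K) (algebraMap k A (γ i)) * T := by
    intro i
    have h1 : algebraMap A (Polynomial K) (β i) = C (g i) * X := rfl
    have h2 : algebraMap A (Polynomial K) (algebraMap k A (γ i)) = C (algebraMap k K (γ i)) := rfl
    rw [h1, h2]
    have h3 : y i = g i + algebraMap k K (γ i) * y s := by
      change y i = y i - (c i / c s) • y s + algebraMap k K (c i / c s) * y s
      rw [Algebra.smul_def]
      ring
    change (C (y i) * X : Polynomial K) = C (g i) * X + C (algebraMap k K (γ i)) * (C (y s) * X)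
    rw [h3]
    simp only [map_add, map_mul]
    ring
  obtain ⟨hdeg, hcoef⟩ := hSubst k A (Fin (m + 1)) β (fun i => algebraMap k A (γ i)) (d' + 1) G hG
  set Q : Polynomial A := MvPolynomial.aeval
    (fun i => (C (β i) + C (algebraMap k A (γ i)) * X : Polynomial A)) G with hQ
  have hcoef2 : Q.coeff (d' + 1) = algebraMap k A (MvPolynomial.eval γ G) := by
    rw [hcoef, MvPolynomial.aeval_def, MvPolynomial.eval₂_eq, MvPolynomial.eval_eq, map_sum]
    refine Finset.sum_congr rfl fun n _ => ?_
    rw [map_mul, map_prod]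
    simp only [map_pow]
  have hγ : MvPolynomial.eval γ G ≠ 0 := by
    have h1 := aeval_scale (k := k) (S := k) (d' + 1) G hG c (c s)⁻¹
    have h2 : (fun i => c i * (c s)⁻¹) = γ := by
      funext i
      exact (div_eq_mul_inv (c i) (c s)).symm
    rw [h2] at h1
    have h3 : MvPolynomial.aeval γ G = MvPolynomial.eval γ G :=
      DFunLike.congr_fun (MvPolynomial.coe_aeval_eq_eval γ) G
    have h4 : MvPolynomial.aeval c G = MvPolynomial.eval c G :=
      DFunLike.congr_fun (MvPolynomial.coe_aeval_eq_eval c) G
    rw [← h3, h1, h4]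
    exact mul_ne_zero hc (pow_ne_zero _ (inv_ne_zero hs))
  -- the zero
  have hzero : Polynomial.eval₂ (algebraMap A (Polynomial K)) T Q = 0 := by
    have h1 : Polynomial.eval₂ (algebraMap A (Polynomial K)) T Q =
        ((Polynomial.aeval T : Polynomial A →ₐ[A] Polynomial K).restrictScalars k) Q := rfl
    rw [h1, hQ, MvPolynomial.comp_aeval_apply]
    have h2 : (fun i => ((Polynomial.aeval T : Polynomial A →ₐ[A] Polynomial K).restrictScalars k)
        (C (β i) + C (algebraMap k A (γ i)) * X)) = fun i => (C (y i) * X : Polynomial K) := by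
      funext i
      rw [hyi i]
      change (Polynomial.aeval T : Polynomial A →ₐ[A] Polynomial K)
        (C (β i) + C (algebraMap k A (γ i)) * X) = _
      rw [map_add, map_mul, Polynomial.aeval_C, Polynomial.aeval_C, Polynomial.aeval_X]
    rw [h2, aeval_scale (d' + 1) G hG (fun i => (C (y i) : Polynomial K)) X]
    have h3 : MvPolynomial.aeval (fun i => (C (y i) : Polynomial K)) G = C (MvPolynomial.aeval y G) := by
      have h4 := MvPolynomial.comp_aeval_apply (R := k) y (Polynomial.CAlgHom : K →ₐ[k] Polynomial K) G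
      exact h4.symm
    rw [h3, hG0, map_zero, zero_mul]
  have hT : IsIntegral A T := by
    refine ⟨C (algebraMap k A (MvPolynomial.eval γ G)⁻¹) * Q, ?_, ?_⟩
    · apply Polynomial.monic_of_natDegree_le_of_coeff_eq_one (d' + 1)
      · exact (Polynomial.natDegree_C_mul_le _ _).trans hdeg
      · rw [Polynomial.coeff_C_mul, hcoef2, ← map_mul, inv_mul_cancel₀ hγ, map_one]
    · rw [Polynomial.eval₂_mul, hzero, mul_zero]
  intro i
  change IsIntegral A (C (y i) * X : Polynomial K)
  rw [hyi i]
  exact (isIntegral_algebraMap).add ((isIntegral_algebraMap).mul hT)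

end Pool.Agent.Lib.MP_4ca46c_ag.Cn
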