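import Mathlib
import Pool.Agent.Lib.MP_4ca46c_ag.Cn.SpecA

/-!
# A1: substitution of linear polynomials in a homogeneous polynomial (helper55)
-/

namespace Pool.Agent.Lib.MP_4ca46c_ag.Cn

open Polynomial (C X)

namespace SubstAux

variable {R σ : Type} [CommRing R]

/-- the linear polynomial `b + c T` -/
noncomputable def P (b c : σ → R) (i : σ) : Polynomial R := C (b i) + C (c i) * X

theorem P_deg (b c : σ → R) (i : σ) : (P b c i).natDegree ≤ 1 := by
  have e : P b c i = C (c i) * X + C (b i) := add_comm _ _
  rw [e]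
  exact Polynomial.natDegree_linear_le

theorem P_coeff (b c : σ → R) (i : σ) : (P b c i).coeff 1 = c i := by
  simp [P, Polynomial.coeff_C]

theorem prod (b c : σ → R) (m : σ → ℕ) (s : Finset σ) :
    (∏ i ∈ s, P b c i ^ m i).natDegree ≤ ∑ i ∈ s, m i ∧
      (∏ i ∈ s, P b c i ^ m i).coeff (∑ i ∈ s, m i) = ∏ i ∈ s, c i ^ m i := by
  classical
  induction s using Finset.induction_on with
  | empty => simp
  | insert a s ha ih =>
    obtain ⟨ih1, ih2⟩ := ih
    have h1 : (P b c a ^ m a).natDegree ≤ m a := by
      have := Polynomial.natDegree_pow_le_of_le (m a) (P_deg b c a)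
      rwa [mul_one] at this
    have h2 : (P b c a ^ m a).coeff (m a) = c a ^ m a := by
      have := Polynomial.coeff_pow_of_natDegree_le (m := m a) (P_deg b c a)
      rwa [mul_one, P_coeff] at this
    rw [Finset.prod_insert ha, Finset.sum_insert ha, Finset.prod_insert ha]
    refine ⟨Polynomial.natDegree_mul_le_of_le h1 ih1, ?_⟩
    rw [Polynomial.coeff_mul_add_eq_of_natDegree_le h1 ih1, h2, ih2]

end SubstAux

open SubstAux in
/-- **A1.** Substitution of linear polynomials in a homogeneous polynomial. -/
theorem tSubst : StSubst := by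
  intro k R _ _ _ σ _ b c d G hG
  have e : MvPolynomial.aeval (fun i => (C (b i) + C (c i) * X : Polynomial R)) G =
      ∑ m ∈ G.support, C (algebraMap k R (G.coeff m)) * ∏ i ∈ m.support, P b c i ^ m i := by
    rw [MvPolynomial.aeval_def, MvPolynomial.eval₂_eq]
    rfl
  have e' : MvPolynomial.aeval c G =
      ∑ m ∈ G.support, algebraMap k R (G.coeff m) * ∏ i ∈ m.support, c i ^ m i := by
    rw [MvPolynomial.aeval_def, MvPolynomial.eval₂_eq]
  rw [e, e']
  constructor
  · refine Polynomial.natDegree_sum_le_of_forall_le _ _ fun m hm => ?_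
    refine (Polynomial.natDegree_C_mul_le _ _).trans ?_
    rw [hG.degree_eq_sum_deg_support hm]
    exact (prod b c m m.support).1
  · rw [Polynomial.finsetSum_coeff]
    refine Finset.sum_congr rfl fun m hm => ?_
    rw [Polynomial.coeff_C_mul, hG.degree_eq_sum_deg_support hm, (prod b c m m.support).2]

end Pool.Agent.Lib.MP_4ca46c_ag.Cn
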