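import Mathlib
import Pool.Agent.Lib.MP_4ca46c_ag.Cn.SpecA

/-!
# Transitivity of integrality over homogeneous coordinate rings (A3)
-/

namespace Pool.Agent.Lib.MP_4ca46c_ag.Cn

open Polynomial (C X)

namespace TransAux

/-- Every element of the cone of `W` is integral over the cone of `W'`. -/
theorem cone_int {k K : Type} [Field k] [Field K] [Algebra k K] (W' W : Submodule k K)
    (h : ∀ w ∈ W, HInt k W' w) (p : Polynomial K) (hp : p ∈ cone k W) :
    IsIntegral (cone k W') p := by
  have hle : cone k W ≤ (integralClosure (cone k W') (Polynomial K)).restrictScalars k := by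
    unfold cone
    apply Algebra.adjoin_le
    rintro q ⟨w, hw, rfl⟩
    exact h w hw
  exact hle hp

end TransAux

theorem tTrans : StTrans := by
  intro k K _ _ _ W' W h z hz
  let S : Subalgebra (cone k W') (Polynomial K) := integralClosure (cone k W') (Polynomial K)
  have hmem : ∀ p : cone k W, (p : Polynomial K) ∈ S :=
    fun p => TransAux.cone_int W' W h p p.2
  let f : cone k W →+* S :=
    { toFun := fun p => ⟨(p : Polynomial K), hmem p⟩
      map_one' := rfl
      map_mul' := fun _ _ => rfl
      map_zero' := rfl
      map_add' := fun _ _ => rfl }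
  have h1 : IsIntegral S (C z * X : Polynomial K) := by
    obtain ⟨p, hp, he⟩ := hz
    refine ⟨p.map f, hp.map f, ?_⟩
    rw [Polynomial.eval₂_map]
    exact he
  have h2 : Algebra.IsIntegral (cone k W') S := inferInstance
  exact isIntegral_trans (A := S) _ h1

end Pool.Agent.Lib.MP_4ca46c_ag.Cn
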