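import Mathlib
import Pool.Agent.Lib.MP_4ca46c_ag.Cn.SpecA

/-!
# A6: no common zeros
-/

namespace Pool.Agent.Lib.MP_4ca46c_ag.Cn

open Polynomial (C X)

namespace UnitAux

variable {k K : Type} [Field k] [Field K] [Algebra k K]

/-- The coefficients of elements of the cone. -/
def Good {O : Type} [CommRing O] [IsLocalRing O] [Algebra k O] (φ : O →ₐ[k] K) (c : K)
    (a : Polynomial K) : Prop :=
  ∀ n, ∃ t, φ t = a.coeff n / c ^ n ∧ (1 ≤ n → t ∈ IsLocalRing.maximalIdeal O)

theorem good_cone (W : Submodule k K) {O : Type} [CommRing O] [IsLocalRing O] [Algebra k O]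
    (φ : O →ₐ[k] K) (c : K) 
    (h : ∀ w ∈ W, ∃ t, φ t = w / c ∧ t ∈ IsLocalRing.maximalIdeal O) :
    ∀ a ∈ cone k W, Good φ c a := by
  classical
  intro a ha
  induction ha using Algebra.adjoin_induction with
  | mem x hx =>
    obtain ⟨w, hw, rfl⟩ := hx
    intro n
    rcases eq_or_ne n 1 with rfl | hn
    · obtain ⟨t, ht, htM⟩ := h w hw
      refine ⟨t, ?_, fun _ => htM⟩
      rw [ht, pow_one]
      congr 1
      simp
    · refine ⟨0, ?_, fun _ => Ideal.zero_mem _⟩
      have : (C w * X : Polynomial K).coeff n = 0 := by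
        rw [Polynomial.coeff_C_mul, Polynomial.coeff_X_of_ne_one hn, mul_zero]
      rw [this, map_zero, zero_div]
  | algebraMap r =>
    intro n
    have hC : algebraMap k (Polynomial K) r = C (algebraMap k K r) := rfl
    rcases Nat.eq_zero_or_pos n with rfl | hn
    · refine ⟨algebraMap k O r, ?_, fun h => absurd h (by norm_num)⟩
      rw [hC, Polynomial.coeff_C_zero, pow_zero, div_one]
      exact φ.commutes r
    · refine ⟨0, ?_, fun _ => Ideal.zero_mem _⟩
      rw [hC, Polynomial.coeff_C_ne_zero hn.ne', map_zero, zero_div]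
  | add a b _ _ ha hb =>
    intro n
    obtain ⟨s, hs, hs'⟩ := ha n
    obtain ⟨t, ht, ht'⟩ := hb n
    refine ⟨s + t, ?_, fun h => Ideal.add_mem _ (hs' h) (ht' h)⟩
    rw [map_add, hs, ht, Polynomial.coeff_add, add_div]
  | mul a b _ _ ha hb =>
    intro n
    choose s hs hs' using ha
    choose t ht ht' using hb
    refine ⟨∑ p ∈ Finset.HasAntidiagonal.antidiagonal n, s p.1 * t p.2, ?_, fun h => ?_⟩
    · rw [map_sum, Polynomial.coeff_mul, Finset.sum_div]
      refine Finset.sum_congr rfl fun p hp => ?_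
      rw [map_mul, hs, ht, ← Finset.HasAntidiagonal.mem_antidiagonal.mp hp, pow_add]
      rw [div_mul_div_comm]
    · refine Ideal.sum_mem _ fun p hp => ?_
      have hp' := Finset.HasAntidiagonal.mem_antidiagonal.mp hp
      rcases Nat.eq_zero_or_pos p.1 with h0 | h0
      · exact Ideal.mul_mem_left _ _ (ht' _ (by omega))
      · exact Ideal.mul_mem_right _ _ (hs' _ h0)

end UnitAux

open UnitAux in
theorem tUnit : StUnit := by
  classical
  intro k K _ _ _ W O _ _ _ φ hφ c hc hint hW
  by_contra hno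
  push Not at hno
  have hM : ∀ w ∈ W, ∃ t, φ t = w / c ∧ t ∈ IsLocalRing.maximalIdeal O := by
    intro w hw
    obtain ⟨t, ht⟩ := hW w hw
    refine ⟨t, ht, ?_⟩
    rw [IsLocalRing.mem_maximalIdeal]
    intro hu
    exact hno w hw t hu ht
  have hgood := good_cone W φ c hM
  obtain ⟨p, hp, hev⟩ := hint
  set d := p.natDegree with hd
  rw [Polynomial.eval₂_eq_sum_range, ← hd] at hev
  have h1 := congrArg (fun q : Polynomial K => q.coeff d / c ^ d) hev
  simp only [Polynomial.finset_sum_coeff, Polynomial.coeff_zero, zero_div, Finset.sum_div] at h1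
  have h2 : ∀ i ∈ Finset.range (d + 1),
      (algebraMap (cone k W) (Polynomial K) (p.coeff i) * (C c * X : Polynomial K) ^ i).coeff d /
        c ^ d = (p.coeff i : Polynomial K).coeff (d - i) / c ^ (d - i) := by
    intro i hi
    have hi' : i ≤ d := by
      have := Finset.mem_range.mp hi
      omega
    have h3 : (algebraMap (cone k W) (Polynomial K) (p.coeff i)) = (p.coeff i : Polynomial K) := rfl
    rw [h3, mul_pow, ← Polynomial.C_pow, ← mul_assoc]
    have h4 : ((p.coeff i : Polynomial K) * C (c ^ i) * X ^ i).coeff d =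
        (p.coeff i : Polynomial K).coeff (d - i) * c ^ i := by
      conv_lhs => rw [← Nat.sub_add_cancel hi']
      rw [Polynomial.coeff_mul_X_pow, Polynomial.coeff_mul_C]
    rw [h4]
    have h5 : c ^ d = c ^ (d - i) * c ^ i := by
      rw [← pow_add, Nat.sub_add_cancel hi']
    rw [h5, mul_div_mul_right _ _ (pow_ne_zero i hc)]
  rw [Finset.sum_congr rfl h2, Finset.sum_range_succ] at h1
  have h6 : (p.coeff d : Polynomial K).coeff (d - d) / c ^ (d - d) = 1 := by
    have : p.coeff d = 1 := hp
    rw [this]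
    simp
  rw [h6] at h1
  have h7 : ∃ m ∈ IsLocalRing.maximalIdeal O, φ m = ∑ i ∈ Finset.range d,
      (p.coeff i : Polynomial K).coeff (d - i) / c ^ (d - i) := by
    have hch : ∀ i, ∃ t, φ t = (p.coeff i : Polynomial K).coeff (d - i) / c ^ (d - i) ∧
        (1 ≤ d - i → t ∈ IsLocalRing.maximalIdeal O) := fun i =>
      hgood (p.coeff i : Polynomial K) (p.coeff i).2 (d - i)
    choose t ht ht' using hch
    refine ⟨∑ i ∈ Finset.range d, t i, ?_, ?_⟩
    · refine Ideal.sum_mem _ fun i hi => ht' i ?_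
      have := Finset.mem_range.mp hi
      omega
    · rw [map_sum]
      exact Finset.sum_congr rfl fun i _ => ht i
  obtain ⟨m, hm, hmφ⟩ := h7
  rw [← hmφ] at h1
  have h8 : m + 1 = 0 := by
    apply hφ
    rw [map_add, map_one, map_zero]
    exact h1
  have h9 : (1 : O) ∈ IsLocalRing.maximalIdeal O := by
    have : (1 : O) = -m := by
      rw [eq_neg_iff_add_eq_zero, add_comm]
      exact h8
    rw [this]
    exact Ideal.neg_mem_iff _ |>.mpr hm
  exact (IsLocalRing.mem_maximalIdeal _).mp h9 isUnit_one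

end Pool.Agent.Lib.MP_4ca46c_ag.Cn
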