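import Mathlib
import Pool.Agent.Lib.MP_4ca46c_ag.Cn.Subst
import Pool.Agent.Lib.MP_4ca46c_ag.Cn.Red
import Pool.Agent.Lib.MP_4ca46c_ag.Cn.Trans
import Pool.Agent.Lib.MP_4ca46c_ag.Cn.Noeth
import Pool.Agent.Lib.MP_4ca46c_ag.Cn.FinGen
import Pool.Agent.Lib.MP_4ca46c_ag.Cn.Unit
import Pool.Agent.Lib.MP_4ca46c_ag.Cn.Dehom
import Pool.Agent.Lib.MP_4ca46c_ag.Cn.Idm
import Pool.Agent.Lib.MP_4ca46c_ag.Cn.Free
import Pool.Agent.Lib.MP_4ca46c_ag.Cn.Deg
import Pool.Agent.Lib.MP_4ca46c_ag.Cn.Bd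
import Pool.Agent.Lib.MP_4ca46c_ag.Cn.Core
import Pool.Agent.Lib.MP_4ca46c_ag.Cn.Basis
import Pool.Agent.Lib.MP_4ca46c_ag.Cn.Alg
import Pool.Agent.Lib.MP_4ca46c_ag.Cn.LinAll
import Pool.Agent.Lib.MP_4ca46c_ag.Cn.LinA
import Pool.Agent.Lib.MP_4ca46c_ag.Cn.LinB
import Pool.Agent.Lib.MP_4ca46c_ag.Cn.LinC
import Pool.Agent.Lib.MP_4ca46c_ag.Cn.FF
import Pool.Agent.Lib.MP_4ca46c_ag.Cn.ChartEq
import Pool.Agent.Lib.MP_4ca46c_ag.Cn.Ker
import Pool.Agent.Lib.MP_4ca46c_ag.Cn.Clop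
import Pool.Agent.Lib.MP_4ca46c_ag.Cn.IdD
import Pool.Agent.Lib.MP_4ca46c_ag.Cn.Inf
import Pool.Agent.Lib.MP_4ca46c_ag.Cn.ConnA
import Pool.Agent.Lib.MP_4ca46c_ag.Cn.Conn
import Pool.Agent.Lib.MP_4ca46c_ag.T2.Asm

/-!
# Smooth hyperplane sections of projective varieties of dimension at least two are connected
-/

namespace Pool.Agent.Lib.MP_4ca46c_ag.Cn

theorem sRed : StRed := tRed tSubst

theorem sNoeth : StNoeth := tNoeth sRed tTrans

theorem sCore : StCore := tCore tIdm tFree tDeg tBd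

theorem sBasis : StBasis := tBasis sNoeth tFinGen tUnit

theorem sAlg : StAlg := tAlg sBasis tFinGen tDehom tIdm sCore

theorem sLin : StLin := tLin tLinA tLinB (tLinC tLinB)

theorem sFF : StFF := tFF sLin

theorem sChartEq : StChartEq := tChartEq sLin

theorem sKer : StKer := tKer sLin

theorem sIdD : StIdD := tIdD sLin sChartEq sKer tClop

theorem sInf : StInf := tInf sLin sChartEq sKer

theorem sConnA : StConnA := tConnA sLin sFF sIdD sInf sAlg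

theorem sConn : StConn := tConn sConnA

/-- Smooth hyperplane sections are connected. -/
theorem tHypConn : T2.StHypConn := sConn

end Pool.Agent.Lib.MP_4ca46c_ag.Cn
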